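import Mathlib

/-!
# Baranyai's theorem

For `m, k ≥ 1` the `k`-subsets of an `mk`-set can be partitioned into `C(mk-1,k-1)` perfect
matchings.  The proof is the one of Brouwer and Schrijver, with Hall's theorem in place of the
integrality of flows.
-/

set_option autoImplicit false

namespace Pool.Agent.H73.Baranyai

open Finset

variable {n : ℕ}

/-- required number of occurrences of a set of size `s` at stage `l` -/
def cnt (n k l s : ℕ) : ℕ := if s ≤ k then (n - l).choose (k - s) else 0

/-- required number of times that a set of size `s` is enlarged at stage `l` -/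
def inc (n k l s : ℕ) : ℕ := if s < k then (n - l - 1).choose (k - s - 1) else 0

lemma mul_cnt {n k l s : ℕ} (hl : l < n) : (k - s) * cnt n k l s = (n - l) * inc n k l s := by
  unfold cnt inc
  rcases lt_trichotomy s k with h | h | h
  · rw [if_pos h.le, if_pos h]
    obtain ⟨a, ha⟩ : ∃ a, k - s = a + 1 := ⟨k - s - 1, by omega⟩
    obtain ⟨b, hb⟩ : ∃ b, n - l = b + 1 := ⟨n - l - 1, by omega⟩
    rw [ha, hb]
    have := Nat.add_one_mul_choose_eq b a
    simp only [Nat.add_sub_cancel]
    rw [this]
    ring
  · subst h; simp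
  · rw [if_neg (by omega), if_neg (by omega)]; simp

lemma cnt_add {n k l s : ℕ} (hl : l < n) : cnt n k (l + 1) s + inc n k l s = cnt n k l s := by
  unfold cnt inc
  rcases lt_trichotomy s k with h | h | h
  · rw [if_pos h.le, if_pos h.le, if_pos h]
    obtain ⟨a, ha⟩ : ∃ a, k - s = a + 1 := ⟨k - s - 1, by omega⟩
    obtain ⟨b, hb⟩ : ∃ b, n - l = b + 1 := ⟨n - l - 1, by omega⟩
    have hb' : n - (l + 1) = b := by omega
    rw [ha, hb, hb']
    simp only [Nat.add_sub_cancel]
    rw [Nat.choose_succ_succ' b a, add_comm]
  · subst h; simp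
  · rw [if_neg (by omega), if_neg (by omega), if_neg (by omega)]

lemma inc_eq_cnt {n k l s : ℕ} (hs : 1 ≤ s) : inc n k l (s - 1) = cnt n k (l + 1) s := by
  unfold cnt inc
  by_cases h : s ≤ k
  · rw [if_pos h, if_pos (by omega)]
    congr 1
    omega
  · rw [if_neg h, if_neg (by omega)]

/-- the invariant of the construction -/
structure Inv (n k m M l : ℕ) (A : Fin M → Multiset (Finset (Fin n))) : Prop where
  card : ∀ i, Multiset.card (A i) = m
  total : ∀ i, ((A i).map Finset.card).sum = l
  cover : ∀ i, ∀ x : Fin n, x.val < l → (A i).countP (fun S => x ∈ S) = 1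
  sub : ∀ i, ∀ S ∈ A i, ∀ x ∈ S, x.val < l
  count : ∀ S : Finset (Fin n), (∀ x ∈ S, x.val < l) → ∑ i, (A i).count S = cnt n k l S.card

lemma sum_map_eq (A : Multiset (Finset (Fin n))) (g : Finset (Fin n) → ℕ) :
    (A.map g).sum = ∑ S : Finset (Fin n), A.count S * g S := by
  rw [Finset.sum_multiset_map_count]
  simp only [smul_eq_mul]
  apply sum_subset (subset_univ _)
  intro S _ hS
  rw [Multiset.count_eq_zero_of_notMem (fun h => hS (Multiset.mem_toFinset.2 h)), zero_mul]

lemma inv_zero (m k : ℕ) (hk : 1 ≤ k) (hm : 1 ≤ m) :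
    Inv (m * k) k m ((m * k - 1).choose (k - 1)) 0 (fun _ => Multiset.replicate m ∅) where
  card i := by simp
  total i := by simp
  cover i x hx := by omega
  sub i S hS x hx := by
    rw [Multiset.eq_of_mem_replicate hS] at hx
    simp at hx
  count S hS := by
    have hS0 : S = ∅ := by
      rw [eq_empty_iff_forall_notMem]
      intro x hx
      have := hS x hx
      omega
    subst hS0
    simp only [Multiset.count_replicate_self, sum_const, card_univ, Fintype.card_fin, smul_eq_mul,
      card_empty, cnt, Nat.zero_le, if_true, Nat.sub_zero]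
    obtain ⟨a, rfl⟩ : ∃ a, k = a + 1 := ⟨k - 1, by omega⟩
    obtain ⟨b, hb⟩ : ∃ b, m * (a + 1) = b + 1 :=
      ⟨m * (a + 1) - 1, by have : 1 ≤ m * (a + 1) := Nat.mul_pos hm (by omega); omega⟩
    rw [hb]
    simp only [Nat.add_sub_cancel]
    have h1 := Nat.add_one_mul_choose_eq b a
    rw [← hb] at h1
    have h2 : (b.choose a * m) * (a + 1) = (b + 1).choose (a + 1) * (a + 1) := by
      rw [← hb, ← h1]; ring
    exact Nat.eq_of_mul_eq_mul_right (by omega) h2

section step

variable {k m M l : ℕ} {A : Fin M → Multiset (Finset (Fin n))}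

lemma card_le_k (hA : Inv n k m M l A) {i : Fin M} {S : Finset (Fin n)} (hS : S ∈ A i) :
    S.card ≤ k := by
  by_contra hcon
  have h1 := hA.count S (hA.sub i S hS)
  unfold cnt at h1
  rw [if_neg hcon] at h1
  have h2 : (A i).count S = 0 := by
    have := Finset.sum_eq_zero_iff.1 h1 i (mem_univ i)
    exact this
  exact (Multiset.count_pos.2 hS).ne' h2

lemma weight (hA : Inv n k m M l A) (hn : n = m * k) (i : Fin M) :
    ((A i).map (fun S => k - S.card)).sum = n - l := by
  have h1 : ((A i).map (fun S => k - S.card)).sum + ((A i).map Finset.card).sum = n := by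
    rw [← Multiset.sum_map_add]
    have : (A i).map (fun S => k - S.card + S.card) = (A i).map (fun _ => k) := by
      apply Multiset.map_congr rfl
      intro S hS
      have := card_le_k hA hS
      omega
    rw [this, Multiset.map_const', Multiset.sum_replicate, hA.card i, hn, smul_eq_mul]
  rw [hA.total i] at h1
  omega

/-- slots -/
def slots (k l : ℕ) (A : Fin M → Multiset (Finset (Fin n))) (i : Fin M) :
    Finset (Σ _ : Finset (Fin n), ℕ) :=
  (A i).toFinset.sigma (fun S => range (inc n k l S.card))

lemma hall (hA : Inv n k m M l A) (hn : n = m * k) (hl : l < n) (s : Finset (Fin M)) :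
    s.card ≤ (s.biUnion (slots k l A)).card := by
  have hbi : s.biUnion (slots k l A)
      = (s.biUnion (fun i => (A i).toFinset)).sigma (fun S => range (inc n k l S.card)) := by
    ext ⟨S, j⟩
    simp only [slots, mem_biUnion, mem_sigma]
    constructor
    · rintro ⟨i, hi, h1, h2⟩; exact ⟨⟨i, hi, h1⟩, h2⟩
    · rintro ⟨⟨i, hi, h1⟩, h2⟩; exact ⟨i, hi, h1, h2⟩
  rw [hbi, card_sigma]
  simp only [card_range]
  have h1 : (n - l) * s.card
      = ∑ S : Finset (Fin n), (∑ i ∈ s, (A i).count S) * (k - S.card) := by
    calc (n - l) * s.card = ∑ i ∈ s, (n - l) := by rw [sum_const, smul_eq_mul, mul_comm]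
      _ = ∑ i ∈ s, ((A i).map (fun S => k - S.card)).sum := by
          apply sum_congr rfl; intro i _; rw [weight hA hn i]
      _ = ∑ i ∈ s, ∑ S : Finset (Fin n), (A i).count S * (k - S.card) := by
          apply sum_congr rfl; intro i _; rw [sum_map_eq]
      _ = ∑ S : Finset (Fin n), ∑ i ∈ s, (A i).count S * (k - S.card) := sum_comm
      _ = _ := by
          apply sum_congr rfl; intro S _; rw [sum_mul]
  have h2 : ∑ S : Finset (Fin n), (∑ i ∈ s, (A i).count S) * (k - S.card)
      = ∑ S ∈ s.biUnion (fun i => (A i).toFinset), (∑ i ∈ s, (A i).count S) * (k - S.card) := by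
    symm
    apply sum_subset (subset_univ _)
    intro S _ hS
    have : ∑ i ∈ s, (A i).count S = 0 := by
      apply sum_eq_zero
      intro i hi
      apply Multiset.count_eq_zero_of_notMem
      intro hmem
      exact hS (mem_biUnion.2 ⟨i, hi, Multiset.mem_toFinset.2 hmem⟩)
    rw [this, zero_mul]
  have h3 : ∑ S ∈ s.biUnion (fun i => (A i).toFinset), (∑ i ∈ s, (A i).count S) * (k - S.card)
      ≤ ∑ S ∈ s.biUnion (fun i => (A i).toFinset), (n - l) * inc n k l S.card := by
    apply sum_le_sum
    intro S hS
    obtain ⟨i, hi, hSi⟩ := mem_biUnion.1 hS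
    have hSi' := Multiset.mem_toFinset.1 hSi
    rw [← mul_cnt hl, mul_comm]
    apply Nat.mul_le_mul_left
    rw [← hA.count S (hA.sub i S hSi')]
    exact sum_le_sum_of_subset (subset_univ _)
  rw [← mul_sum] at h3
  have h4 : (n - l) * s.card
      ≤ (n - l) * ∑ S ∈ s.biUnion (fun i => (A i).toFinset), inc n k l S.card := by
    rw [h1, h2]; exact h3
  exact Nat.le_of_mul_le_mul_left h4 (by omega)

lemma total_inc (hA : Inv n k m M l A) (hn : n = m * k) (hl : l < n) :
    ∑ S ∈ univ.filter (fun S : Finset (Fin n) => ∀ x ∈ S, x.val < l), inc n k l S.card = M := by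
  have h1 : (n - l) * M
      = ∑ S : Finset (Fin n), (∑ i, (A i).count S) * (k - S.card) := by
    calc (n - l) * M = ∑ i : Fin M, (n - l) := by simp [mul_comm]
      _ = ∑ i, ((A i).map (fun S => k - S.card)).sum := by
          apply sum_congr rfl; intro i _; rw [weight hA hn i]
      _ = ∑ i, ∑ S : Finset (Fin n), (A i).count S * (k - S.card) := by
          apply sum_congr rfl; intro i _; rw [sum_map_eq]
      _ = ∑ S : Finset (Fin n), ∑ i, (A i).count S * (k - S.card) := sum_comm
      _ = _ := by
          apply sum_congr rfl; intro S _; rw [sum_mul]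
  have h2 : ∑ S : Finset (Fin n), (∑ i, (A i).count S) * (k - S.card)
      = ∑ S ∈ univ.filter (fun S : Finset (Fin n) => ∀ x ∈ S, x.val < l),
          (∑ i, (A i).count S) * (k - S.card) := by
    symm
    apply sum_subset (subset_univ _)
    intro S _ hS
    have : ∑ i, (A i).count S = 0 := by
      apply sum_eq_zero
      intro i _
      apply Multiset.count_eq_zero_of_notMem
      intro hmem
      exact hS (mem_filter.2 ⟨mem_univ _, hA.sub i S hmem⟩)
    rw [this, zero_mul]
  have h3 : ∑ S ∈ univ.filter (fun S : Finset (Fin n) => ∀ x ∈ S, x.val < l),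
        (∑ i, (A i).count S) * (k - S.card)
      = (n - l) * ∑ S ∈ univ.filter (fun S : Finset (Fin n) => ∀ x ∈ S, x.val < l),
          inc n k l S.card := by
    rw [mul_sum]
    apply sum_congr rfl
    intro S hS
    rw [hA.count S (mem_filter.1 hS).2, mul_comm, mul_cnt hl]
  have h4 := h1.trans (h2.trans h3)
  exact (Nat.eq_of_mul_eq_mul_left (by omega) h4).symm

lemma exists_choice (hA : Inv n k m M l A) (hn : n = m * k) (hl : l < n) :
    ∃ f : Fin M → Finset (Fin n), (∀ i, f i ∈ A i) ∧
      ∀ S : Finset (Fin n), (∀ x ∈ S, x.val < l) →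
        (univ.filter (fun i => f i = S)).card = inc n k l S.card := by
  obtain ⟨F, hFinj, hF⟩ :=
    (Finset.all_card_le_biUnion_card_iff_exists_injective (slots k l A)).1 (hall hA hn hl)
  have hF1 : ∀ i, (F i).1 ∈ A i := fun i => by
    have := hF i
    simp only [slots, mem_sigma] at this
    exact Multiset.mem_toFinset.1 this.1
  have hF2 : ∀ i, (F i).2 < inc n k l (F i).1.card := fun i => by
    have := hF i
    simp only [slots, mem_sigma] at this
    exact mem_range.1 this.2
  refine ⟨fun i => (F i).1, hF1, ?_⟩
  have hle : ∀ S : Finset (Fin n),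
      (univ.filter (fun i => (F i).1 = S)).card ≤ inc n k l S.card := by
    intro S
    have : (univ.filter (fun i => (F i).1 = S)).card ≤ (range (inc n k l S.card)).card := by
      apply card_le_card_of_injOn (fun i => (F i).2)
      · intro i hi
        have hi' := (mem_filter.1 (mem_coe.1 hi)).2
        have := hF2 i
        rw [hi'] at this
        exact mem_coe.2 (mem_range.2 this)
      · intro i hi j hj hij
        have hi' := (mem_filter.1 (mem_coe.1 hi)).2
        have hj' := (mem_filter.1 (mem_coe.1 hj)).2
        apply hFinj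
        exact Sigma.ext (hi'.trans hj'.symm) (heq_of_eq hij)
    simpa using this
  have hsum : ∑ S ∈ univ.filter (fun S : Finset (Fin n) => ∀ x ∈ S, x.val < l),
      (univ.filter (fun i => (F i).1 = S)).card = M := by
    have := card_eq_sum_card_fiberwise (s := (univ : Finset (Fin M)))
      (t := univ.filter (fun S : Finset (Fin n) => ∀ x ∈ S, x.val < l)) (f := fun i => (F i).1)
      (fun i _ => by
        apply mem_coe.2
        exact mem_filter.2 ⟨mem_univ _, hA.sub i _ (hF1 i)⟩)
    rw [← this]; simp
  have htot := total_inc hA hn hl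
  have heq := (sum_eq_sum_iff_of_le (fun S _ => hle S)).1 (hsum.trans htot.symm)
  intro S hS
  exact heq S (mem_filter.2 ⟨mem_univ _, hS⟩)

lemma step (hA : Inv n k m M l A) (hn : n = m * k) (hl : l < n) :
    ∃ A' : Fin M → Multiset (Finset (Fin n)), Inv n k m M (l + 1) A' := by
  obtain ⟨f, hf, hcount⟩ := exists_choice hA hn hl
  set z : Fin n := ⟨l, hl⟩ with hz
  have hzf : ∀ i, z ∉ f i := fun i h => by
    have := hA.sub i _ (hf i) z h
    simp [hz] at this
  have hzA : ∀ i, ∀ S ∈ A i, z ∉ S := fun i S hS h => by
    have := hA.sub i S hS z h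
    simp [hz] at this
  refine ⟨fun i => insert z (f i) ::ₘ (A i).erase (f i), ?_, ?_, ?_, ?_, ?_⟩
  · intro i
    rw [Multiset.card_cons, Multiset.card_erase_of_mem (hf i), hA.card i]
    have : 0 < m := by
      rw [← hA.card i]; exact Multiset.card_pos_iff_exists_mem.2 ⟨_, hf i⟩
    exact Nat.succ_pred_eq_of_pos this
  · intro i
    have h1 := hA.total i
    rw [← Multiset.cons_erase (hf i), Multiset.map_cons, Multiset.sum_cons] at h1
    rw [Multiset.map_cons, Multiset.sum_cons, card_insert_of_notMem (hzf i)]
    omega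
  · intro i x hx
    have h1 : (A i).countP (fun S => x ∈ S)
        = ((A i).erase (f i)).countP (fun S => x ∈ S) + if x ∈ f i then 1 else 0 := by
      conv_lhs => rw [← Multiset.cons_erase (hf i)]
      rw [Multiset.countP_cons]
    rw [Multiset.countP_cons]
    by_cases hxl : x.val < l
    · have hne : x ≠ z := by rintro rfl; simp [hz] at hxl
      rw [hA.cover i x hxl] at h1
      have h2 : (x ∈ insert z (f i)) ↔ x ∈ f i := by
        rw [mem_insert]; exact ⟨fun h => h.resolve_left hne, Or.inr⟩
      simp only [h2]
      omega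
    · have hxz : x = z := Fin.ext (by simp [hz]; omega)
      subst hxz
      rw [if_neg (hzf i), Multiset.countP_eq_zero.2 (fun S hS => hzA i S hS)] at h1
      rw [if_pos (mem_insert_self _ _)]
      omega
  · intro i S hS x hx
    rcases Multiset.mem_cons.1 hS with rfl | hS'
    · rcases mem_insert.1 hx with rfl | hx'
      · simp [hz]
      · have := hA.sub i _ (hf i) x hx'
        omega
    · have := hA.sub i S (Multiset.mem_of_mem_erase hS') x hx
      omega
  · intro S hS
    simp only [Multiset.count_cons, sum_add_distrib]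
    by_cases hzS : z ∈ S
    · have h1 : ∑ i, ((A i).erase (f i)).count S = 0 := by
        apply sum_eq_zero
        intro i _
        apply Multiset.count_eq_zero_of_notMem
        intro h
        exact hzA i S (Multiset.mem_of_mem_erase h) hzS
      have h2 : ∑ i, (if S = insert z (f i) then 1 else 0)
          = (univ.filter (fun i => f i = S.erase z)).card := by
        rw [card_filter]
        apply sum_congr rfl
        intro i _
        have : (S = insert z (f i)) ↔ f i = S.erase z := by
          constructor
          · rintro h; rw [h, erase_insert (hzf i)]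
          · intro h; rw [h, insert_erase hzS]
        simp only [this]
      have hsub : ∀ x ∈ S.erase z, x.val < l := by
        intro x hx
        have h3 := hS x (mem_of_mem_erase hx)
        have h4 : x ≠ z := ne_of_mem_erase hx
        have h5 : x.val ≠ l := fun h => h4 (Fin.ext (by simp [hz, h]))
        omega
      rw [h1, h2, zero_add, hcount _ hsub, card_erase_of_mem hzS,
        inc_eq_cnt (card_pos.2 ⟨z, hzS⟩)]
    · have hsub : ∀ x ∈ S, x.val < l := by
        intro x hx
        have h3 := hS x hx
        have h5 : x.val ≠ l := fun h => hzS (by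
          have : x = z := Fin.ext (by simp [hz, h])
          rwa [← this])
        omega
      have h2 : ∑ i, (if S = insert z (f i) then 1 else 0) = 0 := by
        apply sum_eq_zero
        intro i _
        rw [if_neg]
        rintro rfl
        exact hzS (mem_insert_self _ _)
      have h3 : ∑ i, (A i).count S
          = ∑ i, ((A i).erase (f i)).count S + (univ.filter (fun i => f i = S)).card := by
        rw [card_filter, ← sum_add_distrib]
        apply sum_congr rfl
        intro i _
        conv_lhs => rw [← Multiset.cons_erase (hf i)]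
        rw [Multiset.count_cons]
        congr 1
        simp only [eq_comm]
      rw [hA.count S hsub, hcount S hsub, ← cnt_add hl] at h3
      rw [h2, add_zero]
      omega

end step

lemma exists_inv (m k : ℕ) (hk : 1 ≤ k) (hm : 1 ≤ m) :
    ∀ l, l ≤ m * k → ∃ A, Inv (m * k) k m ((m * k - 1).choose (k - 1)) l A := by
  intro l
  induction l with
  | zero => intro _; exact ⟨_, inv_zero m k hk hm⟩
  | succ l ih =>
    intro hl
    obtain ⟨A, hA⟩ := ih (by omega)
    exact step hA rfl (by omega)

/-- **Baranyai's theorem.** -/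
theorem baranyai (m k : ℕ) (hk : 1 ≤ k) (hm : 1 ≤ m) :
    ∃ A : Fin ((m * k - 1).choose (k - 1)) → Multiset (Finset (Fin (m * k))),
      (∀ i, Multiset.card (A i) = m) ∧
      (∀ i, ∀ S ∈ A i, S.card = k) ∧
      (∀ i x, (A i).countP (fun S => x ∈ S) = 1) ∧
      (∀ i j, i ≠ j → ∀ S ∈ A i, S ∉ A j) := by
  obtain ⟨A, hA⟩ := exists_inv m k hk hm (m * k) le_rfl
  have hcnt : ∀ S : Finset (Fin (m * k)), ∑ i, (A i).count S = if S.card = k then 1 else 0 := by
    intro S
    rw [hA.count S (fun x _ => x.2)]
    unfold cnt
    rw [Nat.sub_self]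
    rcases lt_trichotomy S.card k with h | h | h
    · rw [if_pos h.le, if_neg h.ne]
      obtain ⟨a, ha⟩ : ∃ a, k - S.card = a + 1 := ⟨k - S.card - 1, by omega⟩
      rw [ha, Nat.choose_zero_succ]
    · rw [if_pos h.le, if_pos h, h]; simp
    · rw [if_neg (by omega), if_neg h.ne']
  refine ⟨A, hA.card, ?_, fun i x => hA.cover i x x.2, ?_⟩
  · intro i S hS
    by_contra hne
    have := hcnt S
    rw [if_neg hne] at this
    exact (Multiset.count_pos.2 hS).ne' (sum_eq_zero_iff.1 this i (mem_univ i))
  · intro i j hij S hSi hSj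
    have h1 : ∑ i, (A i).count S ≤ 1 := by rw [hcnt S]; split <;> omega
    have h2 : (A i).count S + (A j).count S ≤ ∑ i, (A i).count S := by
      have h3 : ∑ a ∈ ({i, j} : Finset _), (A a).count S ≤ ∑ a, (A a).count S :=
        sum_le_sum_of_subset (subset_univ _)
      rwa [sum_pair hij] at h3
    have h4 := Multiset.count_pos.2 hSi
    have h5 := Multiset.count_pos.2 hSj
    omega

end Pool.Agent.H73.Baranyai
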