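import Mathlib

/-!
# Tools for `N`-legged trades: orthogonal array construction, counting bound
-/

set_option autoImplicit false

namespace Pool.Agent.H73.TradeTools

open Finset

/-- `T = (T 0, …, T (N-1))` is an `N`-legged `(t,k)` trade on the finite set `X`: each leg is a
nonempty finite multiset of `k`-subsets of `X`, two different legs have no block in common, and
every `t`-subset of `X` lies in the same number of blocks (with multiplicity) of each leg. -/
def IsTrade (N t k : ℕ) {X : Type} [DecidableEq X] (T : Fin N → Multiset (Finset X)) : Prop :=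
  (∀ i, T i ≠ 0) ∧
  (∀ i, ∀ B ∈ T i, B.card = k) ∧
  (∀ i j, i ≠ j → ∀ B ∈ T i, B ∉ T j) ∧
  (∀ i j, ∀ S : Finset X, S.card = t →
    (T i).countP (fun B => S ⊆ B) = (T j).countP (fun B => S ⊆ B))

section construction

variable {I G : Type} [Fintype I] [DecidableEq I] [Fintype G] [DecidableEq G] [AddCommGroup G]

/-- the block attached to `z` -/
def block (r : ℕ) (z : I → G) : Finset ((I × G) ⊕ Fin r) :=
  ((univ : Finset I).image (fun x => (x, z x))).disjSum univ

omit [Fintype G] [AddCommGroup G] in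
lemma inl_mem_block (r : ℕ) (z : I → G) (p : I × G) :
    (Sum.inl p : (I × G) ⊕ Fin r) ∈ block r z ↔ z p.1 = p.2 := by
  unfold block
  rw [inl_mem_disjSum, mem_image]
  constructor
  · rintro ⟨x, -, rfl⟩; rfl
  · intro hp
    exact ⟨p.1, mem_univ _, by rw [hp]⟩

omit [Fintype G] [AddCommGroup G] in
lemma inr_mem_block (r : ℕ) (z : I → G) (p : Fin r) :
    (Sum.inr p : (I × G) ⊕ Fin r) ∈ block r z := by
  unfold block
  rw [inr_mem_disjSum]
  exact mem_univ _

omit [Fintype G] [AddCommGroup G] in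
lemma card_block (r : ℕ) (z : I → G) : (block r z).card = Fintype.card I + r := by
  unfold block
  rw [card_disjSum, card_image_of_injective, card_univ, card_univ, Fintype.card_fin]
  intro x y hxy
  exact congrArg Prod.fst hxy

omit [Fintype G] [AddCommGroup G] in
lemma block_injective (r : ℕ) {z z' : I → G} (hz : block r z = block r z') : z = z' := by
  funext x
  have h1 : (Sum.inl (x, z x) : (I × G) ⊕ Fin r) ∈ block r z := by
    rw [inl_mem_block]
  rw [hz, inl_mem_block] at h1
  exact h1.symm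

omit [Fintype G] [AddCommGroup G] in
lemma block_congr (r : ℕ) {z z' : I → G} (S : Finset ((I × G) ⊕ Fin r))
    (hS : ∀ p : I × G, Sum.inl p ∈ S → z p.1 = z' p.1) :
    S ⊆ block r z ↔ S ⊆ block r z' := by
  constructor
  · intro hs q hq
    rcases q with p | i
    · rw [inl_mem_block, ← hS p hq, ← inl_mem_block (r := r)]
      exact hs hq
    · exact inr_mem_block _ _ _
  · intro hs q hq
    rcases q with p | i
    · rw [inl_mem_block, hS p hq, ← inl_mem_block (r := r)]
      exact hs hq
    · exact inr_mem_block _ _ _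

lemma construct_aux {A : Type} [Fintype A] [AddCommGroup A] (c : A →+ (I → G))
    (t N r : ℕ)
    (hsolve : ∀ K : Finset I, K.card ≤ t → ∀ u : I → G, ∃ a, ∀ x ∈ K, c a x = u x)
    (y : Fin N → I → G) (hsep : ∀ i j a a', y i + c a = y j + c a' → i = j) :
    ∃ T : Fin N → Multiset (Finset ((I × G) ⊕ Fin r)), IsTrade N t (Fintype.card I + r) T ∧
      ∀ i, Multiset.card (T i) = Fintype.card A := by
  classical
  refine ⟨fun i => (univ : Finset A).val.map (fun a => block r (y i + c a)), ⟨?_, ?_, ?_, ?_⟩, ?_⟩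
  · intro i h0
    have h1 := congrArg Multiset.card h0
    simp at h1
  · intro i B hB
    obtain ⟨a, -, rfl⟩ := Multiset.mem_map.1 hB
    exact card_block _ _
  · intro i j hij B hB hB'
    obtain ⟨a, -, rfl⟩ := Multiset.mem_map.1 hB
    obtain ⟨a', -, he⟩ := Multiset.mem_map.1 hB'
    exact hij (hsep i j a a' (block_injective r he).symm)
  · intro i j S hS
    obtain ⟨a₀, ha₀⟩ := hsolve (S.toLeft.image Prod.fst)
      (card_image_le.trans ((card_toLeft_le).trans hS.le)) (fun x => y j x - y i x)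
    have key : ∀ i, ((univ : Finset A).val.map (fun a => block r (y i + c a))).countP
        (fun B => S ⊆ B) = ((univ : Finset A).filter (fun a => S ⊆ block r (y i + c a))).card := by
      intro i
      rw [Multiset.countP_map]
      rfl
    rw [key, key]
    symm
    apply card_bijective (fun a => a + a₀) (Equiv.addRight a₀).bijective
    intro a
    rw [mem_filter, mem_filter]
    simp only [mem_univ, true_and]
    apply block_congr
    intro p hp
    have hpK : p.1 ∈ S.toLeft.image Prod.fst :=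
      mem_image_of_mem _ (mem_toLeft.2 hp)
    have := ha₀ p.1 hpK
    simp only [Pi.add_apply, map_add, this]
    abel
  · intro i
    simp

omit [DecidableEq I] [DecidableEq G] in
lemma reps {A : Type} [Fintype A] [AddCommGroup A] (c : A →+ (I → G)) (N : ℕ)
    (hN : N * Fintype.card A ≤ Fintype.card G ^ Fintype.card I) :
    ∃ y : Fin N → I → G, ∀ i j a a', y i + c a = y j + c a' → i = j := by
  classical
  set H := c.range with hH
  have h1 : Nat.card (I → G) = Nat.card ((I → G) ⧸ H) * Nat.card H :=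
    AddSubgroup.card_eq_card_quotient_mul_card_addSubgroup H
  have h2 : Nat.card H ≤ Nat.card A :=
    Nat.card_le_card_of_surjective c.rangeRestrict c.rangeRestrict_surjective
  have h3 : Nat.card (I → G) = Fintype.card G ^ Fintype.card I := by
    rw [Nat.card_eq_fintype_card, Fintype.card_fun]
  rw [Nat.card_eq_fintype_card (α := A)] at h2
  have hApos : 0 < Fintype.card A := Fintype.card_pos
  have h4 : N ≤ Nat.card ((I → G) ⧸ H) := by
    by_contra hcon
    push Not at hcon
    have : Nat.card ((I → G) ⧸ H) * Nat.card H < N * Fintype.card A := by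
      calc Nat.card ((I → G) ⧸ H) * Nat.card H
          ≤ Nat.card ((I → G) ⧸ H) * Fintype.card A := Nat.mul_le_mul_left _ h2
        _ < N * Fintype.card A := Nat.mul_lt_mul_of_pos_right hcon hApos
    omega
  let eQ := Finite.equivFin ((I → G) ⧸ H)
  let q : Fin N → ((I → G) ⧸ H) := fun i => eQ.symm (Fin.castLE h4 i)
  have hq : Function.Injective q := by
    intro i j hij
    exact Fin.castLE_injective h4 (eQ.symm.injective hij)
  refine ⟨fun i => (q i).out, ?_⟩
  intro i j a a' h
  apply hq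
  rw [← QuotientAddGroup.out_eq' (q i), ← QuotientAddGroup.out_eq' (q j), QuotientAddGroup.eq]
  refine ⟨a - a', ?_⟩
  rw [map_sub]
  have h' : (q i).out + c a = (q j).out + c a' := h
  have : (q j).out = (q i).out + c a - c a' := by rw [h']; abel
  rw [this]
  abel

end construction

/-- points of the constructed trade: `n` parts of size `2 ^ a` and `r` further points -/
abbrev Pt (n a r : ℕ) : Type := (Fin n × (Fin a → ZMod 2)) ⊕ Fin r

/-- cosets of subfield-projected Reed-Solomon codes: strength `s + 1`, `n ≤ 2 ^ b` columns,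
`2 ^ a` levels, `2 ^ (a + b * s)` rows -/
lemma upper_gen (s a b n k N : ℕ) (hb : 1 ≤ b) (hab : a ≤ b) (hn : n ≤ 2 ^ b) (hk : n ≤ k)
    (hN : N * 2 ^ (a + b * s) ≤ 2 ^ (a * n)) :
    ∃ T : Fin N → Multiset (Finset (Pt n a (k - n))), IsTrade N (s + 1) k T ∧
      ∀ i, Multiset.card (T i) = 2 ^ (a + b * s) := by
  classical
  have : Fact (Nat.Prime 2) := ⟨Nat.prime_two⟩
  let K := GaloisField 2 b
  let _ : Fintype K := Fintype.ofFinite _
  have hK : Fintype.card K = 2 ^ b := by
    rw [← Nat.card_eq_fintype_card]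
    exact GaloisField.card 2 b (by omega)
  let G := Fin a → ZMod 2
  have hG : Fintype.card G = 2 ^ a := by
    rw [Fintype.card_fun, Fintype.card_fin, ZMod.card]
  -- a surjective homomorphism
  have hfr : Module.finrank (ZMod 2) K = Module.finrank (ZMod 2) (Fin b → ZMod 2) := by
    rw [GaloisField.finrank 2 (by omega), Module.finrank_fintype_fun_eq_card, Fintype.card_fin]
  let e : K ≃ₗ[ZMod 2] (Fin b → ZMod 2) := LinearEquiv.ofFinrankEq _ _ hfr
  let π : K →ₗ[ZMod 2] G := (LinearMap.funLeft (ZMod 2) (ZMod 2) (Fin.castLE hab)) ∘ₗ e.toLinearMap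
  have hπ : Function.Surjective π :=
    (LinearMap.funLeft_surjective_of_injective (ZMod 2) (ZMod 2) _
      (Fin.castLE_injective hab)).comp e.surjective
  -- the columns
  let col : Fin n → K := fun i => (Fintype.equivFin K).symm (Fin.castLE (by rw [hK]; exact hn) i)
  have hcol : Function.Injective col := by
    intro i j hij
    exact Fin.castLE_injective _ ((Fintype.equivFin K).symm.injective hij)
  let c : (G × (Fin s → K)) →+ (Fin n → G) :=
    { toFun := fun p x => p.1 + π (∑ j : Fin s, p.2 j * col x ^ ((j : ℕ) + 1))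
      map_zero' := by funext x; simp
      map_add' := by
        intro p q; funext x
        simp only [Prod.fst_add, Prod.snd_add, Pi.add_apply, add_mul, sum_add_distrib, map_add]
        abel }
  have hsolve : ∀ S : Finset (Fin n), S.card ≤ s + 1 → ∀ u : Fin n → G,
      ∃ p, ∀ x ∈ S, c p x = u x := by
    intro S hS u
    choose w hw using fun x => hπ (u x)
    set P : Polynomial K := Lagrange.interpolate S col w with hP
    have hdeg : P.natDegree < s + 1 := by
      by_cases hP0 : P = 0
      · rw [hP0]; simp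
      · rw [Polynomial.natDegree_lt_iff_degree_lt hP0]
        refine (Lagrange.degree_interpolate_lt w hcol.injOn).trans_le ?_
        exact_mod_cast hS
    refine ⟨(π (P.coeff 0), fun j => P.coeff ((j : ℕ) + 1)), fun x hx => ?_⟩
    change π (P.coeff 0) + π (∑ j : Fin s, P.coeff ((j : ℕ) + 1) * col x ^ ((j : ℕ) + 1)) = u x
    rw [← map_add, ← hw x]
    congr 1
    rw [← Lagrange.eval_interpolate_at_node w hcol.injOn hx, ← hP,
      Polynomial.eval_eq_sum_range' hdeg, Finset.sum_range_succ',
      ← Fin.sum_univ_eq_sum_range (fun j => P.coeff (j + 1) * col x ^ (j + 1)) s]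
    simp only [pow_zero, mul_one]
    abel
  have hA : Fintype.card (G × (Fin s → K)) = 2 ^ (a + b * s) := by
    rw [Fintype.card_prod, hG, Fintype.card_fun, hK, Fintype.card_fin, pow_add, pow_mul]
  obtain ⟨y, hy⟩ := reps c N (by
    rw [hA, hG, Fintype.card_fin, ← pow_mul]; exact hN)
  obtain ⟨T, hT, hcard⟩ := construct_aux c (s + 1) N (k - n) hsolve y hy
  rw [Fintype.card_fin, Nat.add_sub_cancel' hk] at hT
  exact ⟨T, hT, fun i => (hcard i).trans hA⟩

/-- strength zero -/
lemma upper_zero (a k N : ℕ) (hN : N ≤ 2 ^ (a * k)) :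
    ∃ T : Fin N → Multiset (Finset (Pt k a 0)), IsTrade N 0 k T ∧
      ∀ i, Multiset.card (T i) = 1 := by
  classical
  have hG : Fintype.card (Fin a → ZMod 2) = 2 ^ a := by
    rw [Fintype.card_fun, Fintype.card_fin, ZMod.card]
  obtain ⟨y, hy⟩ := reps (I := Fin k) (G := Fin a → ZMod 2) (A := Unit) 0 N (by
    rw [hG, Fintype.card_fin, ← pow_mul]; simpa using hN)
  obtain ⟨T, hT, hc⟩ := construct_aux (I := Fin k) (G := Fin a → ZMod 2) (A := Unit) 0 0 N 0
    (fun K hK u => ⟨(), fun x hx => by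
      rw [Nat.le_zero, card_eq_zero] at hK
      subst hK
      simp at hx⟩) y hy
  rw [Fintype.card_fin, add_zero] at hT
  exact ⟨T, hT, fun i => by rw [hc i]; simp⟩

section numeric

lemma pow_self_le (j : ℕ) : (j : ℝ) ^ j ≤ 3 ^ j * j.factorial := by
  have h1 : (j : ℝ) ^ j / j.factorial ≤ Real.exp j := Real.pow_div_factorial_le_exp j (by positivity) j
  have h2 : Real.exp j ≤ 3 ^ j := by
    rw [show (j : ℝ) = j * 1 by ring, Real.exp_nat_mul]
    exact pow_le_pow_left₀ (Real.exp_pos 1).le Real.exp_one_lt_three.le j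
  have h3 : (0 : ℝ) < j.factorial := by exact_mod_cast j.factorial_pos
  rw [div_le_iff₀ h3] at h1
  exact h1.trans (mul_le_mul_of_nonneg_right h2 h3.le)

lemma choose_bound (n j : ℕ) : j ^ j * n.choose j ≤ (3 * n) ^ j := by
  have h1 : j ^ j ≤ 3 ^ j * j.factorial := by exact_mod_cast pow_self_le j
  have h2 : j.factorial * n.choose j ≤ n ^ j := by
    rw [← Nat.descFactorial_eq_factorial_mul_choose]
    exact Nat.descFactorial_le_pow n j
  calc j ^ j * n.choose j ≤ (3 ^ j * j.factorial) * n.choose j := Nat.mul_le_mul_right _ h1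
    _ = 3 ^ j * (j.factorial * n.choose j) := by ring
    _ ≤ 3 ^ j * n ^ j := Nat.mul_le_mul_left _ h2
    _ = (3 * n) ^ j := by rw [mul_pow]

lemma root_le {x c y : ℝ} {n : ℕ} (hc : 0 ≤ c) (hy : 0 ≤ y) (hn : n ≠ 0)
    (h : x ^ n ≤ c ^ n * y) (hx : 0 ≤ x) : x ≤ c * y ^ (1 / (n : ℝ)) := by
  rw [← pow_le_pow_iff_left₀ hx (by positivity) hn, mul_pow, one_div,
    Real.rpow_inv_natCast_pow hy hn]
  exact h

lemma root_ge {x c y : ℝ} {n : ℕ} (hc : 0 ≤ c) (hy : 0 ≤ y) (hn : n ≠ 0)
    (h : y * c ^ n ≤ x ^ n) (hx : 0 ≤ x) : c * y ^ (1 / (n : ℝ)) ≤ x := by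
  rw [← pow_le_pow_iff_left₀ (by positivity) hx hn, mul_pow, one_div,
    Real.rpow_inv_natCast_pow hy hn, mul_comm]
  exact h

/-- Choice of the number of levels: there is `a ≥ 1` such that the construction with `k` columns
and `2 ^ a` levels gives `N` legs, and `2 ^ a` is at most a constant times `N ^ (1 / (k - t))`. -/
lemma choose_levels (s k N : ℕ) (hk : s + 1 < k) (hN : 1 ≤ N) :
    ∃ a b, 1 ≤ b ∧ a ≤ b ∧ k ≤ 2 ^ b ∧ N * 2 ^ (a + b * s) ≤ 2 ^ (a * k) ∧
      (2 ^ a) ^ (k - (s + 1)) ≤ (2 * (4 * (s + 2)) ^ s) ^ (k - (s + 1)) * N ∧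
      2 ^ b ≤ max (2 ^ a) (2 * k) := by
  obtain ⟨j, hj⟩ : ∃ j, k = s + 1 + j := ⟨k - (s + 1), by omega⟩
  have hj1 : 1 ≤ j := by omega
  have hkj : k - (s + 1) = j := by omega
  rw [hkj]
  set b₀ := Nat.clog 2 k with hb₀
  have hb1 : k ≤ 2 ^ b₀ := Nat.le_pow_clog (by norm_num) k
  have hb0pos : 0 < b₀ := Nat.clog_pos (by norm_num) (by omega)
  have hb2 : 2 ^ b₀ < 2 * k := by
    have := Nat.pow_pred_clog_lt_self (b := 2) (by norm_num) (x := k) (by omega)
    obtain ⟨c, hc⟩ : ∃ c, b₀ = c + 1 := ⟨b₀ - 1, by omega⟩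
    rw [← hb₀, hc] at this
    rw [hc, pow_succ]
    simp only [Nat.pred_eq_sub_one, Nat.add_sub_cancel] at this
    omega
  have hex : ∃ a, N * 2 ^ (a + 1 + (max (a + 1) b₀) * s) ≤ 2 ^ ((a + 1) * k) := by
    refine ⟨N + b₀, ?_⟩
    rw [max_eq_left (by omega)]
    have h1 : N ≤ 2 ^ N := Nat.lt_two_pow_self.le
    calc N * 2 ^ (N + b₀ + 1 + (N + b₀ + 1) * s)
        ≤ 2 ^ N * 2 ^ (N + b₀ + 1 + (N + b₀ + 1) * s) := Nat.mul_le_mul_right _ h1
      _ = 2 ^ (N + (N + b₀ + 1 + (N + b₀ + 1) * s)) := by rw [← pow_add]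
      _ ≤ 2 ^ ((N + b₀ + 1) * k) := by
          apply Nat.pow_le_pow_right (by norm_num)
          rw [hj]
          nlinarith [Nat.mul_le_mul_left (N + b₀ + 1) hj1]
  classical
  set a := Nat.find hex with ha
  have hspec := Nat.find_spec hex
  rw [← ha] at hspec
  refine ⟨a + 1, max (a + 1) b₀, by omega, le_max_left _ _,
    hb1.trans (Nat.pow_le_pow_right (by norm_num) (le_max_right _ _)), hspec, ?_, ?_⟩
  swap
  · rcases le_total (a + 1) b₀ with h | h
    · rw [max_eq_right h]
      exact hb2.le.trans (le_max_right _ _)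
    · rw [max_eq_left h]
      exact le_max_left _ _
  have hC : 1 ≤ (4 * (s + 2)) ^ s := Nat.one_le_pow _ _ (by omega)
  rcases Nat.eq_zero_or_pos a with ha0 | hapos
  · rw [ha0]
    calc (2 ^ (0 + 1)) ^ j ≤ (2 * (4 * (s + 2)) ^ s) ^ j := by
          apply Nat.pow_le_pow_left
          omega
      _ ≤ _ := Nat.le_mul_of_pos_right _ hN
  · obtain ⟨a', ha'⟩ : ∃ a', a = a' + 1 := ⟨a - 1, by omega⟩
    have hmin := Nat.find_min hex (m := a') (by omega)
    push Not at hmin
    rw [ha']
    set q := 2 ^ (a' + 1) with hq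
    have hqpos : 0 < q := by positivity
    have hgoal : q ^ j ≤ ((4 * (s + 2)) ^ s) ^ j * N → (2 ^ (a' + 1 + 1)) ^ j
        ≤ (2 * (4 * (s + 2)) ^ s) ^ j * N := by
      intro h
      calc (2 ^ (a' + 1 + 1)) ^ j = 2 ^ j * q ^ j := by
            rw [← mul_pow, hq, ← pow_succ']
        _ ≤ 2 ^ j * (((4 * (s + 2)) ^ s) ^ j * N) := Nat.mul_le_mul_left _ h
        _ = _ := by rw [mul_pow 2, mul_assoc]
    apply hgoal
    rcases Nat.lt_or_ge (a' + 1) b₀ with h | h
    · -- few levels
      rw [max_eq_right h.le] at hmin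
      have h1 : q ^ k < N * (q * (2 ^ b₀) ^ s) := by
        rw [hq, ← pow_mul, ← pow_mul, ← pow_add]; exact hmin
      have h2 : (2 ^ b₀) ≤ (4 * (s + 2)) ^ j := by
        have h3 : ∀ j, 1 ≤ j → 2 * (s + 1 + j) ≤ (4 * (s + 2)) ^ j := by
          intro j hj
          induction j, hj using Nat.le_induction with
          | base => rw [pow_one]; omega
          | succ j hj ih =>
            rw [pow_succ]
            nlinarith
        have h4 := h3 j hj1
        rw [hj] at hb2
        exact hb2.le.trans h4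
      have h5 : q ^ (k - 1) * q < N * (2 ^ b₀) ^ s * q := by
        calc q ^ (k - 1) * q = q ^ k := by rw [← pow_succ]; congr 1; omega
          _ < N * (q * (2 ^ b₀) ^ s) := h1
          _ = N * (2 ^ b₀) ^ s * q := by ring
      have h6 : q ^ (k - 1) < N * (2 ^ b₀) ^ s := lt_of_mul_lt_mul_right h5 (Nat.zero_le _)
      calc q ^ j ≤ q ^ (k - 1) := Nat.pow_le_pow_right hqpos (by omega)
        _ ≤ N * (2 ^ b₀) ^ s := h6.le
        _ ≤ N * ((4 * (s + 2)) ^ j) ^ s := Nat.mul_le_mul_left _ (Nat.pow_le_pow_left h2 s)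
        _ = ((4 * (s + 2)) ^ s) ^ j * N := by
            rw [← pow_mul, ← pow_mul, mul_comm j s, mul_comm]
    · -- many levels
      rw [max_eq_left h] at hmin
      have h1 : q ^ k < N * q ^ (s + 1) := by
        rw [hq, ← pow_mul, ← pow_mul]
        rw [show (a' + 1) * (s + 1) = a' + 1 + (a' + 1) * s by ring]; exact hmin
      have h2 : q ^ j < N := by
        rw [hj, pow_add, mul_comm] at h1
        exact lt_of_mul_lt_mul_right h1 (Nat.zero_le _)
      calc q ^ j ≤ 1 * N := by omega
        _ ≤ _ := Nat.mul_le_mul_right _ (Nat.one_le_pow _ _ (by omega))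

end numeric

end Pool.Agent.H73.TradeTools
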