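import Mathlib
import Pool.Agent.H73.TradeTools

/-!
# `N`-legged trades from permuted copies of one design
-/

set_option autoImplicit false

namespace Pool.Agent.H73.DesignTrade

open Finset

variable {α : Type} [Fintype α] [DecidableEq α]

lemma exists_perm_map (C C' : Finset α) (h : C.card = C'.card) :
    ∃ τ : Equiv.Perm α, C.map τ.toEmbedding = C' := by
  let e := Finset.equivOfCardEq h
  refine ⟨e.extendSubtype, ?_⟩
  apply eq_of_subset_of_card_le
  · intro y hy
    obtain ⟨x, hx, rfl⟩ := mem_map.1 hy
    exact Equiv.extendSubtype_mem e x hx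
  · rw [card_map, h]

/-- the permutations which map `B` to `C` -/
def A (B C : Finset α) : Finset (Equiv.Perm α) :=
  univ.filter (fun σ => B.map σ.toEmbedding = C)

lemma card_A_eq (B C C' : Finset α) (h : C.card = C'.card) : (A B C).card = (A B C').card := by
  obtain ⟨τ, hτ⟩ := exists_perm_map C C' h
  apply card_bijective (fun σ => σ.trans τ) ?_ ?_
  · constructor
    · intro σ σ' h
      have h1 : σ.trans τ = σ'.trans τ := h
      have h2 := congrArg (fun ρ => ρ.trans τ.symm) h1
      simpa [Equiv.trans_assoc] using h2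
    · intro σ
      exact ⟨σ.trans τ.symm, by simp [Equiv.trans_assoc]⟩
  · intro σ
    unfold A
    rw [mem_filter, mem_filter]
    simp only [mem_univ, true_and]
    have h1 : B.map (σ.trans τ).toEmbedding = (B.map σ.toEmbedding).map τ.toEmbedding := by
      rw [map_map]; rfl
    rw [h1, ← hτ]
    exact (map_inj).symm

lemma card_A (B C : Finset α) (h : B.card = C.card) :
    (A B C).card * (Fintype.card α).choose B.card = (Fintype.card α).factorial := by
  have h1 : (univ : Finset (Equiv.Perm α)).card
      = ∑ C' ∈ powersetCard B.card (univ : Finset α), (A B C').card := by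
    apply card_eq_sum_card_fiberwise
    intro σ _
    simp
  rw [card_univ, Fintype.card_perm] at h1
  rw [h1, sum_congr rfl (fun C' hC' => card_A_eq B C' C
    (by rw [(mem_powersetCard.1 hC').2, h])), sum_const, card_powersetCard, card_univ,
    smul_eq_mul, mul_comm]

/-- greedy choice of permutations -/
lemma perms (𝔅 : Finset (Finset α)) (w : ℕ) (hw : ∀ B ∈ 𝔅, B.card = w) (hne : 𝔅.Nonempty) (N : ℕ)
    (hN : N * (𝔅.card * 𝔅.card) ≤ (Fintype.card α).choose w) :
    ∃ π : Fin N → Equiv.Perm α, ∀ i j, ∀ B ∈ 𝔅, ∀ B' ∈ 𝔅,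
      B.map (π i).toEmbedding = B'.map (π j).toEmbedding → i = j := by
  induction N with
  | zero => exact ⟨Fin.elim0, fun i => i.elim0⟩
  | succ N ih =>
    have hpos : 0 < 𝔅.card * 𝔅.card := Nat.mul_pos (card_pos.2 hne) (card_pos.2 hne)
    obtain ⟨π, hπ⟩ := ih (by nlinarith)
    set F : Finset (Equiv.Perm α) := (univ : Finset (Fin N)).biUnion (fun j =>
      (𝔅 ×ˢ 𝔅).biUnion (fun p => A p.1 (p.2.map (π j).toEmbedding))) with hF
    obtain ⟨B₀, hB₀⟩ := hne
    set s := (A B₀ B₀).card with hs
    have hs1 : s * (Fintype.card α).choose w = (Fintype.card α).factorial := by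
      have := card_A B₀ B₀ rfl
      rwa [hw B₀ hB₀] at this
    have hchoose : 0 < (Fintype.card α).choose w := by nlinarith
    have hs0 : 0 < s := by
      rcases Nat.eq_zero_or_pos s with h | h
      · rw [h, zero_mul] at hs1
        exact absurd hs1.symm (Nat.factorial_ne_zero _)
      · exact h
    have hA : ∀ B ∈ 𝔅, ∀ B' ∈ 𝔅, ∀ j, (A B (B'.map (π j).toEmbedding)).card = s := by
      intro B hB B' hB' j
      have h1 := card_A B (B'.map (π j).toEmbedding) (by rw [card_map, hw B hB, hw B' hB'])
      rw [hw B hB, ← hs1] at h1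
      exact Nat.eq_of_mul_eq_mul_right hchoose h1
    have hFcard : F.card < Fintype.card (Equiv.Perm α) := by
      calc F.card ≤ ∑ j : Fin N, ((𝔅 ×ˢ 𝔅).biUnion
              (fun p => A p.1 (p.2.map (π j).toEmbedding))).card := card_biUnion_le
        _ ≤ ∑ _j : Fin N, (𝔅.card * 𝔅.card) * s := by
            apply sum_le_sum
            intro j _
            refine card_biUnion_le.trans ?_
            rw [← card_product, ← smul_eq_mul, ← sum_const]
            apply sum_le_sum
            intro p hp
            exact (hA p.1 (mem_product.1 hp).1 p.2 (mem_product.1 hp).2 j).le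
        _ = N * ((𝔅.card * 𝔅.card) * s) := by simp
        _ < (N + 1) * (𝔅.card * 𝔅.card) * s := by
            have : 0 < (𝔅.card * 𝔅.card) * s := Nat.mul_pos hpos hs0
            nlinarith
        _ ≤ (Fintype.card α).choose w * s := Nat.mul_le_mul_right _ hN
        _ = Fintype.card (Equiv.Perm α) := by rw [Fintype.card_perm, ← hs1, mul_comm]
    obtain ⟨σ, hσ⟩ : ∃ σ, σ ∉ F := by
      by_contra hcon
      push Not at hcon
      have : F = univ := eq_univ_of_forall hcon
      rw [this, card_univ] at hFcard
      omega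
    have hσ' : ∀ j, ∀ B ∈ 𝔅, ∀ B' ∈ 𝔅, B.map σ.toEmbedding ≠ B'.map (π j).toEmbedding := by
      intro j B hB B' hB' h
      apply hσ
      rw [hF, mem_biUnion]
      refine ⟨j, mem_univ _, ?_⟩
      rw [mem_biUnion]
      refine ⟨(B, B'), mem_product.2 ⟨hB, hB'⟩, ?_⟩
      unfold A
      rw [mem_filter]
      exact ⟨mem_univ _, h⟩
    refine ⟨Fin.snoc π σ, ?_⟩
    intro i j B hB B' hB' h
    induction i using Fin.lastCases with
    | last =>
      induction j using Fin.lastCases with
      | last => rfl
      | cast j =>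
        simp only [Fin.snoc_last, Fin.snoc_castSucc] at h
        exact absurd h (hσ' j B hB B' hB')
    | cast i =>
      induction j using Fin.lastCases with
      | last =>
        simp only [Fin.snoc_last, Fin.snoc_castSucc] at h
        exact absurd h.symm (hσ' i B' hB' B hB)
      | cast j =>
        simp only [Fin.snoc_castSucc] at h
        rw [hπ i j B hB B' hB' h]

/-- trades from permuted copies of one design -/
lemma design_trade {R : Type} [Fintype R] [Nonempty R] (blk : R → Finset α) (t w : ℕ)
    (hw : ∀ p, (blk p).card = w)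
    (hdes : ∀ S S' : Finset α, S.card = t → S'.card = t →
      (univ.filter (fun p => S ⊆ blk p)).card = (univ.filter (fun p => S' ⊆ blk p)).card)
    (N : ℕ) (hN : N * (Fintype.card R * Fintype.card R) ≤ (Fintype.card α).choose w) :
    ∃ T : Fin N → Multiset (Finset α), TradeTools.IsTrade N t w T ∧
      ∀ i, Multiset.card (T i) = Fintype.card R := by
  set 𝔅 : Finset (Finset α) := univ.image blk with h𝔅
  have hcard𝔅 : 𝔅.card ≤ Fintype.card R := card_image_le
  obtain ⟨π, hπ⟩ := perms 𝔅 w (by
    intro B hB
    obtain ⟨p, -, rfl⟩ := mem_image.1 hB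
    exact hw p) (univ_nonempty.image blk) N
    ((Nat.mul_le_mul_left _ (Nat.mul_le_mul hcard𝔅 hcard𝔅)).trans hN)
  refine ⟨fun i => (univ : Finset R).val.map (fun p => (blk p).map (π i).toEmbedding),
    ⟨?_, ?_, ?_, ?_⟩, ?_⟩
  · intro i h0
    have h1 := congrArg Multiset.card h0
    simp at h1
  · intro i B hB
    obtain ⟨p, -, rfl⟩ := Multiset.mem_map.1 hB
    rw [card_map, hw p]
  · intro i j hij B hB hB'
    obtain ⟨p, -, rfl⟩ := Multiset.mem_map.1 hB
    obtain ⟨p', -, he⟩ := Multiset.mem_map.1 hB'
    exact hij (hπ i j (blk p) (mem_image_of_mem _ (mem_univ _)) (blk p')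
      (mem_image_of_mem _ (mem_univ _)) he.symm)
  · intro i j S hS
    have key : ∀ i, ((univ : Finset R).val.map (fun p => (blk p).map (π i).toEmbedding)).countP
        (fun B => S ⊆ B)
        = ((univ : Finset R).filter (fun p => S.map (π i).symm.toEmbedding ⊆ blk p)).card := by
      intro i
      rw [Multiset.countP_map]
      change ((univ : Finset R).filter (fun p => S ⊆ (blk p).map (π i).toEmbedding)).card = _
      congr 1
      apply filter_congr
      intro p _
      constructor
      · intro h x hx
        obtain ⟨y, hy, rfl⟩ := mem_map.1 hx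
        obtain ⟨z, hz, hzy⟩ := mem_map.1 (h hy)
        have : (π i) z = y := hzy
        rw [← this]
        simpa using hz
      · intro h y hy
        have h1 := h (mem_map_of_mem (π i).symm.toEmbedding hy)
        refine mem_map.2 ⟨(π i).symm y, h1, ?_⟩
        simp
    rw [key, key]
    exact hdes _ _ (by rw [card_map, hS]) (by rw [card_map, hS])
  · intro i
    simp

end Pool.Agent.H73.DesignTrade
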