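import Mathlib
import Pool.Agent.H73.TradeTools
import Pool.Agent.H73.DesignTrade

/-!
# Hadamard matrices of orders `2 ^ i * 12 ^ j`, their 3-designs, and trades from them
-/

set_option autoImplicit false

namespace Pool.Agent.H73.Hadamard

open Finset

/-- the sign character of `ZMod 2` -/
def chi (z : ZMod 2) : ℤ := if z = 0 then 1 else -1

lemma chi_add : ∀ a b : ZMod 2, chi (a + b) = chi a * chi b := by decide

lemma chi_sq : ∀ a : ZMod 2, chi a * chi a = 1 := by decide

lemma one_add_chi : ∀ a b : ZMod 2, 1 + chi (a + b) = if a = b then 2 else 0 := by decide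

/-- Hadamard matrices, written additively -/
def HadOrder (n : ℕ) : Prop :=
  ∃ h : Fin n → Fin n → ZMod 2, (∀ c c', c ≠ c' → ∑ r, chi (h r c + h r c') = 0) ∧
    (∀ r r', r ≠ r' → ∑ c, chi (h r c + h r' c) = 0)

lemma had_one : HadOrder 1 := ⟨fun _ _ => 0, by decide, by decide⟩

lemma had_two : HadOrder 2 := ⟨fun r c => (r : ℕ) * (c : ℕ), by decide, by decide⟩

/-- the rows of a Hadamard matrix of order 12 (Paley), as binary numbers -/
def row12 : Fin 12 → ℕ :=
  ![0, 2953, 1811, 3621, 3147, 2199, 303, 605, 1209, 2417, 739, 1477]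

def had12 (r c : Fin 12) : ZMod 2 := if (row12 r).testBit c then 1 else 0

set_option maxRecDepth 20000 in
lemma had_twelve : HadOrder 12 := ⟨had12, by decide, by decide⟩

lemma kron {m n : ℕ} (h₁ : Fin m → Fin m → ZMod 2) (h₂ : Fin n → Fin n → ZMod 2)
    (H₁ : ∀ c c', c ≠ c' → ∑ r, chi (h₁ r c + h₁ r c') = 0)
    (H₂ : ∀ c c', c ≠ c' → ∑ r, chi (h₂ r c + h₂ r c') = 0) (c c' : Fin (m * n))
    (hcc : c ≠ c') :
    ∑ r : Fin (m * n), chi (h₁ (finProdFinEquiv.symm r).1 (finProdFinEquiv.symm c).1
        + h₂ (finProdFinEquiv.symm r).2 (finProdFinEquiv.symm c).2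
      + (h₁ (finProdFinEquiv.symm r).1 (finProdFinEquiv.symm c').1
        + h₂ (finProdFinEquiv.symm r).2 (finProdFinEquiv.symm c').2)) = 0 := by
  set p := finProdFinEquiv.symm c with hp
  set p' := finProdFinEquiv.symm c' with hp'
  have hpp : p ≠ p' := by
    intro h
    exact hcc (finProdFinEquiv.symm.injective h)
  have key : ∑ r, chi (h₁ (finProdFinEquiv.symm r).1 p.1 + h₂ (finProdFinEquiv.symm r).2 p.2
      + (h₁ (finProdFinEquiv.symm r).1 p'.1 + h₂ (finProdFinEquiv.symm r).2 p'.2))
      = ∑ r₁, ∑ r₂, chi (h₁ r₁ p.1 + h₁ r₁ p'.1) * chi (h₂ r₂ p.2 + h₂ r₂ p'.2) := by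
    rw [← Equiv.sum_comp finProdFinEquiv, Fintype.sum_prod_type]
    apply sum_congr rfl
    intro r₁ _
    apply sum_congr rfl
    intro r₂ _
    rw [Equiv.symm_apply_apply, ← chi_add]
    congr 1
    ring
  rw [key, ← Finset.sum_mul_sum]
  rcases eq_or_ne p.1 p'.1 with h | h
  · have h2 : p.2 ≠ p'.2 := fun h' => hpp (Prod.ext h h')
    rw [H₂ _ _ h2, mul_zero]
  · rw [H₁ _ _ h, zero_mul]

lemma had_mul {m n : ℕ} (hm : HadOrder m) (hn : HadOrder n) : HadOrder (m * n) := by
  obtain ⟨h₁, H₁, H₁'⟩ := hm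
  obtain ⟨h₂, H₂, H₂'⟩ := hn
  refine ⟨fun r c => h₁ (finProdFinEquiv.symm r).1 (finProdFinEquiv.symm c).1
    + h₂ (finProdFinEquiv.symm r).2 (finProdFinEquiv.symm c).2,
    fun c c' hcc => kron h₁ h₂ H₁ H₂ c c' hcc,
    fun r r' hrr => kron (fun a b => h₁ b a) (fun a b => h₂ b a) H₁' H₂' r r' hrr⟩

lemma had_dense (i j : ℕ) : HadOrder (2 ^ i * 12 ^ j) := by
  have h2 : ∀ i, HadOrder (2 ^ i) := by
    intro i
    induction i with
    | zero => exact had_one
    | succ i ih => rw [pow_succ]; exact had_mul ih had_two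
  have h12 : ∀ j, HadOrder (12 ^ j) := by
    intro j
    induction j with
    | zero => exact had_one
    | succ j ih => rw [pow_succ]; exact had_mul ih had_twelve
  exact had_mul (h2 i) (h12 j)

/-- strength 3: the number of rows with prescribed entries in at most three columns -/
lemma strength_three {n : ℕ} (h : Fin n → Fin n → ZMod 2)
    (H : ∀ c c', c ≠ c' → ∑ r, chi (h r c + h r c') = 0) (K : Finset (Fin n)) (hK : K.card ≤ 3)
    (u : Fin n → ZMod 2) :
    (2 : ℤ) ^ K.card * ((univ.filter (fun p : Fin n × ZMod 2 =>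
      ∀ x ∈ K, h p.1 x + p.2 = u x)).card : ℤ) = 2 * n := by
  have h1 : ∀ p : Fin n × ZMod 2, ∏ x ∈ K, (1 + chi (h p.1 x + p.2 + u x))
      = if ∀ x ∈ K, h p.1 x + p.2 = u x then (2 : ℤ) ^ K.card else 0 := by
    intro p
    split_ifs with hp
    · rw [← prod_const]
      apply prod_congr rfl
      intro x hx
      rw [one_add_chi, if_pos (hp x hx)]
    · push Not at hp
      obtain ⟨x, hx, hne⟩ := hp
      apply prod_eq_zero hx
      rw [one_add_chi, if_neg hne]
  have h2 : (2 : ℤ) ^ K.card * ((univ.filter (fun p : Fin n × ZMod 2 =>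
      ∀ x ∈ K, h p.1 x + p.2 = u x)).card : ℤ)
      = ∑ p : Fin n × ZMod 2, ∏ x ∈ K, (1 + chi (h p.1 x + p.2 + u x)) := by
    simp only [h1]
    rw [← sum_filter, sum_const, nsmul_eq_mul, mul_comm]
  rw [h2]
  simp only [prod_one_add]
  rw [sum_comm]
  -- only the empty set contributes
  rw [sum_eq_single ∅]
  · simp [ZMod.card]; ring
  · intro S hS hne
    have hSK : S ⊆ K := mem_powerset.1 hS
    have hScard : S.card ≤ 3 := (card_le_card hSK).trans hK
    have hSpos : 0 < S.card := card_pos.2 (nonempty_iff_ne_empty.2 hne)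
    have key : ∀ p : Fin n × ZMod 2, ∏ x ∈ S, chi (h p.1 x + p.2 + u x)
        = (chi p.2 ^ S.card) * ∏ x ∈ S, (chi (h p.1 x) * chi (u x)) := by
      intro p
      rw [← prod_const, ← prod_mul_distrib]
      apply prod_congr rfl
      intro x _
      rw [chi_add, chi_add]; ring
    simp only [key]
    rw [Fintype.sum_prod_type]
    have hz : ∑ e : ZMod 2, chi e = 0 := by decide
    interval_cases hc : S.card
    · simp only [pow_one]
      apply sum_eq_zero
      intro r _
      rw [← sum_mul, hz, zero_mul]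
    · obtain ⟨x, y, hxy, rfl⟩ := card_eq_two.1 hc
      have : ∀ (r : Fin n) (e : ZMod 2), chi e ^ 2 * ∏ z ∈ ({x, y} : Finset (Fin n)),
          (chi (h r z) * chi (u z)) = chi (h r x + h r y) * (chi (u x) * chi (u y)) := by
        intro r e
        rw [prod_pair hxy, sq, chi_sq, chi_add]; ring
      simp only [this]
      rw [sum_comm]
      apply sum_eq_zero
      intro e _
      rw [← sum_mul, H x y hxy, zero_mul]
    · have hc3 : ∀ e : ZMod 2, chi e ^ 3 = chi e := by decide
      simp only [hc3]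
      apply sum_eq_zero
      intro r _
      rw [← sum_mul, hz, zero_mul]
  · intro h
    exact absurd (empty_mem_powerset K) h

/-- the 3-design of a Hadamard matrix: `2 (n - 1)` blocks of size `n / 2` on `n` points -/
lemma had_design {n : ℕ} (hn : HadOrder n) (hn2 : 2 ≤ n) :
    ∃ (R : Type) (_ : Fintype R) (_ : Nonempty R) (blk : R → Finset (Fin n)),
      Fintype.card R = 2 * (n - 1) ∧ (∀ p, 2 * (blk p).card = n) ∧
      ∀ S S' : Finset (Fin n), S.card = 3 → S'.card = 3 →
        (univ.filter (fun p => S ⊆ blk p)).card = (univ.filter (fun p => S' ⊆ blk p)).card := by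
  classical
  obtain ⟨h, H, H'⟩ := hn
  have : NeZero n := ⟨by omega⟩
  let g : Fin n → Fin n → ZMod 2 := fun r c => h r c + h 0 c
  have hg0 : ∀ c, g 0 c = 0 := fun c => CharTwo.add_self_eq_zero _
  have hgcol : ∀ c c', c ≠ c' → ∑ r, chi (g r c + g r c') = 0 := by
    intro c c' hcc
    have : ∀ r, chi (g r c + g r c') = chi (h 0 c + h 0 c') * chi (h r c + h r c') := by
      intro r
      rw [← chi_add]; congr 1; simp only [g]; ring
    simp only [this]
    rw [← mul_sum, H c c' hcc, mul_zero]
  have hgrow : ∀ r, r ≠ 0 → ∑ c, chi (g r c) = 0 := fun r hr => H' r 0 hr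
  let blk : {r : Fin n // r ≠ 0} × ZMod 2 → Finset (Fin n) :=
    fun p => univ.filter (fun c => g p.1.1 c = p.2)
  have hR : Nonempty ({r : Fin n // r ≠ 0} × ZMod 2) := by
    refine ⟨(⟨⟨1, by omega⟩, ?_⟩, 0)⟩
    intro h
    have := congrArg Fin.val h
    simp at this
  refine ⟨{r : Fin n // r ≠ 0} × ZMod 2, inferInstance, hR, blk, ?_, ?_, ?_⟩
  · rw [Fintype.card_prod, ZMod.card, Fintype.card_subtype_compl, Fintype.card_subtype_eq,
      Fintype.card_fin, mul_comm]
  · intro p
    have h1 : ∑ c, (1 + chi (g p.1.1 c + p.2)) = (n : ℤ) := by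
      rw [sum_add_distrib]
      simp only [chi_add]
      rw [← sum_mul, hgrow p.1.1 p.1.2]
      simp
    have h2 : ∑ c, (1 + chi (g p.1.1 c + p.2)) = 2 * ((blk p).card : ℤ) := by
      simp only [one_add_chi]
      rw [← sum_filter, sum_const, nsmul_eq_mul, mul_comm]
    have h3 : (2 : ℤ) * ((blk p).card : ℤ) = n := h2.symm.trans h1
    exact_mod_cast h3
  · have key : ∀ S : Finset (Fin n), S.card = 3 →
        8 * ((univ.filter (fun p => S ⊆ blk p)).card + 1) = 2 * n := by
      intro S hS
      have h1 := strength_three g hgcol S hS.le (fun _ => 0)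
      rw [hS] at h1
      have h2 : (univ.filter (fun p : Fin n × ZMod 2 => ∀ x ∈ S, g p.1 x + p.2 = 0)).card
          = 1 + (univ.filter (fun p => S ⊆ blk p)).card := by
        rw [card_filter, card_filter, Fintype.sum_prod_type, Fintype.sum_prod_type,
          Fintype.sum_eq_add_sum_subtype_ne _ (0 : Fin n)]
        congr 1
        · obtain ⟨x, hx⟩ : S.Nonempty := card_pos.1 (by omega)
          have : ∀ e : ZMod 2, (if ∀ y ∈ S, g 0 y + e = 0 then 1 else 0)
              = if e = 0 then 1 else 0 := by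
            intro e
            by_cases he : e = 0
            · rw [if_pos he, if_pos]
              intro y _
              rw [hg0, he, add_zero]
            · rw [if_neg he, if_neg]
              intro hall
              have := hall x hx
              rw [hg0, zero_add] at this
              exact he this
          simp only [this]
          simp
        · apply sum_congr rfl
          intro r _
          apply sum_congr rfl
          intro e _
          have : (∀ y ∈ S, g r.1 y + e = 0) ↔ S ⊆ blk (r, e) := by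
            constructor
            · intro hall y hy
              refine mem_filter.2 ⟨mem_univ _, ?_⟩
              exact CharTwo.add_eq_zero.1 (hall y hy)
            · intro hsub y hy
              exact CharTwo.add_eq_zero.2 (mem_filter.1 (hsub hy)).2
          simp only [this]
      rw [h2] at h1
      push_cast at h1
      omega
    intro S S' hS hS'
    have h1 := key S hS
    have h2 := key S' hS'
    omega

/-- trades from Hadamard matrices: strength three, block size `n / 2`, volume `2 (n - 1)` -/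
lemma had_trade {n : ℕ} (hn : HadOrder n) (hn2 : 2 ≤ n) (N : ℕ)
    (hN : N * (4 * n ^ 3) ≤ 2 ^ n) :
    ∃ w, 2 * w = n ∧ ∃ T : Fin N → Multiset (Finset (Fin n)),
      TradeTools.IsTrade N 3 w T ∧ ∀ i, Multiset.card (T i) = 2 * (n - 1) := by
  obtain ⟨R, i1, i2, blk, hR, hblk, hdes⟩ := had_design hn hn2
  obtain ⟨p₀⟩ := i2
  set w := (blk p₀).card with hw
  have hwn : 2 * w = n := hblk p₀
  have hw1 : 1 ≤ w := by omega
  have hcb := Nat.four_pow_le_two_mul_self_mul_centralBinom w hw1
  have h4 : 4 ^ w = 2 ^ n := by rw [← hwn, pow_mul]; norm_num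
  have hcb2 : Nat.centralBinom w = n.choose w := by rw [Nat.centralBinom, hwn]
  rw [h4, hwn, hcb2] at hcb
  have hN' : N * (Fintype.card R * Fintype.card R) ≤ (Fintype.card (Fin n)).choose w := by
    rw [hR, Fintype.card_fin]
    have hn0 : 0 < n := by omega
    apply Nat.le_of_mul_le_mul_left _ hn0
    have h5 : 2 * (n - 1) ≤ 2 * n := by omega
    calc n * (N * (2 * (n - 1) * (2 * (n - 1)))) ≤ n * (N * (2 * n * (2 * n))) :=
          Nat.mul_le_mul_left _ (Nat.mul_le_mul_left _ (Nat.mul_le_mul h5 h5))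
      _ = N * (4 * n ^ 3) := by ring
      _ ≤ 2 ^ n := hN
      _ ≤ n * n.choose w := hcb
  have : Nonempty R := ⟨p₀⟩
  obtain ⟨T, hT, hc⟩ := DesignTrade.design_trade blk 3 w
    (fun p => by have := hblk p; omega) hdes N hN'
  exact ⟨w, hwn, T, hT, fun i => (hc i).trans hR⟩

end Pool.Agent.H73.Hadamard
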