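import Mathlib
import Pool.Agent.H73.Hadamard

/-!
# The orders `2 ^ i * 12 ^ j` of Hadamard matrices are dense on a multiplicative scale
-/

set_option autoImplicit false

namespace Pool.Agent.H73.Density

lemma logb_le_self (x : ℝ) (hx : 0 < x) : Real.logb 2 x ≤ x := by
  rw [Real.logb_le_iff_le_rpow (by norm_num) hx]
  rw [Real.rpow_def_of_pos (by norm_num)]
  have h2 := Real.add_one_le_exp (Real.log 2 * x - 1)
  have h3 : (0.6931471803 : ℝ) < Real.log 2 := Real.log_two_gt_d9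
  have h4 : Real.exp (Real.log 2 * x) = Real.exp (Real.log 2 * x - 1) * Real.exp 1 := by
    rw [← Real.exp_add]; congr 1; ring
  have h5 : 2 < Real.exp 1 := Real.exp_one_gt_two
  have h6 : 0 < Real.log 2 * x := by positivity
  rw [h4]
  have h7 : Real.log 2 * x ≤ Real.exp (Real.log 2 * x - 1) := by linarith
  calc x ≤ (Real.log 2 * x) * 2 := by nlinarith
    _ ≤ Real.exp (Real.log 2 * x - 1) * Real.exp 1 := by
        apply mul_le_mul h7 h5.le (by norm_num) (Real.exp_pos _).le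

lemma irrational_logs : Irrational (Real.log 2 / Real.log 12) := by
  rintro ⟨q, hq⟩
  have h2 : 0 < Real.log 2 := Real.log_pos (by norm_num)
  have h12 : 0 < Real.log 12 := Real.log_pos (by norm_num)
  have hqpos : 0 < (q : ℝ) := by rw [hq]; positivity
  have hq0 : 0 < q := by exact_mod_cast hqpos
  have hnum : 0 < q.num := Rat.num_pos.2 hq0
  obtain ⟨a, ha⟩ : ∃ a : ℕ, q.num = a := ⟨q.num.toNat, (Int.toNat_of_nonneg hnum.le).symm⟩
  have ha0 : 0 < a := by omega
  have hb0 : 0 < q.den := q.den_pos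
  have h1 : (q : ℝ) = a / q.den := by
    rw [Rat.cast_def, ha]; norm_num
  rw [h1, div_eq_div_iff (by positivity) (by positivity)] at hq
  have h3 : Real.log ((12 : ℝ) ^ a) = Real.log ((2 : ℝ) ^ q.den) := by
    rw [Real.log_pow, Real.log_pow]; linarith
  have h4 : (12 : ℝ) ^ a = (2 : ℝ) ^ q.den :=
    Real.log_injOn_pos (by simp) (by simp) h3
  have h5 : 12 ^ a = 2 ^ q.den := by exact_mod_cast h4
  have h6 : 3 ∣ 2 ^ q.den := by
    rw [← h5]
    exact dvd_pow (by norm_num) (by omega)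
  have h7 := Nat.prime_three.dvd_of_dvd_pow h6
  omega

lemma dense_log (δ : ℝ) (hδ : 0 < δ) : ∃ Y : ℝ, ∀ y ≥ Y, ∃ i j : ℕ,
    y ≤ i * Real.log 2 + j * Real.log 12 ∧ i * Real.log 2 + j * Real.log 12 ≤ y + δ := by
  set a := Real.log 2 with ha
  set b := Real.log 12 with hb
  have ha0 : 0 < a := Real.log_pos (by norm_num)
  have hb0 : 0 < b := Real.log_pos (by norm_num)
  have hdense : Dense (AddSubgroup.closure {a, b} : Set ℝ) :=
    dense_addSubgroupClosure_pair_iff.2 irrational_logs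
  obtain ⟨β, hβmem, hβ0, hβδ⟩ := hdense.exists_between hδ
  obtain ⟨m, n, hmn⟩ := AddSubgroup.mem_closure_pair.1 hβmem
  simp only [zsmul_eq_mul] at hmn
  set T := ⌈a / β⌉₊ with hT
  have hTβ : a ≤ T * β := by
    rw [← div_le_iff₀ hβ0]; exact Nat.le_ceil _
  set P := m.natAbs with hP
  set Q := n.natAbs with hQ
  set A : ℝ := T * P * a + T * Q * b with hA
  refine ⟨A, fun y hy => ?_⟩
  set i₀ := ⌊(y - A) / a⌋₊ with hi₀
  have h1 : (i₀ : ℝ) * a ≤ y - A := by
    rw [← le_div_iff₀ ha0]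
    exact Nat.floor_le (div_nonneg (by linarith) ha0.le)
  have h2 : y - A < (i₀ + 1) * a := by
    rw [← div_lt_iff₀ ha0]
    exact Nat.lt_floor_add_one _
  set z := y - A - i₀ * a with hz
  have hz0 : 0 ≤ z := by linarith
  have hza : z < a := by rw [hz]; linarith
  set μ := ⌈z / β⌉₊ with hμ
  have hμT : μ ≤ T := by
    apply Nat.ceil_le_ceil
    exact div_le_div_of_nonneg_right hza.le hβ0.le
  have h3 : z ≤ μ * β := by
    rw [← div_le_iff₀ hβ0]; exact Nat.le_ceil _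
  have h4 : μ * β < z + β := by
    have := Nat.ceil_lt_add_one (div_nonneg hz0 hβ0.le)
    rw [← hμ] at this
    calc (μ : ℝ) * β < (z / β + 1) * β := mul_lt_mul_of_pos_right this hβ0
      _ = z + β := by field_simp
  have hi : 0 ≤ (T * P : ℤ) + μ * m := by
    have h5 : -(P : ℤ) ≤ m := by omega
    have h6 : (μ : ℤ) ≤ T := by exact_mod_cast hμT
    have h7 : (0 : ℤ) ≤ P := by positivity
    have h8 : (0 : ℤ) ≤ μ := by positivity
    nlinarith
  have hj : 0 ≤ (T * Q : ℤ) + μ * n := by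
    have h5 : -(Q : ℤ) ≤ n := by omega
    have h6 : (μ : ℤ) ≤ T := by exact_mod_cast hμT
    have h7 : (0 : ℤ) ≤ Q := by positivity
    have h8 : (0 : ℤ) ≤ μ := by positivity
    nlinarith
  obtain ⟨i₁, hi₁⟩ := Int.eq_ofNat_of_zero_le hi
  obtain ⟨j₁, hj₁⟩ := Int.eq_ofNat_of_zero_le hj
  have hi₁' : (i₁ : ℝ) = T * P + μ * m := by
    have : ((i₁ : ℤ) : ℝ) = (((T * P : ℤ) + μ * m : ℤ) : ℝ) := by rw [hi₁]
    push_cast at this
    exact this
  have hj₁' : (j₁ : ℝ) = T * Q + μ * n := by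
    have : ((j₁ : ℤ) : ℝ) = (((T * Q : ℤ) + μ * n : ℤ) : ℝ) := by rw [hj₁]
    push_cast at this
    exact this
  have hsum : ((i₁ + i₀ : ℕ) : ℝ) * a + (j₁ : ℝ) * b = A + i₀ * a + μ * β := by
    push_cast
    rw [hi₁', hj₁', hA, ← hmn]; ring
  refine ⟨i₁ + i₀, j₁, ?_, ?_⟩
  · rw [hsum]; linarith
  · rw [hsum]; linarith

/-- Hadamard orders are dense on a multiplicative scale. -/
lemma had_near (δ : ℝ) (hδ : 0 < δ) : ∃ X : ℝ, 0 < X ∧ ∀ x ≥ X, ∃ n : ℕ,
    Hadamard.HadOrder n ∧ 0 < n ∧ x ≤ n ∧ (n : ℝ) ≤ (1 + δ) * x := by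
  obtain ⟨Y, hY⟩ := dense_log (Real.log (1 + δ)) (Real.log_pos (by linarith))
  refine ⟨Real.exp Y, Real.exp_pos Y, fun x hx => ?_⟩
  have hx0 : 0 < x := (Real.exp_pos Y).trans_le hx
  obtain ⟨i, j, h1, h2⟩ := hY (Real.log x) ((Real.le_log_iff_exp_le hx0).2 hx)
  have hlog : Real.log ((2 ^ i * 12 ^ j : ℕ) : ℝ) = i * Real.log 2 + j * Real.log 12 := by
    push_cast
    rw [Real.log_mul (by positivity) (by positivity), Real.log_pow, Real.log_pow]
  have hpos : 0 < 2 ^ i * 12 ^ j := by positivity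
  have hposR : (0 : ℝ) < ((2 ^ i * 12 ^ j : ℕ) : ℝ) := by exact_mod_cast hpos
  refine ⟨2 ^ i * 12 ^ j, Hadamard.had_dense i j, hpos, ?_, ?_⟩
  · rw [← Real.log_le_log_iff hx0 hposR, hlog]; exact h1
  · rw [← Real.log_le_log_iff hposR (by positivity), hlog,
      Real.log_mul (by positivity) (by positivity)]
    linarith

end Pool.Agent.H73.Density
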