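import Mathlib

/-!
# MP_832176_co, Q2: the minimum foundation of an `N`-legged trade when `k` is large

For all `N ≥ 2` and `t < k` with `(N - 1)(t + 1) ≤ k` the minimum foundation size of a `T[N](t,k,v)`
trade is exactly `k + t + 1`, whatever `N` is.  If `k + 1 < N` it is larger than `k + t + 1`.
-/

set_option autoImplicit false

namespace Pool.Agent.H73.FoundationLargeBlocks

open Finset

/-- `T = (T 0, …, T (N-1))` is an `N`-legged `(t,k)` trade on the finite set `X`: each leg is a
nonempty finite multiset of `k`-subsets of `X`, two different legs have no block in common, and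
every `t`-subset of `X` lies in the same number of blocks (with multiplicity) of each leg. -/
def IsTrade (N t k : ℕ) {X : Type} [DecidableEq X] (T : Fin N → Multiset (Finset X)) : Prop :=
  (∀ i, T i ≠ 0) ∧
  (∀ i, ∀ B ∈ T i, B.card = k) ∧
  (∀ i j, i ≠ j → ∀ B ∈ T i, B ∉ T j) ∧
  (∀ i j, ∀ S : Finset X, S.card = t →
    (T i).countP (fun B => S ⊆ B) = (T j).countP (fun B => S ⊆ B))

/-- The foundation of a trade: the points which lie in some block. -/
noncomputable def foundation {N : ℕ} {X : Type} [Fintype X] [DecidableEq X]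
    (T : Fin N → Multiset (Finset X)) : Finset X :=
  @Finset.filter X (fun x => ∃ i, ∃ B ∈ T i, x ∈ B) (Classical.decPred _) Finset.univ

/-- The foundation sizes of all `N`-legged `(t,k)` trades on all finite sets. -/
def FoundationSizes (N t k : ℕ) : Set ℕ :=
  {f | ∃ (X : Type) (_ : Fintype X) (_ : DecidableEq X) (T : Fin N → Multiset (Finset X)),
    IsTrade N t k T ∧ (foundation T).card = f}

section lower

variable {X : Type} [Fintype X] [DecidableEq X]

lemma sum_countP (k : ℕ) (S : Finset X) (M : Multiset (Finset X)) (hM : ∀ B ∈ M, B.card = k) :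
    ∑ x ∈ univ \ S, M.countP (fun B => insert x S ⊆ B)
      = M.countP (fun B => S ⊆ B) * (k - S.card) := by
  induction M using Multiset.induction with
  | empty => simp
  | cons B M ih =>
    have hB : B.card = k := hM B (Multiset.mem_cons_self B M)
    have ih' := ih (fun C hC => hM C (Multiset.mem_cons_of_mem hC))
    simp only [Multiset.countP_cons, sum_add_distrib, ih', add_mul]
    congr 1
    by_cases hS : S ⊆ B
    · rw [if_pos hS, one_mul]
      have : ∀ x ∈ univ \ S, (if insert x S ⊆ B then 1 else 0) = (if x ∈ B \ S then 1 else 0) := by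
        intro x hx
        have hx' : x ∉ S := (mem_sdiff.1 hx).2
        by_cases hxB : x ∈ B
        · rw [if_pos (insert_subset hxB hS), if_pos (mem_sdiff.2 ⟨hxB, hx'⟩)]
        · rw [if_neg (fun h => hxB (h (mem_insert_self x S))),
            if_neg (fun h => hxB (mem_sdiff.1 h).1)]
      rw [sum_congr rfl this, ← card_filter]
      have h2 : (univ \ S).filter (fun x => x ∈ B \ S) = B \ S := by
        ext x; simp only [mem_filter, mem_sdiff, mem_univ, true_and]; tauto
      rw [h2, card_sdiff_of_subset hS, hB]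
    · rw [if_neg hS, zero_mul]
      apply sum_eq_zero
      intro x _
      rw [if_neg]
      exact fun h => hS (fun y hy => h (mem_insert_of_mem hy))

lemma balanced_le {N t k : ℕ} (htk : t < k) {T : Fin N → Multiset (Finset X)}
    (hT : IsTrade N t k T) (i j : Fin N) :
    ∀ (d : ℕ) (S : Finset X), S.card + d = t →
      (T i).countP (fun B => S ⊆ B) = (T j).countP (fun B => S ⊆ B) := by
  intro d
  induction d with
  | zero => intro S hS; exact hT.2.2.2 i j S (by omega)
  | succ d ih =>
    intro S hS
    have h1 := sum_countP k S (T i) (hT.2.1 i)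
    have h2 := sum_countP k S (T j) (hT.2.1 j)
    have h3 : ∑ x ∈ univ \ S, (T i).countP (fun B => insert x S ⊆ B)
        = ∑ x ∈ univ \ S, (T j).countP (fun B => insert x S ⊆ B) := by
      apply sum_congr rfl
      intro x hx
      apply ih
      rw [card_insert_of_notMem (mem_sdiff.1 hx).2]
      omega
    rw [h1, h2] at h3
    exact Nat.eq_of_mul_eq_mul_right (by omega) h3

lemma avoid {N t k : ℕ} (htk : t < k) {T : Fin N → Multiset (Finset X)}
    (hT : IsTrade N t k T) (i j : Fin N) (U : Finset X) :
    ∀ (S : Finset X), S.card + U.card ≤ t →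
      (T i).countP (fun B => S ⊆ B ∧ Disjoint U B)
        = (T j).countP (fun B => S ⊆ B ∧ Disjoint U B) := by
  induction U using Finset.induction with
  | empty =>
    intro S hS
    simp only [disjoint_empty_left, and_true]
    exact balanced_le htk hT i j (t - S.card) S (by simp at hS; omega)
  | insert x U hx ih =>
    intro S hS
    rw [card_insert_of_notMem hx] at hS
    have key : ∀ M : Multiset (Finset X), M.countP (fun B => S ⊆ B ∧ Disjoint U B)
        = M.countP (fun B => S ⊆ B ∧ Disjoint (insert x U) B)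
          + M.countP (fun B => insert x S ⊆ B ∧ Disjoint U B) := by
      intro M
      induction M using Multiset.induction with
      | empty => simp
      | cons B M ihM =>
        simp only [Multiset.countP_cons, ihM, disjoint_insert_left, insert_subset_iff]
        by_cases h1 : S ⊆ B <;> by_cases h2 : Disjoint U B <;> by_cases h3 : x ∈ B <;>
          simp [h1, h2, h3] <;> omega
    have a1 := ih S (by omega)
    have a2 := ih (insert x S) (by have := card_insert_le x S; omega)
    have b1 := key (T i)
    have b2 := key (T j)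
    omega

lemma mem_foundation {N : ℕ} {T : Fin N → Multiset (Finset X)} {x : X} :
    x ∈ foundation T ↔ ∃ i, ∃ B ∈ T i, x ∈ B := by
  unfold foundation
  simp

lemma sub_foundation {N : ℕ} {T : Fin N → Multiset (Finset X)} {i : Fin N} {B : Finset X}
    (hB : B ∈ T i) : B ⊆ foundation T :=
  fun _ hx => mem_foundation.2 ⟨i, B, hB, hx⟩

lemma lower_bound {N t k : ℕ} (hN : 2 ≤ N) (htk : t < k) {T : Fin N → Multiset (Finset X)}
    (hT : IsTrade N t k T) : k + t + 1 ≤ (foundation T).card := by
  by_contra hcon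
  push Not at hcon
  have h0 : (⟨0, by omega⟩ : Fin N) ≠ ⟨1, by omega⟩ := by
    intro h; simp at h
  obtain ⟨B₀, hB₀⟩ := Multiset.exists_mem_of_ne_zero (hT.1 ⟨0, by omega⟩)
  have hc := hT.2.1 _ B₀ hB₀
  have hsub := sub_foundation hB₀
  have hU : (foundation T \ B₀).card ≤ t := by
    rw [card_sdiff_of_subset hsub, hc]; omega
  have heq := avoid htk hT ⟨0, by omega⟩ ⟨1, by omega⟩ (foundation T \ B₀) ∅ (by simpa using hU)
  have hpos : 0 < (T ⟨0, by omega⟩).countP
      (fun B => ∅ ⊆ B ∧ Disjoint (foundation T \ B₀) B) :=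
    Multiset.countP_pos.2 ⟨B₀, hB₀, empty_subset _, sdiff_disjoint⟩
  rw [heq] at hpos
  obtain ⟨B, hB, -, hd⟩ := Multiset.countP_pos.1 hpos
  have hBsub : B ⊆ B₀ := by
    intro x hx
    by_contra hx0
    exact (disjoint_left.1 hd) (mem_sdiff.2 ⟨sub_foundation hB hx, hx0⟩) hx
  have hBeq : B = B₀ := eq_of_subset_of_card_le hBsub (by rw [hc, hT.2.1 _ B hB])
  subst hBeq
  exact hT.2.2.1 _ _ h0 B hB₀ hB

lemma legs_le {N t k : ℕ} (hN : 2 ≤ N) (htk : t < k) {T : Fin N → Multiset (Finset X)}
    (hT : IsTrade N t k T) : N ≤ ((foundation T).card - t).choose k := by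
  have hlb := lower_bound hN htk hT
  obtain ⟨B₀, hB₀⟩ := Multiset.exists_mem_of_ne_zero (hT.1 ⟨0, by omega⟩)
  have hc := hT.2.1 _ B₀ hB₀
  have hsub := sub_foundation hB₀
  obtain ⟨U, hUsub, hUcard⟩ := exists_subset_card_eq (s := foundation T \ B₀) (n := t)
    (by rw [card_sdiff_of_subset hsub, hc]; omega)
  have hpos : ∀ j : Fin N, ∃ B ∈ T j, Disjoint U B := by
    intro j
    have heq := avoid htk hT ⟨0, by omega⟩ j U ∅ (by simp [hUcard])
    have hpos : 0 < (T ⟨0, by omega⟩).countP (fun B => ∅ ⊆ B ∧ Disjoint U B) :=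
      Multiset.countP_pos.2 ⟨B₀, hB₀, empty_subset _,
        disjoint_of_subset_left hUsub sdiff_disjoint⟩
    rw [heq] at hpos
    obtain ⟨B, hB, -, hd⟩ := Multiset.countP_pos.1 hpos
    exact ⟨B, hB, hd⟩
  choose f hf hfd using hpos
  have hcard : (foundation T \ U).card = (foundation T).card - t := by
    rw [card_sdiff_of_subset (hUsub.trans sdiff_subset), hUcard]
  have hmap : ∀ j ∈ (univ : Finset (Fin N)), f j ∈ powersetCard k (foundation T \ U) := by
    intro j _
    rw [mem_powersetCard]
    refine ⟨?_, hT.2.1 j _ (hf j)⟩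
    intro x hx
    exact mem_sdiff.2 ⟨sub_foundation (hf j) hx, fun hxU => (disjoint_left.1 (hfd j)) hxU hx⟩
  have hinj : Set.InjOn f (univ : Finset (Fin N)) := by
    intro i _ j _ hij
    by_contra hne
    exact hT.2.2.1 i j hne (f i) (hf i) (hij ▸ hf j)
  have := card_le_card_of_injOn f hmap hinj
  rw [card_powersetCard, hcard] at this
  simpa using this

end lower

section construction

variable (N t r : ℕ) [NeZero N]

/-- points -/
abbrev Pt : Type := (Fin (t + 1) × ZMod N) ⊕ Fin r

/-- the block omitting one point in each part -/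
def block (a : Fin (t + 1) → ZMod N) : Finset (Pt N t r) :=
  univ.filter (fun x => ∀ i : Fin (t + 1), x ≠ Sum.inl (i, a i))

lemma mem_block_inl (a : Fin (t + 1) → ZMod N) (i : Fin (t + 1)) (z : ZMod N) :
    (Sum.inl (i, z) : Pt N t r) ∈ block N t r a ↔ z ≠ a i := by
  unfold block
  rw [mem_filter]
  constructor
  · rintro ⟨-, h⟩ rfl
    exact h i rfl
  · intro h
    refine ⟨mem_univ _, fun j hj => ?_⟩
    have h1 := Prod.mk.inj (Sum.inl.inj hj)
    obtain ⟨rfl, h2⟩ := h1
    exact h h2

lemma mem_block_inr (a : Fin (t + 1) → ZMod N) (i : Fin r) :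
    (Sum.inr i : Pt N t r) ∈ block N t r a := by
  simp [block]

lemma block_injective : Function.Injective (block N t r) := by
  intro a b hab
  funext i
  by_contra hne
  have h1 : (Sum.inl (i, a i) : Pt N t r) ∈ block N t r b :=
    (mem_block_inl N t r b i (a i)).2 hne
  rw [← hab] at h1
  exact (mem_block_inl N t r a i (a i)).1 h1 rfl

lemma block_compl (a : Fin (t + 1) → ZMod N) :
    (block N t r a)ᶜ = (univ : Finset (Fin (t + 1))).map
      ⟨fun i => (Sum.inl (i, a i) : Pt N t r), fun i j h => by simpa using (congrArg (fun x => Sum.elim (fun p => p.1) (fun _ => 0) x) h)⟩ := by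
  ext x
  rcases x with ⟨i, z⟩ | i
  · rw [mem_compl, mem_block_inl, mem_map, not_not]
    constructor
    · intro h
      exact ⟨i, mem_univ i, by rw [h]; rfl⟩
    · rintro ⟨j, -, hj⟩
      have h1 := Prod.mk.inj (Sum.inl.inj hj)
      obtain ⟨rfl, h2⟩ := h1
      exact h2.symm
  · simp [mem_block_inr]

lemma block_card (a : Fin (t + 1) → ZMod N) :
    (block N t r a).card = (t + 1) * N + r - (t + 1) := by
  have h := card_compl (block N t r a)
  rw [block_compl, card_map, card_univ, Fintype.card_fin] at h
  have h2 : Fintype.card (Pt N t r) = (t + 1) * N + r := by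
    simp [Pt, ZMod.card]
  rw [h2] at h
  have h3 : (block N t r a).card ≤ Fintype.card (Pt N t r) := card_le_univ _
  rw [h2] at h3
  omega

/-- the legs -/
noncomputable def leg (s : Fin N) : Multiset (Finset (Pt N t r)) :=
  ((univ.filter (fun a : Fin (t + 1) → ZMod N => ∑ i, a i = ((s : ℕ) : ZMod N))).val).map
    (block N t r)

lemma mem_leg (s : Fin N) (B : Finset (Pt N t r)) :
    B ∈ leg N t r s ↔ ∃ a : Fin (t + 1) → ZMod N, ∑ i, a i = ((s : ℕ) : ZMod N)
      ∧ block N t r a = B := by
  simp [leg]

omit [NeZero N] in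
lemma cast_inj {s s' : Fin N} (h : ((s : ℕ) : ZMod N) = ((s' : ℕ) : ZMod N)) : s = s' := by
  have h1 := congrArg ZMod.val h
  rw [ZMod.val_natCast_of_lt s.2, ZMod.val_natCast_of_lt s'.2] at h1
  exact Fin.ext h1

lemma countP_leg (s : Fin N) (S : Finset (Pt N t r)) :
    (leg N t r s).countP (fun B => S ⊆ B)
      = (univ.filter (fun a : Fin (t + 1) → ZMod N => ∑ i, a i = ((s : ℕ) : ZMod N)
          ∧ S ⊆ block N t r a)).card := by
  rw [leg, Multiset.countP_map, ← Finset.filter_val, Finset.card_val, Finset.filter_filter]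

lemma leg_balanced (s s' : Fin N) (S : Finset (Pt N t r)) (hS : S.card = t) :
    (leg N t r s).countP (fun B => S ⊆ B) = (leg N t r s').countP (fun B => S ⊆ B) := by
  rw [countP_leg, countP_leg]
  -- a part which `S` misses
  obtain ⟨i₀, hi₀⟩ : ∃ i₀ : Fin (t + 1), ∀ z : ZMod N, (Sum.inl (i₀, z) : Pt N t r) ∉ S := by
    by_contra hcon
    push Not at hcon
    choose z hz using hcon
    have h1 : ((univ : Finset (Fin (t + 1))).image
        (fun i => (Sum.inl (i, z i) : Pt N t r))).card ≤ S.card := by
      apply card_le_card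
      intro x hx
      obtain ⟨i, -, rfl⟩ := mem_image.1 hx
      exact hz i
    rw [card_image_of_injective _ (fun i j h => by
      simpa using (congrArg (fun x => Sum.elim (fun p => p.1) (fun _ => 0) x) h))] at h1
    rw [card_univ, Fintype.card_fin, hS] at h1
    omega
  have hcond : ∀ (a b : Fin (t + 1) → ZMod N), (∀ i, i ≠ i₀ → a i = b i) →
      S ⊆ block N t r a → S ⊆ block N t r b := by
    intro a b hab ha x hx
    rcases x with ⟨i, z⟩ | i
    · have hi : i ≠ i₀ := by rintro rfl; exact hi₀ z hx
      rw [mem_block_inl, ← hab i hi]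
      exact (mem_block_inl N t r a i z).1 (ha hx)
    · exact mem_block_inr N t r b i
  have hsum : ∀ (a : Fin (t + 1) → ZMod N) (c : ZMod N),
      ∑ i, Function.update a i₀ (a i₀ + c) i = ∑ i, a i + c := by
    intro a c
    have h1 : ∀ b : Fin (t + 1) → ZMod N, ∑ i, b i = b i₀ + ∑ i ∈ univ.erase i₀, b i :=
      fun b => (add_sum_erase univ b (mem_univ i₀)).symm
    rw [h1, h1 a, Function.update_self]
    have h2 : ∑ i ∈ univ.erase i₀, Function.update a i₀ (a i₀ + c) i = ∑ i ∈ univ.erase i₀, a i := by
      apply sum_congr rfl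
      intro i hi
      rw [Function.update_of_ne (ne_of_mem_erase hi)]
    rw [h2]; ring
  set c : ZMod N := ((s' : ℕ) : ZMod N) - ((s : ℕ) : ZMod N) with hc
  apply card_nbij' (fun a => Function.update a i₀ (a i₀ + c))
    (fun a => Function.update a i₀ (a i₀ + (-c)))
  · intro a ha
    simp only [coe_filter, mem_univ, true_and, Set.mem_ofPred_eq] at ha ⊢
    refine ⟨by rw [hsum, ha.1, hc]; ring, hcond _ _ (fun i hi => ?_) ha.2⟩
    rw [Function.update_of_ne hi]
  · intro a ha
    simp only [coe_filter, mem_univ, true_and, Set.mem_ofPred_eq] at ha ⊢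
    refine ⟨by rw [hsum, ha.1, hc]; ring, hcond _ _ (fun i hi => ?_) ha.2⟩
    rw [Function.update_of_ne hi]
  · intro a _
    simp
  · intro a _
    simp

lemma construction_isTrade (k : ℕ) (hk : (t + 1) * N + r = k + t + 1) :
    IsTrade N t k (leg N t r) := by
  refine ⟨?_, ?_, ?_, ?_⟩
  · intro s h
    have : block N t r (Function.update 0 0 ((s : ℕ) : ZMod N)) ∈ leg N t r s := by
      rw [mem_leg]
      refine ⟨_, ?_, rfl⟩
      rw [Finset.sum_update_of_mem (mem_univ _)]
      simp
    rw [h] at this
    simp at this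
  · intro s B hB
    obtain ⟨a, -, rfl⟩ := (mem_leg N t r s B).1 hB
    rw [block_card]
    omega
  · intro s s' hne B hB hB'
    obtain ⟨a, ha, rfl⟩ := (mem_leg N t r s B).1 hB
    obtain ⟨b, hb, hab⟩ := (mem_leg N t r s' _).1 hB'
    have := block_injective N t r hab
    subst this
    exact hne (cast_inj N (ha.symm.trans hb))
  · intro s s' S hS
    exact leg_balanced N t r s s' S hS

lemma construction_foundation (hN : 2 ≤ N) : foundation (leg N t r) = univ := by
  apply eq_univ_of_forall
  intro x
  rw [mem_foundation]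
  have : Fact (1 < N) := ⟨by omega⟩
  have hall : ∀ a : Fin (t + 1) → ZMod N, ∃ s : Fin N, block N t r a ∈ leg N t r s := by
    intro a
    refine ⟨⟨(∑ i, a i).val, ZMod.val_lt _⟩, ?_⟩
    rw [mem_leg]
    exact ⟨a, by simp, rfl⟩
  rcases x with ⟨i, z⟩ | i
  · obtain ⟨s, hs⟩ := hall (fun _ => z + 1)
    refine ⟨s, _, hs, ?_⟩
    rw [mem_block_inl]
    intro h
    have h1 : (1 : ZMod N) = 0 := by
      have := congrArg (fun w => w - z) h
      simpa using this.symm
    exact one_ne_zero h1
  · obtain ⟨s, hs⟩ := hall 0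
    exact ⟨s, _, hs, mem_block_inr N t r 0 i⟩

end construction

/-- **Minimum foundation of `N`-legged trades for large block size.**  Let `N ≥ 2` and `t < k`.
* If `(N - 1)(t + 1) ≤ k`, the minimum foundation size of an `N`-legged `(t,k)` trade is exactly
  `k + t + 1`.
* In general the foundation has `f ≥ k + t + 1` points, where `N ≤ C(f - t, k)`; in particular
  `f ≥ k + t + 2` if `k + 1 < N`. -/
theorem large_blocks (N t k : ℕ) (hN : 2 ≤ N) (htk : t < k) :
    ((N - 1) * (t + 1) ≤ k → IsLeast (FoundationSizes N t k) (k + t + 1)) ∧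
    (∀ f ∈ FoundationSizes N t k, k + t + 1 ≤ f ∧ N ≤ (f - t).choose k) ∧
    (k + 1 < N → ∀ f ∈ FoundationSizes N t k, k + t + 2 ≤ f) := by
  have hlow : ∀ f ∈ FoundationSizes N t k, k + t + 1 ≤ f ∧ N ≤ (f - t).choose k := by
    rintro f ⟨X, i1, i2, T, hT, rfl⟩
    exact ⟨lower_bound hN htk hT, legs_le hN htk hT⟩
  refine ⟨?_, hlow, ?_⟩
  · intro hk
    refine ⟨?_, fun f hf => (hlow f hf).1⟩
    have : NeZero N := ⟨by omega⟩
    have hN1 : (N - 1) * (t + 1) + (t + 1) = (t + 1) * N := by
      obtain ⟨M, rfl⟩ : ∃ M, N = M + 1 := ⟨N - 1, by omega⟩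
      simp only [Nat.add_sub_cancel]
      ring
    set r := k + t + 1 - (t + 1) * N with hr
    have hkr : (t + 1) * N + r = k + t + 1 := by omega
    refine ⟨Pt N t r, inferInstance, inferInstance, leg N t r,
      construction_isTrade N t r k hkr, ?_⟩
    rw [construction_foundation N t r hN, card_univ]
    have h2 : Fintype.card (Pt N t r) = (t + 1) * N + r := by
      simp [Pt, ZMod.card]
    rw [h2, hkr]
  · intro hkN f hf
    obtain ⟨h1, h2⟩ := hlow f hf
    by_contra hcon
    have hf' : f = k + t + 1 := by omega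
    subst hf'
    have h3 : k + t + 1 - t = k + 1 := by omega
    rw [h3, Nat.choose_succ_self_right] at h2
    omega

end Pool.Agent.H73.FoundationLargeBlocks
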