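import Mathlib
import Pool.Agent.H73.TradeTools
import Pool.Agent.H73.FoundationLargeBlocks

/-!
# MP_832176_co, Q2: the minimum foundation of `N`-legged trades

For every `t` there is a constant `C` such that for all `N ≥ 2` and `k > t` the minimum foundation
size `f` of an `N`-legged `(t,k)` trade satisfies `E / C ≤ f - k ≤ C * E`, where, with
`L = log₂ N`, `E = k * N ^ (1 / (k - t))` if `k < 2 * L` and `E = 1 + L / log₂ (k / L)` if
`2 * L ≤ k`; it is exactly `k + t + 1` if `(N - 1)(t + 1) ≤ k`.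
-/

set_option autoImplicit false

namespace Pool.Agent.H73.FoundationOrderAux

open Finset

/-- `T = (T 0, …, T (N-1))` is an `N`-legged `(t,k)` trade on the finite set `X`: each leg is a
nonempty finite multiset of `k`-subsets of `X`, two different legs have no block in common, and
every `t`-subset of `X` lies in the same number of blocks (with multiplicity) of each leg. -/
def IsTrade (N t k : ℕ) {X : Type} [DecidableEq X] (T : Fin N → Multiset (Finset X)) : Prop :=
  (∀ i, T i ≠ 0) ∧
  (∀ i, ∀ B ∈ T i, B.card = k) ∧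
  (∀ i j, i ≠ j → ∀ B ∈ T i, B ∉ T j) ∧
  (∀ i j, ∀ S : Finset X, S.card = t →
    (T i).countP (fun B => S ⊆ B) = (T j).countP (fun B => S ⊆ B))

/-- The foundation of a trade: the points which lie in some block. -/
noncomputable def foundation {N : ℕ} {X : Type} [Fintype X] [DecidableEq X]
    (T : Fin N → Multiset (Finset X)) : Finset X :=
  @Finset.filter X (fun x => ∃ i, ∃ B ∈ T i, x ∈ B) (Classical.decPred _) Finset.univ

/-- The foundation sizes of all `N`-legged `(t,k)` trades on all finite sets. -/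
def FoundationSizes (N t k : ℕ) : Set ℕ :=
  {f | ∃ (X : Type) (_ : Fintype X) (_ : DecidableEq X) (T : Fin N → Multiset (Finset X)),
    IsTrade N t k T ∧ (foundation T).card = f}

lemma sub_foundation {N : ℕ} {X : Type} [Fintype X] [DecidableEq X]
    {T : Fin N → Multiset (Finset X)} {i : Fin N} {B : Finset X}
    (hB : B ∈ T i) : B ⊆ foundation T := by
  intro x hx
  have h : x ∈ foundation T ↔ ∃ i, ∃ B ∈ T i, x ∈ B := by
    unfold foundation
    simp
  exact h.2 ⟨i, B, hB, hx⟩

lemma legs_le {N t k : ℕ} (hN : 1 ≤ N) (htk : t < k) {X : Type} [Fintype X] [DecidableEq X]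
    {T : Fin N → Multiset (Finset X)} (hT : IsTrade N t k T) :
    N ≤ ((foundation T).card - t).choose (k - t) := by
  classical
  set i₀ : Fin N := ⟨0, hN⟩
  obtain ⟨B₀, hB₀⟩ := Multiset.exists_mem_of_ne_zero (hT.1 i₀)
  obtain ⟨S, hSB, hS⟩ := exists_subset_card_eq (s := B₀) (n := t)
    (by rw [hT.2.1 i₀ B₀ hB₀]; exact htk.le)
  have hex : ∀ i, ∃ B ∈ T i, S ⊆ B := by
    intro i
    apply Multiset.countP_pos.1
    rw [hT.2.2.2 i i₀ S hS]
    exact Multiset.countP_pos.2 ⟨B₀, hB₀, hSB⟩
  choose B hBT hSB' using hex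
  have hSf : S ⊆ foundation T := (hSB' i₀).trans (sub_foundation (hBT i₀))
  have hinj : Function.Injective (fun i => B i \ S) := by
    intro i j hij
    have hij' : B i \ S = B j \ S := hij
    have : B i = B j := by
      rw [← sdiff_union_of_subset (hSB' i), ← sdiff_union_of_subset (hSB' j), hij']
    by_contra hne
    exact hT.2.2.1 i j hne (B i) (hBT i) (by rw [this]; exact hBT j)
  calc N = (univ.image (fun i => B i \ S)).card := by
        rw [card_image_of_injective _ hinj, card_univ, Fintype.card_fin]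
    _ ≤ (powersetCard (k - t) (foundation T \ S)).card := by
        apply card_le_card
        intro Q hQ
        obtain ⟨i, -, rfl⟩ := mem_image.1 hQ
        rw [mem_powersetCard]
        refine ⟨sdiff_subset_sdiff (sub_foundation (hBT i)) le_rfl, ?_⟩
        rw [card_sdiff_of_subset (hSB' i), hT.2.1 i (B i) (hBT i), hS]
    _ = _ := by rw [card_powersetCard, card_sdiff_of_subset hSf, hS]

/-- the upper bound -/
lemma upper (N t k : ℕ) (hN : 2 ≤ N) (htk : t < k) :
    ∃ f ∈ FoundationSizes N t k, ∃ q, f ≤ k * q ∧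
      q ^ (k - t) ≤ (2 * (4 * (t + 1)) ^ t) ^ (k - t) * N := by
  cases t with
  | zero =>
    -- distinct blocks
    have hex : ∃ a, N ≤ 2 ^ ((a + 1) * k) := by
      refine ⟨N, ?_⟩
      have h1 : N ≤ 2 ^ N := Nat.lt_two_pow_self.le
      refine h1.trans (Nat.pow_le_pow_right (by norm_num) ?_)
      nlinarith
    classical
    set a := Nat.find hex with ha
    have hspec := Nat.find_spec hex
    rw [← ha] at hspec
    obtain ⟨T, hT, -⟩ := TradeTools.upper_zero (a + 1) k N hspec
    refine ⟨(foundation T).card, ⟨_, _, _, T, hT, rfl⟩, 2 ^ (a + 1), ?_, ?_⟩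
    · refine (card_le_univ _).trans ?_
      simp [Fintype.card_sum, Fintype.card_prod, ZMod.card]
    · simp only [Nat.sub_zero, pow_zero, mul_one]
      rcases Nat.eq_zero_or_pos a with ha0 | hapos
      · rw [ha0]
        simp only [zero_add, pow_one]
        exact Nat.le_mul_of_pos_right _ (by omega)
      · obtain ⟨a', ha'⟩ : ∃ a', a = a' + 1 := ⟨a - 1, by omega⟩
        have hmin := Nat.find_min hex (m := a') (by omega)
        push Not at hmin
        rw [ha']
        calc (2 ^ (a' + 1 + 1)) ^ k = 2 ^ k * 2 ^ ((a' + 1) * k) := by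
              rw [← pow_mul, ← pow_add]; congr 1; ring
          _ ≤ 2 ^ k * N := Nat.mul_le_mul_left _ hmin.le
  | succ s =>
    obtain ⟨a, b, hb, hab, hkb, hle, hq, -⟩ := TradeTools.choose_levels s k N htk (by omega)
    obtain ⟨T, hT, -⟩ := TradeTools.upper_gen s a b k k N hb hab hkb le_rfl hle
    refine ⟨(foundation T).card, ⟨_, _, _, T, hT, rfl⟩, 2 ^ a, ?_, ?_⟩
    · refine (card_le_univ _).trans ?_
      simp [Fintype.card_sum, Fintype.card_prod, ZMod.card]
    · refine hq.trans ?_
      apply Nat.mul_le_mul_right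
      apply Nat.pow_le_pow_left
      apply Nat.mul_le_mul_left
      exact Nat.pow_le_pow_right (by omega) (by omega)

/-- a trade of strength `t + 1` is one of strength `t` -/
lemma weaken {N t n : ℕ} {X : Type} [Fintype X] [DecidableEq X]
    {T : Fin N → Multiset (Finset X)} (htn : t + 1 < n) (hT : IsTrade N (t + 1) n T) :
    IsTrade N t n T :=
  ⟨hT.1, hT.2.1, hT.2.2.1, fun i j S hS =>
    FoundationLargeBlocks.balanced_le htn hT i j 1 S (by omega)⟩

/-- complements of the blocks of a trade -/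
lemma compl_trade {N t n : ℕ} {X : Type} [Fintype X] [DecidableEq X]
    {T : Fin N → Multiset (Finset X)} (htn : t < n) (hT : IsTrade N t n T) (k : ℕ)
    (hk : Fintype.card X ≤ k + n) : ∃ f ∈ FoundationSizes N t k, f ≤ k + n := by
  classical
  set r := k + n - Fintype.card X with hr
  have hY : Fintype.card (X ⊕ Fin r) = k + n := by
    rw [Fintype.card_sum, Fintype.card_fin]; omega
  let φ : Finset X → Finset (X ⊕ Fin r) := fun B => (B.map Function.Embedding.inl)ᶜ
  have hφ : Function.Injective φ := by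
    intro B B' h
    exact map_injective _ (compl_injective h)
  let T' : Fin N → Multiset (Finset (X ⊕ Fin r)) := fun i => (T i).map φ
  have hsub : ∀ (S : Finset (X ⊕ Fin r)) (B : Finset X), S ⊆ φ B ↔ (∅ ⊆ B ∧ Disjoint S.toLeft B) := by
    intro S B
    rw [subset_compl_iff_disjoint_right, disjoint_left, disjoint_left]
    constructor
    · intro h
      refine ⟨empty_subset _, fun x hx hxB => ?_⟩
      exact h (mem_toLeft.1 hx) (mem_map.2 ⟨x, hxB, rfl⟩)
    · rintro ⟨-, h⟩ y hy hyB
      obtain ⟨x, hxB, rfl⟩ := mem_map.1 hyB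
      exact h (mem_toLeft.2 hy) hxB
  have hT' : IsTrade N t k T' := by
    refine ⟨?_, ?_, ?_, ?_⟩
    · intro i h
      obtain ⟨B, hB⟩ := Multiset.exists_mem_of_ne_zero (hT.1 i)
      have : φ B ∈ T' i := Multiset.mem_map_of_mem φ hB
      rw [h] at this
      simp at this
    · intro i C hC
      obtain ⟨B, hB, rfl⟩ := Multiset.mem_map.1 hC
      rw [card_compl, card_map, hT.2.1 i B hB, hY]
      omega
    · intro i j hij C hC hC'
      obtain ⟨B, hB, rfl⟩ := Multiset.mem_map.1 hC
      obtain ⟨B', hB', he⟩ := Multiset.mem_map.1 hC'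
      have := hφ he
      subst this
      exact hT.2.2.1 i j hij _ hB hB'
    · intro i j S hS
      have key : ∀ i, (T' i).countP (fun C => S ⊆ C)
          = (T i).countP (fun B => ∅ ⊆ B ∧ Disjoint S.toLeft B) := by
        intro i
        rw [Multiset.countP_map, Multiset.countP_eq_card_filter]
        congr 1
        apply Multiset.filter_congr
        intro B _
        exact hsub S B
      rw [key, key]
      apply FoundationLargeBlocks.avoid htn hT i j S.toLeft ∅
      rw [card_empty, zero_add]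
      exact card_toLeft_le.trans hS.le
  refine ⟨_, ⟨_, inferInstance, inferInstance, T', hT', rfl⟩, ?_⟩
  rw [← hY]
  exact card_le_univ _

lemma excess_core (t a b n k N : ℕ) (hb : 1 ≤ b) (hab : a ≤ b) (hn : n ≤ 2 ^ b) (htn : t + 1 < n)
    (hN : N * 2 ^ (a + b * t) ≤ 2 ^ (a * n)) (hk : n * 2 ^ a ≤ k + n) :
    ∃ f ∈ FoundationSizes N t k, f ≤ k + n := by
  obtain ⟨T, hT, -⟩ := TradeTools.upper_gen t a b n n N hb hab hn le_rfl hN
  apply compl_trade (by omega) (weaken htn hT) k
  refine le_trans (le_of_eq ?_) hk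
  simp [Fintype.card_sum, Fintype.card_prod, ZMod.card]

lemma sq_le_two_pow (w : ℕ) (hw : 6 ≤ w) : (w + 1) * (w + 1) ≤ 2 ^ w := by
  induction w, hw using Nat.le_induction with
  | base => norm_num
  | succ w hw ih => rw [pow_succ]; nlinarith

lemma clog_small (t n : ℕ) (hn : 4 * t * (4 * t + 7) ≤ n) : 4 * t * Nat.clog 2 n ≤ n := by
  rcases Nat.eq_zero_or_pos t with rfl | ht
  · simp
  set w := n / (4 * t) with hw
  have h1 : 4 * t * w ≤ n := Nat.mul_div_le n (4 * t)
  have h2 : n < 4 * t * (w + 1) := by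
    have := Nat.lt_mul_div_succ n (show 0 < 4 * t by omega)
    exact this
  have h3 : 4 * t + 7 ≤ w := by
    rw [hw, Nat.le_div_iff_mul_le (by omega)]
    linarith
  have h4 : n ≤ 2 ^ w := by
    calc n ≤ 4 * t * (w + 1) := h2.le
      _ ≤ (w + 1) * (w + 1) := Nat.mul_le_mul_right _ (by omega)
      _ ≤ 2 ^ w := sq_le_two_pow w (by omega)
  have h5 : Nat.clog 2 n ≤ w := (Nat.clog_le_iff_le_pow (by norm_num)).2 h4
  exact (Nat.mul_le_mul_left _ h5).trans h1

/-- the counting bound in logarithmic form -/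
lemma log_choose (N k κ : ℕ) (hN : 1 ≤ N) (hκ : 1 ≤ κ) (h : N ≤ (k + κ).choose κ) :
    Real.logb 2 N ≤ κ * Real.logb 2 (3 * (k + κ) / κ) := by
  have h1 : κ ^ κ * N ≤ (3 * (k + κ)) ^ κ :=
    (Nat.mul_le_mul_left _ h).trans (TradeTools.choose_bound _ _)
  have hκ0 : (0 : ℝ) < κ := by exact_mod_cast hκ
  have hk0 : (0 : ℝ) ≤ k := by positivity
  have hN0 : (0 : ℝ) < N := by exact_mod_cast hN
  have h2 : (N : ℝ) ≤ (3 * (k + κ) / κ) ^ κ := by
    rw [div_pow, le_div_iff₀ (by positivity), mul_comm]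
    exact_mod_cast h1
  calc Real.logb 2 N ≤ Real.logb 2 ((3 * (k + κ) / κ) ^ κ) :=
        Real.logb_le_logb_of_le (by norm_num) hN0 h2
    _ = κ * Real.logb 2 (3 * (k + κ) / κ) := Real.logb_pow _ _ _

lemma logb_le_self (x : ℝ) (hx : 0 < x) : Real.logb 2 x ≤ x := by
  rw [Real.logb_le_iff_le_rpow (by norm_num) hx]
  rw [Real.rpow_def_of_pos (by norm_num)]
  have h2 := Real.add_one_le_exp (Real.log 2 * x - 1)
  have h3 : (0.6931471803 : ℝ) < Real.log 2 := Real.log_two_gt_d9
  have h4 : Real.exp (Real.log 2 * x) = Real.exp (Real.log 2 * x - 1) * Real.exp 1 := by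
    rw [← Real.exp_add]; congr 1; ring
  have h5 : 2 < Real.exp 1 := Real.exp_one_gt_two
  have h6 : 0 < Real.log 2 * x := by positivity
  rw [h4]
  have h7 : Real.log 2 * x ≤ Real.exp (Real.log 2 * x - 1) := by linarith
  calc x ≤ (Real.log 2 * x) * 2 := by nlinarith
    _ ≤ Real.exp (Real.log 2 * x - 1) * Real.exp 1 := by
        apply mul_le_mul h7 h5.le (by norm_num) (Real.exp_pos _).le

/-- lower bound for the excess, `k ≥ 2 log₂ N` -/
lemma excess_lower_large (N k κ : ℕ) (hN : 2 ≤ N) (hκ : 1 ≤ κ)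
    (hk : 2 * Real.logb 2 N ≤ k) (h : N ≤ (k + κ).choose κ) :
    Real.logb 2 N / Real.logb 2 (k / Real.logb 2 N) ≤ 32 * κ := by
  have h0 := log_choose N k κ (by omega) hκ h
  set L := Real.logb 2 N with hL
  have hL1 : 1 ≤ L := by
    rw [hL, Real.le_logb_iff_rpow_le (by norm_num) (by positivity), Real.rpow_one]
    exact_mod_cast hN
  have hL0 : 0 < L := by linarith
  set R := (k : ℝ) / L with hR
  have hR2 : 2 ≤ R := by rw [hR, le_div_iff₀ hL0]; linarith
  set l := Real.logb 2 R with hl
  have hl1 : 1 ≤ l := by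
    rw [hl, Real.le_logb_iff_rpow_le (by norm_num) (by linarith), Real.rpow_one]
    exact hR2
  have hκ0 : (1 : ℝ) ≤ κ := by exact_mod_cast hκ
  rw [div_le_iff₀ (by linarith)]
  rcases le_or_gt L κ with hc | hc
  · nlinarith
  · set x := (k : ℝ) / κ with hx
    have hk0 : (0 : ℝ) < k := by linarith
    have hx2 : 2 ≤ x := by
      rw [hx, le_div_iff₀ (by linarith)]; nlinarith
    have e1 : 3 * ((k : ℝ) + κ) / κ = 3 * (x + 1) := by
      rw [hx]; field_simp
    have e2 : 3 * (x + 1) ≤ x ^ 4 := by nlinarith [sq_nonneg (x ^ 2 - 4), sq_nonneg (x - 2)]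
    have e3 : Real.logb 2 (3 * ((k : ℝ) + κ) / κ) ≤ 4 * Real.logb 2 x := by
      rw [e1]
      calc Real.logb 2 (3 * (x + 1)) ≤ Real.logb 2 (x ^ 4) :=
            Real.logb_le_logb_of_le (by norm_num) (by linarith) e2
        _ = 4 * Real.logb 2 x := by rw [Real.logb_pow]; norm_num
    set y := L / κ with hy
    have hy0 : 0 < y := by positivity
    have e4 : x = R * (8 * (y / 8)) := by
      rw [hx, hR, hy]; field_simp
    have e5 : Real.logb 2 x = l + (3 + Real.logb 2 (y / 8)) := by
      rw [e4, Real.logb_mul (by positivity) (by positivity),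
        Real.logb_mul (by norm_num) (by positivity), show (8 : ℝ) = 2 ^ 3 by norm_num,
        Real.logb_pow, Real.logb_self_eq_one (by norm_num)]
      norm_num [hl]
    have e6 := logb_le_self (y / 8) (by positivity)
    have e7 : (κ : ℝ) * y = L := by rw [hy]; field_simp
    have e8 : L ≤ κ * (4 * (l + (3 + y / 8))) := by
      refine h0.trans (mul_le_mul_of_nonneg_left ?_ (by linarith))
      rw [e5] at e3
      linarith
    nlinarith

/-- lower bound for the excess, `k < 2 log₂ N` -/
lemma excess_lower_small (N k κ : ℕ) (hN : 2 ≤ N) (hκ : 1 ≤ κ) (hκk : κ ≤ k)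
    (hk : (k : ℝ) < 2 * Real.logb 2 N) (h : N ≤ (k + κ).choose κ) : (k : ℝ) ≤ 16 * κ := by
  have h0 := log_choose N k κ (by omega) hκ h
  set L := Real.logb 2 N with hL
  have hκ0 : (1 : ℝ) ≤ κ := by exact_mod_cast hκ
  have hκk' : (κ : ℝ) ≤ k := by exact_mod_cast hκk
  set y := (k : ℝ) / κ with hy
  have hy1 : 1 ≤ y := by rw [hy, le_div_iff₀ (by linarith)]; linarith
  have e1 : 3 * ((k : ℝ) + κ) / κ ≤ 64 * (y / 8) := by
    have : 3 * ((k : ℝ) + κ) / κ = 3 * (y + 1) := by rw [hy]; field_simp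
    rw [this]; linarith
  have e2 : Real.logb 2 (3 * ((k : ℝ) + κ) / κ) ≤ 6 + y / 8 := by
    calc Real.logb 2 (3 * ((k : ℝ) + κ) / κ) ≤ Real.logb 2 (64 * (y / 8)) :=
          Real.logb_le_logb_of_le (by norm_num) (by positivity) e1
      _ = 6 + Real.logb 2 (y / 8) := by
          rw [Real.logb_mul (by norm_num) (by positivity), show (64 : ℝ) = 2 ^ 6 by norm_num,
            Real.logb_pow, Real.logb_self_eq_one (by norm_num)]
          norm_num
      _ ≤ 6 + y / 8 := by linarith [logb_le_self (y / 8) (by positivity)]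
  have e3 : (κ : ℝ) * y = k := by rw [hy]; field_simp
  have e4 : L ≤ κ * (6 + y / 8) := h0.trans (mul_le_mul_of_nonneg_left e2 (by linarith))
  nlinarith

/-- upper bound for the excess when `k` is large against `log₂ N` -/
lemma excess_upper_large (t N k M : ℕ) (hN : 2 ≤ N) (hM1 : 16 ≤ M) (hM2 : 4 * (t + 1) ≤ M)
    (hM3 : 4 * t * (4 * t + 7) ≤ M) (hk : 4 * (M : ℝ) ^ 2 * Real.logb 2 N ≤ k) :
    ∃ f ∈ FoundationSizes N t k,
      (f : ℝ) - k ≤ M * (1 + Real.logb 2 N / Real.logb 2 (k / Real.logb 2 N)) := by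
  set L := Real.logb 2 N with hL
  have hL1 : 1 ≤ L := by
    rw [hL, Real.le_logb_iff_rpow_le (by norm_num) (by positivity), Real.rpow_one]
    exact_mod_cast hN
  have hL0 : 0 < L := by linarith
  have hMR : (16 : ℝ) ≤ M := by exact_mod_cast hM1
  set R := (k : ℝ) / L with hR
  have hRM : 4 * (M : ℝ) ^ 2 ≤ R := by rw [hR, le_div_iff₀ hL0]; exact hk
  have hR16 : (16 : ℝ) ≤ R := by nlinarith
  have hR0 : 0 < R := by linarith
  set l := Real.logb 2 R with hl
  have hl4 : 4 ≤ l := by
    rw [hl, Real.le_logb_iff_rpow_le (by norm_num) hR0]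
    calc (2 : ℝ) ^ (4 : ℝ) = 16 := by norm_num
      _ ≤ R := hR16
  set a := ⌊l / 2⌋₊ with ha
  set u := ⌊L / l⌋₊ + 1 with hu
  set n := M * u with hn
  have hal : l / 4 ≤ a := by
    have := Nat.lt_floor_add_one (l / 2)
    rw [← ha] at this
    linarith
  have hal2 : (a : ℝ) ≤ l / 2 := Nat.floor_le (by linarith)
  have ha1 : 1 ≤ a := by
    have : (1 : ℝ) ≤ a := by linarith
    exact_mod_cast this
  have hLl : 0 ≤ L / l := by positivity
  have hu1 : L / l ≤ u := by
    rw [hu]; push_cast
    exact (Nat.lt_floor_add_one _).le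
  have hu2 : (u : ℝ) ≤ L / l + 1 := by
    rw [hu]; push_cast
    linarith [Nat.floor_le hLl]
  have hupos : 1 ≤ u := by omega
  have hMn : M ≤ n := Nat.le_mul_of_pos_right _ hupos
  have hnR : (n : ℝ) = M * u := by rw [hn]; push_cast; ring
  set c := Nat.clog 2 n with hc
  have hnc : n ≤ 2 ^ c := Nat.le_pow_clog (by norm_num) n
  have hcn : 4 * t * c ≤ n := clog_small t n (hM3.trans hMn)
  -- the number of legs
  have h4L : 4 * L ≤ a * n := by
    rw [hnR]
    have h1 : L / l * l = L := by field_simp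
    have h2 : l / 4 * (16 * (L / l)) ≤ a * (M * u) := by
      apply mul_le_mul hal _ (by positivity) (by positivity)
      apply mul_le_mul hMR hu1 hLl (by positivity)
    nlinarith
  have h4a : 4 * (a * (t + 1)) ≤ a * n := by
    calc 4 * (a * (t + 1)) = a * (4 * (t + 1)) := by ring
      _ ≤ a * n := Nat.mul_le_mul_left _ (hM2.trans hMn)
  have h4c : 4 * t * c ≤ a * n := hcn.trans (Nat.le_mul_of_pos_left _ ha1)
  have hexp : L + ((a + (a + c) * t : ℕ) : ℝ) ≤ ((a * n : ℕ) : ℝ) := by
    have h1 : (4 : ℝ) * (a * (t + 1)) ≤ a * n := by exact_mod_cast h4a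
    have h2 : (4 : ℝ) * t * c ≤ a * n := by exact_mod_cast h4c
    push_cast
    nlinarith
  have hlegs : N * 2 ^ (a + (a + c) * t) ≤ 2 ^ (a * n) := by
    have h1 : (N : ℝ) = (2 : ℝ) ^ L := by
      rw [hL, Real.rpow_logb (by norm_num) (by norm_num) (by positivity)]
    have h2 : (N : ℝ) * (2 : ℝ) ^ (a + (a + c) * t) ≤ (2 : ℝ) ^ (a * n) := by
      rw [h1, ← Real.rpow_natCast 2 (a + (a + c) * t), ← Real.rpow_natCast 2 (a * n),
        ← Real.rpow_add (by norm_num)]
      exact Real.rpow_le_rpow_of_exponent_le (by norm_num) hexp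
    exact_mod_cast h2
  -- the points
  have hpts : n * 2 ^ a ≤ k + n := by
    have h1 : ((2 : ℝ) ^ a) ^ 2 ≤ R := by
      rw [← pow_mul]
      calc (2 : ℝ) ^ (a * 2) = (2 : ℝ) ^ ((a * 2 : ℕ) : ℝ) := (Real.rpow_natCast _ _).symm
        _ ≤ (2 : ℝ) ^ l := by
            apply Real.rpow_le_rpow_of_exponent_le (by norm_num)
            push_cast; linarith
        _ = R := by rw [hl, Real.rpow_logb (by norm_num) (by norm_num) hR0]
    have h2 : (n : ℝ) ≤ 2 * M * L := by
      have h3 : L / l ≤ L := div_le_self hL0.le (by linarith)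
      rw [hnR]
      nlinarith
    have h3 : ((n : ℝ) * 2 ^ a) ^ 2 ≤ (k : ℝ) ^ 2 := by
      calc ((n : ℝ) * 2 ^ a) ^ 2 = (n : ℝ) ^ 2 * ((2 : ℝ) ^ a) ^ 2 := by rw [mul_pow]
        _ ≤ (2 * M * L) ^ 2 * R := by
            apply mul_le_mul (pow_le_pow_left₀ (by positivity) h2 2) h1 (by positivity)
              (by positivity)
        _ = (4 * (M : ℝ) ^ 2 * L) * (L * R) := by ring
        _ = (4 * (M : ℝ) ^ 2 * L) * k := by
            congr 1; rw [hR]; field_simp
        _ ≤ k * k := mul_le_mul_of_nonneg_right hk (by positivity)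
        _ = (k : ℝ) ^ 2 := by ring
    have h4 : (n : ℝ) * 2 ^ a ≤ k :=
      (pow_le_pow_iff_left₀ (by positivity) (by positivity) two_ne_zero).1 h3
    have h5 : n * 2 ^ a ≤ k := by exact_mod_cast h4
    omega
  obtain ⟨f, hf, hfle⟩ := excess_core t a (a + c) n k N (by omega) (by omega)
    (hnc.trans (Nat.pow_le_pow_right (by norm_num) (by omega))) (by omega) hlegs hpts
  refine ⟨f, hf, ?_⟩
  have h1 : (f : ℝ) ≤ k + n := by exact_mod_cast hfle
  have h2 : (n : ℝ) ≤ M * (1 + L / l) := by
    rw [hnR]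
    apply mul_le_mul_of_nonneg_left _ (by positivity)
    linarith
  linarith

/-- The order of magnitude of the excess `f - k` of the minimum foundation size `f`: with
`L = log₂ N` it is `k * N ^ (1 / (k - t))` if `k < 2 L`, and `1 + L / log₂ (k / L)` if
`2 L ≤ k`. -/
noncomputable def excess (N t k : ℕ) : ℝ :=
  if (k : ℝ) < 2 * Real.logb 2 N then (k : ℝ) * (N : ℝ) ^ (1 / ((k : ℝ) - t))
  else 1 + Real.logb 2 N / Real.logb 2 (k / Real.logb 2 N)

/-- **Main theorem.** For every `t`:
* if `(N - 1)(t + 1) ≤ k`, the minimum foundation size of an `N`-legged `(t,k)` trade is exactly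
  `k + t + 1`;
* every foundation size `f` satisfies `k + t + 1 ≤ f`, `N ≤ C(f - t, k)`, `N ≤ C(f - t, k - t)`;
* there is a constant `C` (depending on `t` only) such that for all `N ≥ 2` and `k > t` the
  minimum foundation size `f` satisfies `excess N t k / C ≤ f - k ≤ C * excess N t k`. -/
theorem main (t : ℕ) :
    (∀ N k : ℕ, 2 ≤ N → t < k → (N - 1) * (t + 1) ≤ k →
      IsLeast (FoundationSizes N t k) (k + t + 1)) ∧
    (∀ N k f : ℕ, 2 ≤ N → t < k → f ∈ FoundationSizes N t k →
      k + t + 1 ≤ f ∧ N ≤ (f - t).choose k ∧ N ≤ (f - t).choose (k - t)) ∧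
    (∃ C : ℝ, 0 < C ∧ ∀ N k : ℕ, 2 ≤ N → t < k →
      ∃ f : ℕ, IsLeast (FoundationSizes N t k) f ∧
        excess N t k ≤ C * ((f : ℝ) - k) ∧ (f : ℝ) - k ≤ C * excess N t k) := by
  have P1 : ∀ N k : ℕ, 2 ≤ N → t < k → (N - 1) * (t + 1) ≤ k →
      IsLeast (FoundationSizes N t k) (k + t + 1) := fun N k hN htk h =>
    (FoundationLargeBlocks.large_blocks N t k hN htk).1 h
  have P2 : ∀ N k f : ℕ, 2 ≤ N → t < k → f ∈ FoundationSizes N t k →
      k + t + 1 ≤ f ∧ N ≤ (f - t).choose k ∧ N ≤ (f - t).choose (k - t) := by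
    intro N k f hN htk hf
    obtain ⟨h1, h2⟩ := (FoundationLargeBlocks.large_blocks N t k hN htk).2.1 f hf
    refine ⟨h1, h2, ?_⟩
    obtain ⟨X, i1, i2, T, hT, rfl⟩ := hf
    exact legs_le (by omega) htk hT
  set M : ℕ := 4 * t * (4 * t + 7) + 4 * (t + 1) + 16 with hM
  set D : ℝ := 2 * (4 * ((t : ℝ) + 1)) ^ t with hD
  have hD1 : 1 ≤ D := by
    have h1 : (1 : ℝ) ≤ (4 * ((t : ℝ) + 1)) ^ t := by
      apply one_le_pow₀
      have : (0 : ℝ) ≤ t := by positivity
      linarith
    linarith
  set K : ℝ := 4 * (M : ℝ) ^ 2 with hK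
  have hM16 : (16 : ℝ) ≤ M := by
    have : 16 ≤ M := by omega
    exact_mod_cast this
  have hK1 : 1 ≤ K := by nlinarith
  set A : ℝ := D * 2 ^ (t + 1) * K * K with hA
  have hA0 : 0 ≤ A := by positivity
  have ht0 : (0 : ℝ) ≤ t := by positivity
  refine ⟨P1, P2, 96 * (t + 1) + 33 + D + M + A, by positivity, ?_⟩
  intro N k hN htk
  obtain ⟨f₀, hf₀, q, hfq, hq⟩ := upper N t k hN htk
  have hj0 : k - t ≠ 0 := by omega
  have hcast : ((k - t : ℕ) : ℝ) = (k : ℝ) - t := by rw [Nat.cast_sub htk.le]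
  set f := sInf (FoundationSizes N t k) with hf
  have hmem : f ∈ FoundationSizes N t k := Nat.sInf_mem ⟨f₀, hf₀⟩
  obtain ⟨h1, h2, h3⟩ := P2 N k f hN htk hmem
  set L := Real.logb 2 N with hL
  have hL1 : 1 ≤ L := by
    rw [hL, Real.le_logb_iff_rpow_le (by norm_num) (by positivity), Real.rpow_one]
    exact_mod_cast hN
  have hL0 : 0 < L := by linarith
  set r := (N : ℝ) ^ (1 / ((k - t : ℕ) : ℝ)) with hr
  have hrpos : 0 ≤ r := by positivity
  have hk0 : (0 : ℝ) ≤ k := by positivity
  have hkt : (k : ℝ) ≤ ((t : ℝ) + 1) * ((k - t : ℕ) : ℝ) := by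
    have : k ≤ (t + 1) * (k - t) := by
      obtain ⟨j, rfl⟩ : ∃ j, k = t + 1 + j := ⟨k - (t + 1), by omega⟩
      rw [show t + 1 + j - t = j + 1 by omega]
      nlinarith
    exact_mod_cast this
  -- the lower bound `k r ≤ 3 (t + 1) f`
  have hlow : (k : ℝ) * r ≤ (3 * ((t : ℝ) + 1)) * f := by
    have h4 := TradeTools.choose_bound (f - t) (k - t)
    have h5 : (k - t) ^ (k - t) * N ≤ (3 * f) ^ (k - t) := by
      calc (k - t) ^ (k - t) * N ≤ (k - t) ^ (k - t) * (f - t).choose (k - t) :=
            Nat.mul_le_mul_left _ h3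
        _ ≤ (3 * (f - t)) ^ (k - t) := h4
        _ ≤ (3 * f) ^ (k - t) := Nat.pow_le_pow_left (Nat.mul_le_mul_left _ (Nat.sub_le _ _)) _
    have h6 : ((k - t : ℕ) : ℝ) * r ≤ 3 * (f : ℝ) := by
      apply TradeTools.root_ge (by positivity) (by positivity) hj0 _ (by positivity)
      have : (((k - t) ^ (k - t) * N : ℕ) : ℝ) ≤ (((3 * f) ^ (k - t) : ℕ) : ℝ) := by
        exact_mod_cast h5
      push_cast at this
      push_cast
      linarith
    calc (k : ℝ) * r ≤ (((t : ℝ) + 1) * ((k - t : ℕ) : ℝ)) * r :=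
          mul_le_mul_of_nonneg_right hkt hrpos
      _ = ((t : ℝ) + 1) * (((k - t : ℕ) : ℝ) * r) := by ring
      _ ≤ ((t : ℝ) + 1) * (3 * (f : ℝ)) := mul_le_mul_of_nonneg_left h6 (by positivity)
      _ = (3 * ((t : ℝ) + 1)) * (f : ℝ) := by ring
  -- the upper bound `f ≤ D k r`
  have hupp : (f : ℝ) ≤ D * (k * r) := by
    have h1 : (f : ℝ) ≤ f₀ := by exact_mod_cast Nat.sInf_le hf₀
    have h2 : (f₀ : ℝ) ≤ k * q := by exact_mod_cast hfq
    have h3 : (q : ℝ) ≤ D * r := by
      apply TradeTools.root_le (by positivity) (by positivity) hj0 _ (by positivity)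
      rw [hD]
      exact_mod_cast hq
    calc (f : ℝ) ≤ k * q := h1.trans h2
      _ ≤ k * (D * r) := mul_le_mul_of_nonneg_left h3 hk0
      _ = D * (k * r) := by ring
  -- `κ = f - k - t`
  obtain ⟨κ, hκ⟩ : ∃ κ, f = k + t + κ := ⟨f - (k + t), by omega⟩
  have hκ1 : 1 ≤ κ := by omega
  have hκR : (1 : ℝ) ≤ κ := by exact_mod_cast hκ1
  have hfR : (f : ℝ) = k + t + κ := by exact_mod_cast hκ
  have hchoose : N ≤ (k + κ).choose κ := by
    have : (f - t).choose k = (k + κ).choose κ := by
      rw [hκ, show k + t + κ - t = k + κ by omega, Nat.choose_symm_add]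
    rw [← this]; exact h2
  refine ⟨f, ⟨hmem, fun m hm => Nat.sInf_le hm⟩, ?_, ?_⟩
  · -- lower bounds
    unfold excess
    rw [← hL, ← hcast, ← hr]
    split_ifs with hc
    · rcases Nat.lt_or_ge f (2 * k) with hfk | hfk
      · have h4 := excess_lower_small N k κ hN hκ1 (by omega) hc hchoose
        have h5 : (f : ℝ) ≤ 2 * k := by exact_mod_cast hfk.le
        calc (k : ℝ) * r ≤ (3 * ((t : ℝ) + 1)) * f := hlow
          _ ≤ (3 * ((t : ℝ) + 1)) * (2 * (16 * κ)) := by
              apply mul_le_mul_of_nonneg_left _ (by positivity)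
              linarith
          _ = (96 * ((t : ℝ) + 1)) * κ := by ring
          _ ≤ (96 * ((t : ℝ) + 1)) * ((f : ℝ) - k) := by
              apply mul_le_mul_of_nonneg_left _ (by positivity)
              linarith
          _ ≤ _ := by
              apply mul_le_mul_of_nonneg_right _ (by linarith)
              linarith
      · have h5 : (2 * (k : ℝ)) ≤ f := by exact_mod_cast hfk
        calc (k : ℝ) * r ≤ (3 * ((t : ℝ) + 1)) * f := hlow
          _ ≤ (3 * ((t : ℝ) + 1)) * (2 * ((f : ℝ) - k)) := by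
              apply mul_le_mul_of_nonneg_left _ (by positivity)
              linarith
          _ = (6 * ((t : ℝ) + 1)) * ((f : ℝ) - k) := by ring
          _ ≤ _ := by
              apply mul_le_mul_of_nonneg_right _ (by linarith)
              linarith
    · push Not at hc
      have h4 := excess_lower_large N k κ hN hκ1 hc hchoose
      calc 1 + L / Real.logb 2 (k / L) ≤ 33 * κ := by linarith
        _ ≤ 33 * ((f : ℝ) - k) := by linarith
        _ ≤ _ := by
            apply mul_le_mul_of_nonneg_right _ (by linarith)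
            linarith
  · -- upper bounds
    unfold excess
    rw [← hL, ← hcast, ← hr]
    split_ifs with hc
    · calc (f : ℝ) - k ≤ D * (k * r) := by linarith
        _ ≤ _ := by
            apply mul_le_mul_of_nonneg_right _ (by positivity)
            linarith
    · push Not at hc
      set R := (k : ℝ) / L with hR
      have hR2 : 2 ≤ R := by rw [hR, le_div_iff₀ hL0]; linarith
      have hl1 : 1 ≤ Real.logb 2 R := by
        rw [Real.le_logb_iff_rpow_le (by norm_num) (by linarith), Real.rpow_one]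
        exact hR2
      have hE0 : 0 ≤ L / Real.logb 2 R := by positivity
      rcases le_or_gt (K * L) k with hkK | hkK
      · obtain ⟨f₁, hf₁, hf₁le⟩ := excess_upper_large t N k M hN (by omega) (by omega) (by omega) hkK
        have h4 : (f : ℝ) ≤ f₁ := by exact_mod_cast Nat.sInf_le hf₁
        calc (f : ℝ) - k ≤ f₁ - k := by linarith
          _ ≤ M * (1 + L / Real.logb 2 R) := hf₁le
          _ ≤ _ := by
              apply mul_le_mul_of_nonneg_right _ (by positivity)
              linarith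
      · -- `r ≤ 2 ^ (t + 1)`
        have hjpos : (0 : ℝ) < ((k - t : ℕ) : ℝ) := by
          have : 0 < k - t := by omega
          exact_mod_cast this
        have hr2 : r ≤ 2 ^ (t + 1) := by
          have h5 : (N : ℝ) = (2 : ℝ) ^ L := by
            rw [hL, Real.rpow_logb (by norm_num) (by norm_num) (by positivity)]
          rw [hr, h5, ← Real.rpow_mul (by norm_num), ← Real.rpow_natCast 2 (t + 1)]
          apply Real.rpow_le_rpow_of_exponent_le (by norm_num)
          rw [mul_one_div, div_le_iff₀ hjpos]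
          push_cast
          nlinarith
        have hRK : R < K := by
          rw [hR, div_lt_iff₀ hL0]; exact hkK
        have hlK : Real.logb 2 R ≤ K := (logb_le_self R (by linarith)).trans hRK.le
        have hLE : L ≤ K * (L / Real.logb 2 R) := by
          rw [mul_div_assoc', le_div_iff₀ (by linarith)]
          nlinarith
        calc (f : ℝ) - k ≤ D * (k * r) := by linarith
          _ ≤ D * ((K * L) * 2 ^ (t + 1)) := by
              apply mul_le_mul_of_nonneg_left _ (by linarith)
              exact mul_le_mul hkK.le hr2 hrpos (by positivity)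
          _ = (D * 2 ^ (t + 1) * K) * L := by ring
          _ ≤ (D * 2 ^ (t + 1) * K) * (K * (L / Real.logb 2 R)) :=
              mul_le_mul_of_nonneg_left hLE (by positivity)
          _ = A * (L / Real.logb 2 R) := by rw [hA]; ring
          _ ≤ A * (1 + L / Real.logb 2 R) :=
              mul_le_mul_of_nonneg_left (by linarith) hA0
          _ ≤ _ := by
              apply mul_le_mul_of_nonneg_right _ (by positivity)
              linarith

end Pool.Agent.H73.FoundationOrderAux
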