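import Mathlib
import Pool.Agent.H73.FoundationOrderAux
import Pool.Agent.H73.Baranyai

/-!
# MP_832176_co, Q2: exact values of the minimum foundation for `t = 1`

With Baranyai's theorem (partitions of all `k`-subsets of a `jk`-set into parallel classes) and the
complementary construction.
-/

set_option autoImplicit false

namespace Pool.Agent.H73.FoundationOneAux

open Finset Pool.Agent.H73.FoundationOrderAux

/-- Baranyai's factorisation as a trade. -/
lemma baranyai_trade (N j k : ℕ) (hk : 1 ≤ k) (hj : 1 ≤ j) (hN1 : 1 ≤ N)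
    (hN : N ≤ (j * k - 1).choose (k - 1)) :
    ∃ T : Fin N → Multiset (Finset (Fin (j * k))), IsTrade N 1 k T ∧ foundation T = univ := by
  obtain ⟨A, hcard, hk', hcov, hdis⟩ := Baranyai.baranyai j k hk hj
  refine ⟨fun i => A (Fin.castLE hN i), ⟨?_, ?_, ?_, ?_⟩, ?_⟩
  · intro i h
    have h1 := hcard (Fin.castLE hN i)
    have h2 : A (Fin.castLE hN i) = 0 := h
    rw [h2] at h1
    simp at h1
    omega
  · intro i B hB
    exact hk' _ B hB
  · intro i i' hne B hB
    exact hdis _ _ (fun h => hne (Fin.castLE_injective hN h)) B hB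
  · intro i i' S hS
    obtain ⟨x, rfl⟩ := card_eq_one.1 hS
    simp only [singleton_subset_iff]
    rw [hcov, hcov]
  · ext x
    refine ⟨fun _ => mem_univ x, fun _ => ?_⟩
    have h0 : 0 < (A (Fin.castLE hN ⟨0, hN1⟩)).countP (fun S => x ∈ S) := by
      rw [hcov]; norm_num
    obtain ⟨B, hB, hx⟩ := Multiset.countP_pos.1 h0
    exact sub_foundation (T := fun i => A (Fin.castLE hN i)) (i := ⟨0, hN1⟩) hB hx

/-- Every leg of a trade of strength one covers the foundation. -/
lemma cover {N k : ℕ} {X : Type} [Fintype X] [DecidableEq X]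
    {T : Fin N → Multiset (Finset X)} (hT : IsTrade N 1 k T) (i : Fin N) :
    foundation T ⊆ (T i).toFinset.biUnion id := by
  classical
  intro x hx
  have h : x ∈ foundation T ↔ ∃ i, ∃ B ∈ T i, x ∈ B := by
    unfold foundation
    simp
  obtain ⟨i', B, hB, hxB⟩ := h.1 hx
  have h1 : 0 < (T i).countP (fun B => {x} ⊆ B) := by
    rw [hT.2.2.2 i i' {x} (card_singleton x)]
    exact Multiset.countP_pos.2 ⟨B, hB, by simpa using hxB⟩
  obtain ⟨C, hC, hxC⟩ := Multiset.countP_pos.1 h1
  rw [mem_biUnion]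
  exact ⟨C, Multiset.mem_toFinset.2 hC, by simpa using hxC⟩

/-- Counting distinct blocks: each leg has at least `j` distinct blocks if the foundation has more
than `(j - 1) k` points. -/
lemma blocks_le {N j k : ℕ} {X : Type} [Fintype X] [DecidableEq X]
    {T : Fin N → Multiset (Finset X)} (hT : IsTrade N 1 k T)
    (hf : (j - 1) * k < (foundation T).card) : j * N ≤ (foundation T).card.choose k := by
  classical
  have h1 : ∀ i, j ≤ (T i).toFinset.card := by
    intro i
    by_contra hlt
    push Not at hlt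
    have h2 : (foundation T).card ≤ (T i).toFinset.card * k := by
      calc (foundation T).card ≤ ((T i).toFinset.biUnion id).card := card_le_card (cover hT i)
        _ ≤ (T i).toFinset.card * k := by
            apply card_biUnion_le_card_mul
            intro B hB
            exact (hT.2.1 i B (Multiset.mem_toFinset.1 hB)).le
    have h3 : (T i).toFinset.card * k ≤ (j - 1) * k := Nat.mul_le_mul_right _ (by omega)
    omega
  calc j * N = ∑ _i : Fin N, j := by simp [mul_comm]
    _ ≤ ∑ i : Fin N, (T i).toFinset.card := sum_le_sum (fun i _ => h1 i)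
    _ = (univ.biUnion (fun i => (T i).toFinset)).card := by
        rw [card_biUnion]
        intro i _ i' _ hne
        change Disjoint (T i).toFinset (T i').toFinset
        rw [disjoint_left]
        intro B hB hB'
        exact hT.2.2.1 i i' hne B (Multiset.mem_toFinset.1 hB) (Multiset.mem_toFinset.1 hB')
    _ ≤ (powersetCard k (foundation T)).card := by
        apply card_le_card
        intro B hB
        obtain ⟨i, -, hi⟩ := mem_biUnion.1 hB
        have hi' := Multiset.mem_toFinset.1 hi
        exact mem_powersetCard.2 ⟨sub_foundation hi', hT.2.1 i B hi'⟩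
    _ = _ := card_powersetCard _ _

lemma choose_add (n a κ : ℕ) :
    n.choose (κ + 1) + a * n.choose κ ≤ (n + a).choose (κ + 1) := by
  induction a with
  | zero => simp
  | succ a ih =>
      have h1 : (n + (a + 1)).choose (κ + 1) = (n + a).choose κ + (n + a).choose (κ + 1) := by
        rw [← add_assoc, Nat.choose_succ_succ]
      have h2 : n.choose κ ≤ (n + a).choose κ := Nat.choose_le_choose κ (by omega)
      rw [h1]
      linarith [add_mul a 1 (n.choose κ)]

lemma choose_ineq (j k : ℕ) (hj : 2 ≤ j) (hk : 2 ≤ k) :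
    j * ((j - 1) * k - 1).choose (k - 1) ≤ (j * k - 1).choose k := by
  obtain ⟨i, rfl⟩ : ∃ i, j = i + 2 := ⟨j - 2, by omega⟩
  obtain ⟨κ, rfl⟩ : ∃ κ, k = κ + 1 := ⟨k - 1, by omega⟩
  have e1 : (i + 2 - 1) * (κ + 1) - 1 = i * (κ + 1) + κ := by
    have : (i + 2 - 1) * (κ + 1) = i * (κ + 1) + κ + 1 := by
      rw [show i + 2 - 1 = i + 1 by omega]; ring
    omega
  have e2 : (i + 2) * (κ + 1) - 1 = (i * (κ + 1) + κ) + (κ + 1) := by
    have : (i + 2) * (κ + 1) = (i * (κ + 1) + κ) + (κ + 1) + 1 := by ring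
    omega
  rw [e1, e2, Nat.add_sub_cancel]
  set n := i * (κ + 1) + κ with hn
  have h1 := choose_add n (κ + 1) κ
  have h2 : n.choose (κ + 1) = i * n.choose κ := by
    have h3 := Nat.choose_succ_right_eq n κ
    have h4 : n - κ = i * (κ + 1) := by omega
    rw [h4] at h3
    have h5 : n.choose (κ + 1) * (κ + 1) = (i * n.choose κ) * (κ + 1) := by rw [h3]; ring
    exact Nat.eq_of_mul_eq_mul_right (by omega) h5
  rw [h2] at h1
  calc (i + 2) * n.choose κ ≤ (i + (κ + 1)) * n.choose κ := Nat.mul_le_mul_right _ (by omega)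
    _ = i * n.choose κ + (κ + 1) * n.choose κ := by ring
    _ ≤ _ := h1

/-- `t = 1`, foundation `j k`. -/
theorem exact_mul (N k j : ℕ) (hN : 2 ≤ N) (hk : 2 ≤ k) (hj : 2 ≤ j)
    (h1 : (j * k - 1).choose k < j * N) (h2 : N ≤ (j * k - 1).choose (k - 1)) :
    IsLeast (FoundationSizes N 1 k) (j * k) := by
  constructor
  · obtain ⟨T, hT, hf⟩ := baranyai_trade N j k (by omega) (by omega) (by omega) h2
    exact ⟨Fin (j * k), inferInstance, inferInstance, T, hT, by
      rw [hf, card_univ, Fintype.card_fin]⟩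
  · intro f hf
    by_contra hlt
    push Not at hlt
    have h3 := ((main 1).2.1 N k f hN (by omega) hf).2.2
    obtain ⟨X, i1, i2, T, hT, rfl⟩ := hf
    set f := (foundation T).card with hf
    rcases lt_or_ge ((j - 1) * k) f with hc | hc
    · have h4 : j * N ≤ f.choose k := blocks_le hT hc
      have h5 : f.choose k ≤ (j * k - 1).choose k := Nat.choose_le_choose k (by omega)
      omega
    · have h4 : (f - 1).choose (k - 1) ≤ ((j - 1) * k - 1).choose (k - 1) :=
        Nat.choose_le_choose _ (by omega)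
      have h5 := choose_ineq j k hj hk
      have h6 : j * N ≤ j * ((j - 1) * k - 1).choose (k - 1) :=
        Nat.mul_le_mul_left _ (h3.trans h4)
      omega

/-- The complements of the blocks in the foundation form a trade. -/
lemma compl_sub {N k : ℕ} (hk : 2 ≤ k) {X : Type} [Fintype X] [DecidableEq X]
    {T : Fin N → Multiset (Finset X)} (hT : IsTrade N 1 k T) :
    IsTrade N 1 ((foundation T).card - k) (fun i => (T i).map (fun B => foundation T \ B)) := by
  classical
  refine ⟨?_, ?_, ?_, ?_⟩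
  · intro i h
    obtain ⟨B, hB⟩ := Multiset.exists_mem_of_ne_zero (hT.1 i)
    have : foundation T \ B ∈ (T i).map (fun B => foundation T \ B) :=
      Multiset.mem_map_of_mem _ hB
    have h' : (T i).map (fun B => foundation T \ B) = 0 := h
    rw [h'] at this
    simp at this
  · intro i C hC
    obtain ⟨B, hB, rfl⟩ := Multiset.mem_map.1 hC
    rw [card_sdiff_of_subset (sub_foundation hB), hT.2.1 i B hB]
  · intro i j hij C hC hC'
    obtain ⟨B, hB, rfl⟩ := Multiset.mem_map.1 hC
    obtain ⟨B', hB', he⟩ := Multiset.mem_map.1 hC'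
    have h1 : foundation T \ (foundation T \ B') = foundation T \ (foundation T \ B) := by
      rw [he]
    rw [Finset.sdiff_sdiff_eq_self (sub_foundation hB),
      Finset.sdiff_sdiff_eq_self (sub_foundation hB')] at h1
    subst h1
    exact hT.2.2.1 i j hij _ hB hB'
  · intro i j S hS
    obtain ⟨x, rfl⟩ := card_eq_one.1 hS
    have key : ∀ i, ((T i).map (fun B => foundation T \ B)).countP (fun C => {x} ⊆ C)
        = if x ∈ foundation T then (T i).countP (fun B => ∅ ⊆ B ∧ Disjoint {x} B) else 0 := by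
      intro i
      rw [Multiset.countP_map, Multiset.countP_eq_card_filter]
      split_ifs with hx
      · congr 1
        apply Multiset.filter_congr
        intro B _
        rw [singleton_subset_iff, mem_sdiff, disjoint_singleton_left]
        constructor
        · rintro ⟨-, h⟩
          exact ⟨empty_subset _, h⟩
        · rintro ⟨-, h⟩
          exact ⟨hx, h⟩
      · rw [Multiset.card_eq_zero, Multiset.filter_eq_nil]
        intro B _ h
        rw [singleton_subset_iff, mem_sdiff] at h
        exact hx h.1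
    rw [key, key]
    split_ifs with hx
    · apply FoundationLargeBlocks.avoid (by omega) hT i j {x} ∅
      rw [card_empty, card_singleton]
    · rfl

lemma choose_ineq2 (k m c : ℕ) (hm : 3 ≤ m) (hmk : m ≤ k + 2)
    (hc : (c - 1) * (m - 1) < k + m - 1) :
    c * (k + m - 3).choose k ≤ (k + m - 1).choose k := by
  obtain ⟨u, rfl⟩ : ∃ u, m = u + 3 := ⟨m - 3, by omega⟩
  rcases Nat.eq_zero_or_pos c with h0 | hc0
  · subst h0; simp
  obtain ⟨a, rfl⟩ : ∃ a, c = a + 1 := ⟨c - 1, by omega⟩
  rw [show k + (u + 3) - 3 = k + u by omega, show k + (u + 3) - 1 = k + u + 2 by omega]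
  rw [show a + 1 - 1 = a by omega, show u + 3 - 1 = u + 2 by omega,
    show k + (u + 3) - 1 = k + u + 2 by omega] at hc
  have h1 : (k + u).choose k = (k + u).choose u := by
    rw [← Nat.choose_symm_of_eq_add (by omega : k + u = k + u)]
  have h2 : (k + u + 2).choose k = (k + u + 2).choose (u + 2) :=
    Nat.choose_symm_of_eq_add (by omega)
  have h3 : (u + 2) * ((k + u + 2).choose (u + 2)) = (k + u + 2) * (k + u + 1).choose (u + 1) := by
    have := Nat.add_one_mul_choose_eq (k + u + 1) (u + 1)
    linarith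
  have h4 : (u + 1) * ((k + u + 1).choose (u + 1)) = (k + u + 1) * (k + u).choose u := by
    have := Nat.add_one_mul_choose_eq (k + u) u
    linarith
  rw [h1, h2]
  have h5 : (u + 2) * (u + 1) * (k + u + 2).choose (u + 2)
      = (k + u + 2) * (k + u + 1) * (k + u).choose u := by
    calc (u + 2) * (u + 1) * (k + u + 2).choose (u + 2)
        = (u + 1) * ((u + 2) * (k + u + 2).choose (u + 2)) := by ring
      _ = (k + u + 2) * ((u + 1) * (k + u + 1).choose (u + 1)) := by rw [h3]; ring
      _ = _ := by rw [h4]; ring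
  have h6 : (a + 1) * ((u + 2) * (u + 1)) ≤ (k + u + 2) * (k + u + 1) := by
    have h7 : (a + 1) * (u + 2) ≤ k + 2 * u + 3 := by nlinarith
    have h8 : (a + 1) * ((u + 2) * (u + 1)) ≤ (k + 2 * u + 3) * (u + 1) := by
      calc (a + 1) * ((u + 2) * (u + 1)) = ((a + 1) * (u + 2)) * (u + 1) := by ring
        _ ≤ _ := Nat.mul_le_mul_right _ h7
    have h9 : u + 1 ≤ k := by omega
    obtain ⟨d, hd⟩ := Nat.exists_eq_add_of_le h9
    rw [hd] at h8 ⊢
    nlinarith [Nat.zero_le (d * u), Nat.zero_le (d * d)]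
  have h10 : (u + 2) * (u + 1) * ((a + 1) * (k + u).choose u)
      ≤ (u + 2) * (u + 1) * (k + u + 2).choose (u + 2) := by
    rw [h5]
    calc (u + 2) * (u + 1) * ((a + 1) * (k + u).choose u)
        = ((a + 1) * ((u + 2) * (u + 1))) * (k + u).choose u := by ring
      _ ≤ _ := Nat.mul_le_mul_right _ h6
  exact Nat.le_of_mul_le_mul_left h10 (by positivity)

lemma choose_ineq3 (a μ f : ℕ) (ha : 1 ≤ a) (hμ : 1 ≤ μ) (hf : a * μ < f) :
    (a + 1) * (a * μ - 1).choose (μ - 1) ≤ f.choose μ := by
  obtain ⟨i, rfl⟩ : ∃ i, a = i + 1 := ⟨a - 1, by omega⟩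
  obtain ⟨κ, rfl⟩ : ∃ κ, μ = κ + 1 := ⟨μ - 1, by omega⟩
  have e1 : (i + 1) * (κ + 1) - 1 = i * (κ + 1) + κ := by
    have : (i + 1) * (κ + 1) = i * (κ + 1) + κ + 1 := by ring
    omega
  rw [e1, Nat.add_sub_cancel]
  set n := i * (κ + 1) + κ with hn
  have h1 := choose_add n 2 κ
  have h2 : n.choose (κ + 1) = i * n.choose κ := by
    have h3 := Nat.choose_succ_right_eq n κ
    have h4 : n - κ = i * (κ + 1) := by omega
    rw [h4] at h3
    have h5 : n.choose (κ + 1) * (κ + 1) = (i * n.choose κ) * (κ + 1) := by rw [h3]; ring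
    exact Nat.eq_of_mul_eq_mul_right (by omega) h5
  rw [h2] at h1
  have h6 : n + 2 ≤ f := by
    have : (i + 1) * (κ + 1) = n + 1 := by rw [hn]; ring
    omega
  calc (i + 1 + 1) * n.choose κ = i * n.choose κ + 2 * n.choose κ := by ring
    _ ≤ (n + 2).choose (κ + 1) := h1
    _ ≤ _ := Nat.choose_le_choose _ h6

/-- `t = 1`, foundation `k + m`. -/
theorem exact_add (N k m c : ℕ) (hN : 2 ≤ N) (hk : 2 ≤ k) (hm : 1 ≤ m)
    (hc : (c - 1) * (m - 1) < k + m - 1) (h1 : (k + m - 1).choose k < c * N)
    (h2 : N ≤ (m * (k / m + 1) - 1).choose (m - 1)) :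
    IsLeast (FoundationSizes N 1 k) (k + m) := by
  have hm2 : 2 ≤ m := by
    by_contra h
    have : m = 1 := by omega
    subst this
    simp at h2
    omega
  have hmk : m ≤ k := by
    by_contra h
    rw [Nat.div_eq_of_lt (by omega)] at h2
    simp at h2
    omega
  have hlow : ∀ f ∈ FoundationSizes N 1 k, k + m ≤ f := by
    intro f hf
    by_contra hlt
    push Not at hlt
    obtain ⟨h3, h4, -⟩ := (main 1).2.1 N k f hN (by omega) hf
    have hm3 : 3 ≤ m := by omega
    rcases lt_or_ge f (k + m - 1) with hs | hs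
    · have h5 : (f - 1).choose k ≤ (k + m - 3).choose k := Nat.choose_le_choose _ (by omega)
      have h6 := choose_ineq2 k m c hm3 (by omega) hc
      have h7 : c * N ≤ c * (k + m - 3).choose k := Nat.mul_le_mul_left _ (h4.trans h5)
      omega
    · have hfe : f = k + m - 1 := by omega
      obtain ⟨X, i1, i2, T, hT, hfT⟩ := hf
      have hT' := compl_sub hk hT
      rw [hfT, hfe, show k + m - 1 - k = m - 1 by omega] at hT'
      set T' : Fin N → Multiset (Finset X) := fun i => (T i).map (fun B => foundation T \ B)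
        with hT'def
      have hy : (foundation T').card ≤ k + m - 1 := by
        rw [← hfe, ← hfT]
        apply card_le_card
        intro x hx
        have h : x ∈ foundation T' ↔ ∃ i, ∃ B ∈ T' i, x ∈ B := by
          unfold foundation
          simp
        obtain ⟨i, B, hB, hxB⟩ := h.1 hx
        obtain ⟨B', -, rfl⟩ := Multiset.mem_map.1 hB
        exact (mem_sdiff.1 hxB).1
      have hsym : (k + m - 1).choose k = (k + m - 1).choose (m - 1) :=
        Nat.choose_symm_of_eq_add (by omega)
      rw [hsym] at h1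
      rcases lt_or_ge ((c - 1) * (m - 1)) (foundation T').card with hc' | hc'
      · have h5 := blocks_le hT' hc'
        have h6 : (foundation T').card.choose (m - 1) ≤ (k + m - 1).choose (m - 1) :=
          Nat.choose_le_choose _ hy
        omega
      · have h5 : N ≤ ((foundation T').card - 1).choose (m - 1 - 1) :=
          legs_le (by omega) (by omega) hT'
        have hpos : 2 ≤ c := by
          by_contra hcc
          have : c - 1 = 0 := by omega
          rw [this, zero_mul] at hc'
          have h8 : (foundation T').card = 0 := by omega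
          rw [h8] at h5
          have : Nat.choose (0 - 1) (m - 1 - 1) ≤ 1 := by
            rw [Nat.zero_sub]
            rcases Nat.eq_zero_or_pos (m - 1 - 1) with h | h
            · rw [h]; simp
            · rw [Nat.choose_eq_zero_of_lt h]; omega
          omega
        have h6 : ((foundation T').card - 1).choose (m - 1 - 1)
            ≤ ((c - 1) * (m - 1) - 1).choose (m - 1 - 1) := Nat.choose_le_choose _ (by omega)
        have h7 := choose_ineq3 (c - 1) (m - 1) (k + m - 1) (by omega) (by omega) hc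
        rw [show c - 1 + 1 = c by omega] at h7
        have h8 : c * N ≤ c * ((c - 1) * (m - 1) - 1).choose (m - 1 - 1) :=
          Nat.mul_le_mul_left _ (h5.trans h6)
        omega
  obtain ⟨T, hT, -⟩ := baranyai_trade N (k / m + 1) m (by omega) (Nat.le_add_left 1 _) (by omega)
    (by rw [mul_comm]; exact h2)
  obtain ⟨f, hf, hle⟩ := compl_trade (by omega) hT k (by
    rw [Fintype.card_fin, add_mul, one_mul]
    have := Nat.div_mul_le_self k m
    omega)
  have := hlow f hf
  have : f = k + m := by omega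
  subst this
  exact ⟨hf, hlow⟩

/-- `t = 1`, foundation `k + 2`. -/
theorem exact_k2 (N k : ℕ) (hN : 2 ≤ N) (hk : 2 ≤ k) (h : N ≤ 2 * (k / 2) + 1) :
    IsLeast (FoundationSizes N 1 k) (k + 2) := by
  apply exact_add N k 2 (k + 1) hN hk (by omega) (by omega)
  · rw [show k + 2 - 1 = k + 1 by omega, Nat.choose_succ_self_right]
    nlinarith
  · rw [show (2 : ℕ) - 1 = 1 by norm_num, Nat.choose_one_right]
    omega

/-- `t = 1`, foundation `k + 3`. -/
theorem exact_k3 (N k : ℕ) (hk : 2 ≤ k) (h1 : 2 * (k / 2) + 1 < N)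
    (h2 : N ≤ (3 * (k / 3) + 2).choose 2) :
    IsLeast (FoundationSizes N 1 k) (k + 3) := by
  apply exact_add N k 3 ((k + 3) / 2) (by omega) hk (by omega) (by omega)
  · rw [show k + 3 - 1 = k + 2 by omega]
    have h3 : (k + 2).choose k = (k + 2).choose 2 := Nat.choose_symm_of_eq_add (by omega)
    rw [h3, Nat.choose_two_right, show k + 2 - 1 = k + 1 by omega]
    rcases Nat.even_or_odd k with ⟨a, ha⟩ | ⟨a, ha⟩
    · subst ha
      have e1 : (a + a + 3) / 2 = a + 1 := by omega
      have e2 : (a + a + 2) * (a + a + 1) / 2 = (a + 1) * (2 * a + 1) := by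
        rw [show (a + a + 2) * (a + a + 1) = ((a + 1) * (2 * a + 1)) * 2 by ring,
          Nat.mul_div_cancel _ (by norm_num)]
      rw [e1, e2]
      apply Nat.mul_lt_mul_of_pos_left _ (by omega)
      omega
    · subst ha
      have e1 : (2 * a + 1 + 3) / 2 = a + 2 := by omega
      have e2 : (2 * a + 1 + 2) * (2 * a + 1 + 1) / 2 = (2 * a + 3) * (a + 1) := by
        rw [show (2 * a + 1 + 2) * (2 * a + 1 + 1) = ((2 * a + 3) * (a + 1)) * 2 by ring,
          Nat.mul_div_cancel _ (by norm_num)]
      rw [e1, e2]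
      have : 2 * a + 2 ≤ N := by omega
      nlinarith
  · rw [show 3 * (k / 3 + 1) - 1 = 3 * (k / 3) + 2 by omega]
    exact h2

/-- `t = 1`, `k = 2`. -/
theorem exact_two (N : ℕ) (hN : 2 ≤ N) :
    IsLeast (FoundationSizes N 1 2) (2 * ((N + 2) / 2)) := by
  set j := (N + 2) / 2 with hj
  have hj2 : 2 ≤ j := by omega
  rw [mul_comm]
  apply exact_mul N 2 j hN le_rfl hj2
  · have h1 : (j * 2 - 1).choose 2 = (2 * j - 1) * (j - 1) := by
      rw [Nat.choose_two_right]
      have : (j * 2 - 1) * (j * 2 - 1 - 1) = ((2 * j - 1) * (j - 1)) * 2 := by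
        rw [show j * 2 - 1 - 1 = (j - 1) * 2 by omega, mul_comm j 2]; ring
      rw [this, Nat.mul_div_cancel _ (by norm_num)]
    rw [h1]
    obtain ⟨i, hi⟩ : ∃ i, j = i + 2 := ⟨j - 2, by omega⟩
    have hNi : 2 * i + 2 ≤ N := by omega
    rw [hi]
    calc (2 * (i + 2) - 1) * (i + 2 - 1) = (2 * i + 3) * (i + 1) := by
          rw [show 2 * (i + 2) - 1 = 2 * i + 3 by omega, show i + 2 - 1 = i + 1 by omega]
      _ < (i + 2) * (2 * i + 2) := by nlinarith
      _ ≤ _ := Nat.mul_le_mul_left _ hNi
  · rw [show 2 - 1 = 1 by norm_num, Nat.choose_one_right]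
    omega

/-- All parts together. -/
theorem main' :
    (∀ t : ℕ,
      (∀ N k : ℕ, 2 ≤ N → t < k → (N - 1) * (t + 1) ≤ k →
        IsLeast (FoundationSizes N t k) (k + t + 1)) ∧
      (∀ N k f : ℕ, 2 ≤ N → t < k → f ∈ FoundationSizes N t k →
        k + t + 1 ≤ f ∧ N ≤ (f - t).choose k ∧ N ≤ (f - t).choose (k - t)) ∧
      (∃ C : ℝ, 0 < C ∧ ∀ N k : ℕ, 2 ≤ N → t < k →
        ∃ f : ℕ, IsLeast (FoundationSizes N t k) f ∧
          excess N t k ≤ C * ((f : ℝ) - k) ∧ (f : ℝ) - k ≤ C * excess N t k)) ∧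
    (∀ N k m c : ℕ, 2 ≤ N → 2 ≤ k → 1 ≤ m → (c - 1) * (m - 1) < k + m - 1 →
      (k + m - 1).choose k < c * N → N ≤ (m * (k / m + 1) - 1).choose (m - 1) →
      IsLeast (FoundationSizes N 1 k) (k + m)) ∧
    (∀ N k : ℕ, 2 ≤ N → 2 ≤ k → N ≤ 2 * (k / 2) + 1 →
      IsLeast (FoundationSizes N 1 k) (k + 2)) ∧
    (∀ N k : ℕ, 2 ≤ k → 2 * (k / 2) + 1 < N → N ≤ (3 * (k / 3) + 2).choose 2 →
      IsLeast (FoundationSizes N 1 k) (k + 3)) ∧
    (∀ N k j : ℕ, 2 ≤ N → 2 ≤ k → 2 ≤ j → (j * k - 1).choose k < j * N →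
      N ≤ (j * k - 1).choose (k - 1) → IsLeast (FoundationSizes N 1 k) (j * k)) ∧
    (∀ N : ℕ, 2 ≤ N → IsLeast (FoundationSizes N 1 2) (2 * ((N + 2) / 2))) :=
  ⟨main, exact_add, exact_k2, exact_k3, exact_mul, exact_two⟩

end Pool.Agent.H73.FoundationOneAux
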