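import Mathlib
import Pool.Agent.H73.TradeTools
import Pool.Agent.H73.Density
import Pool.Agent.H73.FoundationLargeBlocks

/-!
# MP_832176_co, Q1: the minimum volume of `N`-legged trades for all `t`

General lower bounds for all `N, t, k` (a bound of Rao type and a bound of design type), matching
constructions from BCH codes (large `k`) and projected Reed-Solomon codes (all `k`).  For
`t = 2, 3`: the exact minimum volume `2 ^ (s + t - 2)` for large `k` and
`2 ^ (2 ^ s - 2) / (2 ^ s - 1) < N ≤ 2 ^ (2 ^ s - 1 - s)`; the asymptotic value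
`2 ^ (t - 2) * log₂ N` for `k ≥ (1 / 2 + ε) log₂ N` (from permuted Hadamard designs), and a larger
lower bound for `k ≤ (1 / 2 - ε) log₂ N`.
-/

set_option autoImplicit false

namespace Pool.Agent.H73.VolumeGrowthAux

open Finset

/-- the number of nonnegative integers `x < n` with at most `e` ones in binary -/
def lowWeight (n e : ℕ) : ℕ := ((range n).filter (fun x => x.bitIndices.length ≤ e)).card

lemma low_succ (n e : ℕ) :
    lowWeight (n + 1) e = lowWeight n e + if n.bitIndices.length ≤ e then 1 else 0 := by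
  unfold lowWeight
  rw [range_add_one, filter_insert]
  split_ifs with h
  · rw [card_insert_of_notMem (by simp)]
  · rfl

lemma low_zero (e : ℕ) : lowWeight 0 e = 0 := by simp [lowWeight]

lemma low_one (e : ℕ) : lowWeight 1 e = 1 := by
  rw [show (1 : ℕ) = 0 + 1 from rfl, low_succ, low_zero]; simp

lemma low_mono {n n' : ℕ} (h : n ≤ n') (e : ℕ) : lowWeight n e ≤ lowWeight n' e :=
  card_le_card (filter_subset_filter _ (range_subset_range.2 h))

lemma low_two_mul (a e : ℕ) : lowWeight (2 * a) (e + 1) = lowWeight a (e + 1) + lowWeight a e := by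
  induction a with
  | zero => simp [low_zero]
  | succ a ih =>
    rw [show 2 * (a + 1) = 2 * a + 1 + 1 by ring, low_succ, low_succ, ih, low_succ, low_succ]
    simp only [Nat.bitIndices_two_mul_add_one, Nat.bitIndices_two_mul, List.length_cons,
      List.length_map, add_le_add_iff_right]
    ring

lemma low_two_mul_add (a e : ℕ) :
    lowWeight (2 * a + 1) (e + 1) = lowWeight (a + 1) (e + 1) + lowWeight a e := by
  rw [low_succ, low_two_mul, low_succ]
  simp only [Nat.bitIndices_two_mul, List.length_map]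
  ring

lemma low_zero_right (n : ℕ) : lowWeight (n + 1) 0 = 1 := by
  induction n with
  | zero => exact low_one 0
  | succ n ih =>
    rw [low_succ, ih]
    have : ¬ ((n + 1).bitIndices.length ≤ 0) := by
      intro h
      have h0 : (n + 1).bitIndices = [] := List.length_eq_zero_iff.1 (by omega)
      have := Nat.sum_map_two_pow_bitIndices (n + 1)
      rw [h0] at this
      simp at this
    simp [this]

lemma low_add (a b : ℕ) (hb : b ≤ a) (e : ℕ) :
    lowWeight (a + b) (e + 1) ≤ lowWeight a (e + 1) + lowWeight b e := by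
  induction a using Nat.strong_induction_on generalizing b e with
  | _ a ih =>
    rcases hb.eq_or_lt with rfl | hlt
    · rw [← two_mul, low_two_mul]
    rcases Nat.eq_zero_or_pos b with rfl | hbpos
    · simp [low_zero]
    have ha2 : 2 ≤ a := by omega
    cases e with
    | zero =>
      obtain ⟨b', rfl⟩ : ∃ b', b = b' + 1 := ⟨b - 1, by omega⟩
      rw [low_zero_right]
      rcases Nat.even_or_odd' a with ⟨a', rfl | rfl⟩ <;>
      rcases Nat.even_or_odd' (b' + 1) with ⟨b'', hb'' | hb''⟩ <;> rw [hb'']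
      · rw [show 2 * a' + 2 * b'' = 2 * (a' + b'') by ring, low_two_mul, low_two_mul]
        have := ih a' (by omega) b'' (by omega) 0
        obtain ⟨c, hc⟩ : ∃ c, b'' = c + 1 := ⟨b'' - 1, by omega⟩
        obtain ⟨d, hd⟩ : ∃ d, a' = d + 1 := ⟨a' - 1, by omega⟩
        have h1 : lowWeight b'' 0 = 1 := by rw [hc]; exact low_zero_right _
        have h2 : lowWeight a' 0 = 1 := by rw [hd]; exact low_zero_right _
        have h3 : lowWeight (a' + b'') 0 = 1 := by
          rw [hc, ← add_assoc]; exact low_zero_right _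
        omega
      · rw [show 2 * a' + (2 * b'' + 1) = 2 * (a' + b'') + 1 by ring, low_two_mul_add, low_two_mul]
        have := ih a' (by omega) (b'' + 1) (by omega) 0
        obtain ⟨d, hd⟩ : ∃ d, a' = d + 1 := ⟨a' - 1, by omega⟩
        have h1 : lowWeight (b'' + 1) 0 = 1 := low_zero_right _
        have h2 : lowWeight a' 0 = 1 := by rw [hd]; exact low_zero_right _
        have h3 : lowWeight (a' + b'') 0 = 1 := by
          rw [hd, show d + 1 + b'' = d + b'' + 1 by ring]; exact low_zero_right _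
        rw [← add_assoc] at this
        omega
      · rw [show 2 * a' + 1 + 2 * b'' = 2 * (a' + b'') + 1 by ring, low_two_mul_add,
          low_two_mul_add]
        have := ih (a' + 1) (by omega) b'' (by omega) 0
        obtain ⟨c, hc⟩ : ∃ c, b'' = c + 1 := ⟨b'' - 1, by omega⟩
        obtain ⟨d, hd⟩ : ∃ d, a' = d + 1 := ⟨a' - 1, by omega⟩
        have h1 : lowWeight b'' 0 = 1 := by rw [hc]; exact low_zero_right _
        have h2 : lowWeight a' 0 = 1 := by rw [hd]; exact low_zero_right _
        have h3 : lowWeight (a' + b'') 0 = 1 := by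
          rw [hc, ← add_assoc]; exact low_zero_right _
        rw [show a' + 1 + b'' = a' + b'' + 1 by ring] at this
        omega
      · rw [show 2 * a' + 1 + (2 * b'' + 1) = 2 * (a' + b'' + 1) by ring, low_two_mul,
          low_two_mul_add]
        have := ih (a' + 1) (by omega) b'' (by omega) 0
        obtain ⟨d, hd⟩ : ∃ d, a' = d + 1 := ⟨a' - 1, by omega⟩
        have h2 : lowWeight a' 0 = 1 := by rw [hd]; exact low_zero_right _
        have h3 : lowWeight (a' + b'' + 1) 0 = 1 := low_zero_right _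
        have h4 : lowWeight b'' 0 ≤ 1 := by
          rcases Nat.eq_zero_or_pos b'' with h | h
          · rw [h, low_zero]; omega
          · obtain ⟨c, hc⟩ : ∃ c, b'' = c + 1 := ⟨b'' - 1, by omega⟩
            rw [hc, low_zero_right]
        rw [show a' + 1 + b'' = a' + b'' + 1 by ring] at this
        omega
    | succ e =>
      rcases Nat.even_or_odd' a with ⟨a', rfl | rfl⟩ <;>
      rcases Nat.even_or_odd' b with ⟨b', rfl | rfl⟩
      · rw [show 2 * a' + 2 * b' = 2 * (a' + b') by ring, low_two_mul, low_two_mul, low_two_mul]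
        have h1 := ih a' (by omega) b' (by omega) (e + 1)
        have h2 := ih a' (by omega) b' (by omega) e
        omega
      · rw [show 2 * a' + (2 * b' + 1) = 2 * (a' + b') + 1 by ring, low_two_mul_add, low_two_mul,
          low_two_mul_add]
        have h1 := ih a' (by omega) (b' + 1) (by omega) (e + 1)
        have h2 := ih a' (by omega) b' (by omega) e
        rw [← add_assoc] at h1
        omega
      · rw [show 2 * a' + 1 + 2 * b' = 2 * (a' + b') + 1 by ring, low_two_mul_add,
          low_two_mul_add, low_two_mul]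
        have h1 := ih (a' + 1) (by omega) b' (by omega) (e + 1)
        have h2 := ih a' (by omega) b' (by omega) e
        rw [show a' + 1 + b' = a' + b' + 1 by ring] at h1
        omega
      · rw [show 2 * a' + 1 + (2 * b' + 1) = 2 * (a' + b' + 1) by ring, low_two_mul,
          low_two_mul_add, low_two_mul_add]
        have h1 := ih (a' + 1) (by omega) b' (by omega) (e + 1)
        have h2 := ih a' (by omega) (b' + 1) (by omega) e
        rw [show a' + 1 + b' = a' + b' + 1 by ring] at h1
        rw [← add_assoc] at h2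
        rw [low_succ b' e] at h2
        rw [low_succ b' (e + 1)]
        have h3 : (if b'.bitIndices.length ≤ e then 1 else 0)
            ≤ (if b'.bitIndices.length ≤ e + 1 then 1 else 0) := by
          split_ifs <;> omega
        omega

lemma low_add_zero (a b : ℕ) (hb : b ≤ a) : lowWeight (a + b) 0 ≤ lowWeight a 0 := by
  rcases Nat.eq_zero_or_pos a with rfl | ha
  · simp [Nat.le_zero.1 hb]
  · obtain ⟨d, rfl⟩ : ∃ d, a = d + 1 := ⟨a - 1, by omega⟩
    rw [low_zero_right, show d + 1 + b = d + b + 1 by ring, low_zero_right]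

lemma low_pow (d e : ℕ) : lowWeight (2 ^ d) e = ∑ i ∈ range (e + 1), d.choose i := by
  induction d generalizing e with
  | zero =>
    rw [pow_zero, low_one, sum_range_succ']
    simp
  | succ d ih =>
    cases e with
    | zero =>
      have : 2 ^ (d + 1) = (2 ^ (d + 1) - 1) + 1 := by
        have := Nat.one_le_two_pow (n := d + 1)
        omega
      rw [this, low_zero_right]
      simp
    | succ e =>
      rw [pow_succ', low_two_mul, ih, ih]
      rw [sum_range_succ' (fun i => (d + 1).choose i), sum_range_succ' (fun i => d.choose i) (e + 1)]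
      simp only [Nat.choose_succ_succ, sum_add_distrib, Nat.choose_zero_right]
      ring

lemma low_one_right (n : ℕ) (hn : 1 ≤ n) : n ≤ 2 ^ (lowWeight n 1 - 1) ∧ 1 ≤ lowWeight n 1 := by
  induction n using Nat.strong_induction_on with
  | _ n ih =>
    rcases Nat.even_or_odd' n with ⟨a, rfl | rfl⟩
    · obtain ⟨h1, h2⟩ := ih a (by omega) (by omega)
      obtain ⟨c, hc⟩ : ∃ c, a = c + 1 := ⟨a - 1, by omega⟩
      have h0 : lowWeight a 0 = 1 := by rw [hc]; exact low_zero_right _
      rw [show (1 : ℕ) = 0 + 1 from rfl, low_two_mul]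
      simp only [zero_add] at *
      rw [h0]
      refine ⟨?_, by omega⟩
      obtain ⟨q, hq⟩ : ∃ q, lowWeight a 1 = q + 1 := ⟨lowWeight a 1 - 1, by omega⟩
      rw [hq] at h1 ⊢
      simp only [Nat.add_sub_cancel] at h1 ⊢
      rw [pow_succ]
      omega
    · rcases Nat.eq_zero_or_pos a with rfl | ha
      · simp [low_one]
      obtain ⟨h1, h2⟩ := ih (a + 1) (by omega) (by omega)
      obtain ⟨c, hc⟩ : ∃ c, a = c + 1 := ⟨a - 1, by omega⟩
      have h0 : lowWeight a 0 = 1 := by rw [hc]; exact low_zero_right _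
      rw [show lowWeight (2 * a + 1) 1 = lowWeight (a + 1) 1 + lowWeight a 0 from
        low_two_mul_add a 0, h0]
      refine ⟨?_, by omega⟩
      obtain ⟨q, hq⟩ : ∃ q, lowWeight (a + 1) 1 = q + 1 := ⟨lowWeight (a + 1) 1 - 1, by omega⟩
      rw [hq] at h1 ⊢
      simp only [Nat.add_sub_cancel] at h1 ⊢
      rw [pow_succ]
      omega

section standard

variable {X : Type} [DecidableEq X]

/-- the order-shattered sets: a family of sets whose inclusion functions are linearly
independent on `U`, with many small members -/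
lemma exists_standard (A : Finset X) : ∀ (U : Finset (Finset X)), (∀ B ∈ U, B ⊆ A) →
    ∃ D : Finset (Finset X), (∀ S ∈ D, S ⊆ A) ∧
      (∀ e, lowWeight U.card e ≤ (D.filter (fun S => S.card ≤ e)).card) ∧
      (∀ c : Finset X → ℝ, (∀ B ∈ U, ∑ S ∈ D, (if S ⊆ B then c S else 0) = 0) →
        ∀ S ∈ D, c S = 0) := by
  induction A using Finset.induction_on with
  | empty =>
    intro U hU
    have hU' : ∀ B ∈ U, B = ∅ := fun B hB => subset_empty.1 (hU B hB)
    rcases U.eq_empty_or_nonempty with rfl | ⟨B, hB⟩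
    · exact ⟨∅, by simp, fun e => by simp [low_zero], by simp⟩
    · have hU1 : U = {∅} := by
        apply eq_singleton_iff_unique_mem.2
        exact ⟨by rw [← hU' B hB]; exact hB, hU'⟩
      subst hU1
      refine ⟨{∅}, by simp, fun e => ?_, ?_⟩
      · rw [card_singleton, low_one]
        simp [filter_singleton]
      · intro c hc S hS
        have := hc ∅ (mem_singleton_self _)
        rw [mem_singleton] at hS
        subst hS
        simpa using this
  | insert x A hxA ih =>
    intro U hU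
    set U₀ := U.nonMemberSubfamily x with hU0
    set U₁ := U.memberSubfamily x with hU1
    have h0 : ∀ B ∈ U₀, B ⊆ A := by
      intro B hB
      obtain ⟨h1, h2⟩ := mem_nonMemberSubfamily.1 hB
      exact (subset_insert_iff_of_notMem h2).1 (hU B h1)
    have h1 : ∀ B ∈ U₁, B ⊆ A := by
      intro B hB
      obtain ⟨h1, h2⟩ := mem_memberSubfamily.1 hB
      intro y hy
      rcases mem_insert.1 (hU _ h1 (mem_insert_of_mem hy)) with rfl | h
      · exact absurd hy h2
      · exact h
    obtain ⟨D', hD1, hD2, hD3⟩ := ih (U₀ ∪ U₁) (by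
      intro B hB
      rcases mem_union.1 hB with h | h
      · exact h0 B h
      · exact h1 B h)
    obtain ⟨D'', hE1, hE2, hE3⟩ := ih (U₀ ∩ U₁) (fun B hB => h0 B (mem_inter.1 hB).1)
    have hxD : ∀ S ∈ D', x ∉ S := fun S hS h => hxA (hD1 S hS h)
    have hxE : ∀ S ∈ D'', x ∉ S := fun S hS h => hxA (hE1 S hS h)
    have hinj : Set.InjOn (insert x) (D'' : Set (Finset X)) := by
      intro S hS S' hS' h
      have h' := congrArg (fun T => T.erase x) h
      simpa [erase_insert (hxE S hS), erase_insert (hxE S' hS')] using h'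
    have hdisj : Disjoint D' (D''.image (insert x)) := by
      rw [disjoint_left]
      intro S hS hS'
      obtain ⟨S'', -, rfl⟩ := mem_image.1 hS'
      exact hxD _ hS (mem_insert_self _ _)
    have hcard : (U₀ ∪ U₁).card + (U₀ ∩ U₁).card = U.card := by
      rw [card_union_add_card_inter, add_comm, hU0, hU1,
        card_memberSubfamily_add_card_nonMemberSubfamily]
    have hle : (U₀ ∩ U₁).card ≤ (U₀ ∪ U₁).card :=
      card_le_card (inter_subset_left.trans subset_union_left)
    refine ⟨D' ∪ D''.image (insert x), ?_, ?_, ?_⟩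
    · intro S hS
      rcases mem_union.1 hS with h | h
      · exact (hD1 S h).trans (subset_insert _ _)
      · obtain ⟨S', hS', rfl⟩ := mem_image.1 h
        exact insert_subset_insert _ (hE1 S' hS')
    · intro e
      cases e with
      | zero =>
        rw [← hcard]
        refine (low_add_zero _ _ hle).trans ((hD2 0).trans ?_)
        exact card_le_card (filter_subset_filter _ subset_union_left)
      | succ e =>
        rw [← hcard]
        refine (low_add _ _ hle e).trans ((add_le_add (hD2 (e + 1)) (hE2 e)).trans ?_)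
        rw [← card_image_of_injOn (s := D''.filter (fun S => S.card ≤ e)) (f := insert x)
          (hinj.mono (coe_subset.2 (filter_subset _ _))), ← card_union_of_disjoint]
        · apply card_le_card
          intro S hS
          rcases mem_union.1 hS with h | h
          · obtain ⟨h1, h2⟩ := mem_filter.1 h
            exact mem_filter.2 ⟨mem_union_left _ h1, h2⟩
          · obtain ⟨S', hS', rfl⟩ := mem_image.1 h
            obtain ⟨h1, h2⟩ := mem_filter.1 hS'
            refine mem_filter.2 ⟨mem_union_right _ (mem_image_of_mem _ h1), ?_⟩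
            exact (card_insert_le _ _).trans (by omega)
        · exact hdisj.mono (filter_subset _ _) (image_subset_image (filter_subset _ _))
    · intro c hc
      -- the two kinds of equations
      have hsum : ∀ B, ∑ S ∈ D' ∪ D''.image (insert x), (if S ⊆ B then c S else 0)
          = ∑ S ∈ D', (if S ⊆ B then c S else 0)
            + ∑ S ∈ D'', (if insert x S ⊆ B then c (insert x S) else 0) := by
        intro B
        rw [sum_union hdisj, sum_image hinj]
      have e0 : ∀ B ∈ U₀, ∑ S ∈ D', (if S ⊆ B then c S else 0) = 0 := by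
        intro B hB
        obtain ⟨h1, h2⟩ := mem_nonMemberSubfamily.1 hB
        have := hc B h1
        rw [hsum] at this
        have h3 : ∑ S ∈ D'', (if insert x S ⊆ B then c (insert x S) else 0) = 0 := by
          apply sum_eq_zero
          intro S _
          rw [if_neg]
          intro h
          exact h2 (h (mem_insert_self _ _))
        rw [h3, add_zero] at this
        exact this
      have e1 : ∀ B ∈ U₁, ∑ S ∈ D', (if S ⊆ B then c S else 0)
          + ∑ S ∈ D'', (if S ⊆ B then c (insert x S) else 0) = 0 := by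
        intro B hB
        obtain ⟨h1, h2⟩ := mem_memberSubfamily.1 hB
        have := hc _ h1
        rw [hsum] at this
        have h3 : ∑ S ∈ D', (if S ⊆ insert x B then c S else 0)
            = ∑ S ∈ D', (if S ⊆ B then c S else 0) := by
          apply sum_congr rfl
          intro S hS
          simp only [subset_insert_iff_of_notMem (hxD S hS)]
        have h4 : ∑ S ∈ D'', (if insert x S ⊆ insert x B then c (insert x S) else 0)
            = ∑ S ∈ D'', (if S ⊆ B then c (insert x S) else 0) := by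
          apply sum_congr rfl
          intro S hS
          simp only [insert_subset_insert_iff (hxE S hS)]
        rw [h3, h4] at this
        exact this
      have hE : ∀ S ∈ D'', c (insert x S) = 0 := by
        apply hE3 (fun S => c (insert x S))
        intro B hB
        obtain ⟨hB0, hB1⟩ := mem_inter.1 hB
        have := e1 B hB1
        rw [e0 B hB0, zero_add] at this
        exact this
      have hD : ∀ S ∈ D', c S = 0 := by
        apply hD3 c
        intro B hB
        rcases mem_union.1 hB with h | h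
        · exact e0 B h
        · have := e1 B h
          have h3 : ∑ S ∈ D'', (if S ⊆ B then c (insert x S) else 0) = 0 := by
            apply sum_eq_zero
            intro S hS
            rw [hE S hS]
            simp
          rw [h3, add_zero] at this
          exact this
      intro S hS
      rcases mem_union.1 hS with h | h
      · exact hD S h
      · obtain ⟨S', hS', rfl⟩ := mem_image.1 h
        exact hE S' hS'

end standard

/-- `T = (T 0, …, T (N-1))` is an `N`-legged `(t,k)` trade on the finite set `X`: each leg is a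
nonempty finite multiset of `k`-subsets of `X`, two different legs have no block in common, and
every `t`-subset of `X` lies in the same number of blocks (with multiplicity) of each leg. -/
def IsTrade (N t k : ℕ) {X : Type} [DecidableEq X] (T : Fin N → Multiset (Finset X)) : Prop :=
  (∀ i, T i ≠ 0) ∧
  (∀ i, ∀ B ∈ T i, B.card = k) ∧
  (∀ i j, i ≠ j → ∀ B ∈ T i, B ∉ T j) ∧
  (∀ i j, ∀ S : Finset X, S.card = t →
    (T i).countP (fun B => S ⊆ B) = (T j).countP (fun B => S ⊆ B))

/-- The volumes of all `N`-legged `(t,k)` trades on all finite sets: the numbers `m` such that in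
some such trade every leg has exactly `m` blocks (with multiplicity). -/
def Volumes (N t k : ℕ) : Set ℕ :=
  {m | ∃ (X : Type) (_ : Fintype X) (_ : DecidableEq X) (T : Fin N → Multiset (Finset X)),
    IsTrade N t k T ∧ ∀ i, Multiset.card (T i) = m}

section lower

variable {X : Type} [Fintype X] [DecidableEq X]

lemma balanced {N t k : ℕ} (htk : t < k) {T : Fin N → Multiset (Finset X)}
    (hT : IsTrade N t k T) (i j : Fin N) (S : Finset X) (hS : S.card ≤ t) :
    (T i).countP (fun B => S ⊆ B) = (T j).countP (fun B => S ⊆ B) :=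
  FoundationLargeBlocks.balanced_le htk hT i j (t - S.card) S (by omega)

lemma avoid {N t k : ℕ} (htk : t < k) {T : Fin N → Multiset (Finset X)}
    (hT : IsTrade N t k T) (i j : Fin N) (U S : Finset X) (hS : S.card + U.card ≤ t) :
    (T i).countP (fun B => S ⊆ B ∧ Disjoint U B)
      = (T j).countP (fun B => S ⊆ B ∧ Disjoint U B) :=
  FoundationLargeBlocks.avoid htk hT i j U S hS

/-- derived trade -/
def derived {N : ℕ} (x : X) (T : Fin N → Multiset (Finset X)) (i : Fin N) :
    Multiset (Finset X) :=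
  ((T i).filter (fun B => x ∈ B)).map (fun B => B.erase x)

/-- residual trade -/
def residual {N : ℕ} (x : X) (T : Fin N → Multiset (Finset X)) (i : Fin N) :
    Multiset (Finset X) :=
  (T i).filter (fun B => x ∉ B)

lemma derived_isTrade {N t k : ℕ} (htk : t + 1 < k) {T : Fin N → Multiset (Finset X)}
    (hT : IsTrade N (t + 1) k T) (x : X) (hx : ∀ i, 0 < (T i).countP (fun B => x ∈ B)) :
    IsTrade N t (k - 1) (derived x T) := by
  refine ⟨?_, ?_, ?_, ?_⟩
  · intro i h
    obtain ⟨B, hB, hxB⟩ := Multiset.countP_pos.1 (hx i)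
    have : B.erase x ∈ derived x T i :=
      Multiset.mem_map.2 ⟨B, Multiset.mem_filter.2 ⟨hB, hxB⟩, rfl⟩
    rw [h] at this
    simp at this
  · intro i C hC
    obtain ⟨B, hB, rfl⟩ := Multiset.mem_map.1 hC
    obtain ⟨hB, hxB⟩ := Multiset.mem_filter.1 hB
    rw [card_erase_of_mem hxB, hT.2.1 i B hB]
  · intro i j hij C hC hC'
    obtain ⟨B, hB, rfl⟩ := Multiset.mem_map.1 hC
    obtain ⟨hB, hxB⟩ := Multiset.mem_filter.1 hB
    obtain ⟨B', hB', he⟩ := Multiset.mem_map.1 hC'
    obtain ⟨hB', hxB'⟩ := Multiset.mem_filter.1 hB'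
    have : B = B' := by
      have he' : B'.erase x = B.erase x := he
      rw [← insert_erase hxB, ← insert_erase hxB', he']
    subst this
    exact hT.2.2.1 i j hij B hB hB'
  · intro i j S hS
    have key : ∀ i, (derived x T i).countP (fun B => S ⊆ B)
        = if x ∈ S then 0 else (T i).countP (fun B => insert x S ⊆ B) := by
      intro i
      rw [derived, Multiset.countP_map, Multiset.filter_filter]
      split_ifs with hxS
      · rw [Multiset.card_eq_zero, Multiset.filter_eq_nil]
        rintro B hB ⟨h1, h2⟩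
        exact (mem_erase.1 (h1 hxS)).1 rfl
      · rw [Multiset.countP_eq_card_filter]
        congr 1
        apply Multiset.filter_congr
        intro B _
        rw [insert_subset_iff]
        constructor
        · rintro ⟨h1, h2⟩
          exact ⟨h2, h1.trans (erase_subset _ _)⟩
        · rintro ⟨h1, h2⟩
          exact ⟨subset_erase.2 ⟨h2, hxS⟩, h1⟩
    rw [key, key]
    split_ifs with hxS
    · rfl
    · exact hT.2.2.2 i j _ (by rw [card_insert_of_notMem hxS, hS])

lemma residual_isTrade {N t k : ℕ} (htk : t + 1 < k) {T : Fin N → Multiset (Finset X)}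
    (hT : IsTrade N (t + 1) k T) (x : X)
    (hx : ∀ i, (T i).countP (fun B => x ∈ B) < Multiset.card (T i)) :
    IsTrade N t k (residual x T) := by
  refine ⟨?_, ?_, ?_, ?_⟩
  · intro i h
    have h1 := hx i
    have h2 : (T i).countP (fun B => x ∈ B) = Multiset.card (T i) := by
      rw [Multiset.countP_eq_card]
      intro B hB
      by_contra hxB
      have : B ∈ residual x T i := Multiset.mem_filter.2 ⟨hB, hxB⟩
      rw [h] at this
      simp at this
    omega
  · intro i B hB
    exact hT.2.1 i B (Multiset.mem_filter.1 hB).1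
  · intro i j hij B hB hB'
    exact hT.2.2.1 i j hij B (Multiset.mem_filter.1 hB).1 (Multiset.mem_filter.1 hB').1
  · intro i j S hS
    have key : ∀ i, (residual x T i).countP (fun B => S ⊆ B)
        = (T i).countP (fun B => S ⊆ B ∧ Disjoint {x} B) := by
      intro i
      rw [residual, Multiset.countP_filter]
      simp only [disjoint_singleton_left]
    rw [key, key]
    exact avoid htk hT i j {x} S (by rw [card_singleton, hS])

lemma split {N t k m : ℕ} (hN : 2 ≤ N) (htk : t + 1 < k) (hm : m ∈ Volumes N (t + 1) k) :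
    ∃ m₁ m₂, m₁ ∈ Volumes N t (k - 1) ∧ m₂ ∈ Volumes N t k ∧ m₁ + m₂ = m := by
  obtain ⟨X, i1, i2, T, hT, hcard⟩ := hm
  set i₀ : Fin N := ⟨0, by omega⟩ with hi₀
  set i₁ : Fin N := ⟨1, by omega⟩ with hi₁
  have hne : i₀ ≠ i₁ := by
    intro h
    simp [hi₀, hi₁] at h
  have hdeg : ∀ x i, (T i).countP (fun B => x ∈ B) = (T i₀).countP (fun B => x ∈ B) := by
    intro x i
    have := balanced htk hT i i₀ {x} (by rw [card_singleton]; omega)
    simpa only [singleton_subset_iff] using this
  obtain ⟨x, hx1, hx2⟩ : ∃ x, 0 < (T i₀).countP (fun B => x ∈ B) ∧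
      (T i₀).countP (fun B => x ∈ B) < m := by
    by_contra hcon
    push Not at hcon
    obtain ⟨B₀, hB₀⟩ := Multiset.exists_mem_of_ne_zero (hT.1 i₀)
    obtain ⟨B₁, hB₁⟩ := Multiset.exists_mem_of_ne_zero (hT.1 i₁)
    have hsub : B₀ ⊆ B₁ := by
      intro x hx
      have h1 := hcon x (Multiset.countP_pos.2 ⟨B₀, hB₀, hx⟩)
      rw [← hdeg x i₁, ← hcard i₁] at h1
      have h2 := (T i₁).countP_le_card (fun B => x ∈ B)
      have h3 := Multiset.countP_eq_card.1 (le_antisymm h2 h1)
      exact h3 B₁ hB₁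
    have heq : B₀ = B₁ := eq_of_subset_of_card_le hsub
      (by rw [hT.2.1 _ B₀ hB₀, hT.2.1 _ B₁ hB₁])
    subst heq
    exact hT.2.2.1 i₀ i₁ hne B₀ hB₀ hB₁
  refine ⟨(T i₀).countP (fun B => x ∈ B), m - (T i₀).countP (fun B => x ∈ B), ?_, ?_, by omega⟩
  · refine ⟨X, i1, i2, derived x T,
      derived_isTrade htk hT x (fun i => by rw [hdeg]; exact hx1), fun i => ?_⟩
    rw [derived, Multiset.card_map, ← Multiset.countP_eq_card_filter, hdeg]
  · refine ⟨X, i1, i2, residual x T,
      residual_isTrade htk hT x (fun i => by rw [hdeg, hcard]; exact hx2), fun i => ?_⟩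
    have h1 := Multiset.card_eq_countP_add_countP (fun B : Finset X => x ∈ B) (T i)
    rw [hcard, hdeg] at h1
    rw [residual, ← Multiset.countP_eq_card_filter]
    omega

end lower

section rank

variable {X : Type} [Fintype X] [DecidableEq X]

/-- indicator of `S ⊆ B` -/
noncomputable def ind {e : ℕ} (u : {S : Finset X // S.card ≤ e}) (B : Finset X) : ℝ :=
  if u.1 ⊆ B then 1 else 0

omit [Fintype X] in
lemma sum_sq {e : ℕ} [Fintype {S : Finset X // S.card ≤ e}]
    (c : {S : Finset X // S.card ≤ e} → ℝ) (M : Multiset (Finset X)) :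
    (M.map (fun B => (∑ u, c u * ind u B) ^ 2)).sum
      = ∑ u, ∑ v, c u * c v * (M.countP (fun B => u.1 ∪ v.1 ⊆ B) : ℝ) := by
  induction M using Multiset.induction with
  | empty => simp
  | cons B M ih =>
    rw [Multiset.map_cons, Multiset.sum_cons, ih]
    simp only [Multiset.countP_cons, Nat.cast_add, mul_add, sum_add_distrib]
    rw [add_comm]
    congr 1
    rw [sq, sum_mul_sum]
    apply sum_congr rfl; intro u _
    apply sum_congr rfl; intro v _
    unfold ind
    by_cases h1 : u.1 ⊆ B <;> by_cases h2 : v.1 ⊆ B <;>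
      simp [h1, h2, union_subset_iff]

lemma rank_bound {N t k m e : ℕ} (hN : 1 ≤ N) (he : 2 * e ≤ t) (hk : t < k)
    (hm : m ∈ Volumes N t k) :
    ∃ ρ, 1 ≤ ρ ∧ lowWeight (N * ρ) e ≤ ρ ∧ ρ ≤ m := by
  classical
  obtain ⟨X, i1, i2, T, hT, hcard⟩ := hm
  -- all blocks
  set U : Finset (Finset X) := univ.biUnion (fun i => (T i).toFinset) with hU
  have hUi : ∀ i, ∀ B ∈ T i, B ∈ U := fun i B hB =>
    mem_biUnion.2 ⟨i, mem_univ i, Multiset.mem_toFinset.2 hB⟩
  have hUcard : U.card = ∑ i, ((T i).toFinset).card := by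
    rw [hU]
    apply card_biUnion
    intro i _ j _ hij
    change Disjoint (T i).toFinset (T j).toFinset
    rw [disjoint_left]
    intro B hB hB'
    exact hT.2.2.1 i j hij B (Multiset.mem_toFinset.1 hB) (Multiset.mem_toFinset.1 hB')
  -- the functions
  set g : {S : Finset X // S.card ≤ e} → (U → ℝ) := fun u B => ind u B.1 with hg
  set W : Submodule ℝ (U → ℝ) := Submodule.span ℝ (Set.range g) with hW
  have hzero : ∀ (i : Fin N) (w : U → ℝ), w ∈ W → (∀ B : U, B.1 ∈ T i → w B = 0) → w = 0 := by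
    intro i w hw hwi
    obtain ⟨c, hc⟩ := (Submodule.mem_span_range_iff_exists_fun ℝ).1 hw
    have hval : ∀ B : U, w B = ∑ u, c u * ind u B.1 := by
      intro B
      rw [← hc]
      simp [hg, Finset.sum_apply]
    have hq : ∀ j, ((T j).map (fun B => (∑ u, c u * ind u B) ^ 2)).sum
        = ((T i).map (fun B => (∑ u, c u * ind u B) ^ 2)).sum := by
      intro j
      rw [sum_sq, sum_sq]
      apply sum_congr rfl; intro u _
      apply sum_congr rfl; intro v _
      have hcd : (u.1 ∪ v.1).card ≤ t := by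
        refine (card_union_le _ _).trans ?_
        have h1 := u.2
        have h2 := v.2
        omega
      rw [balanced hk hT j i _ hcd]
    have hqi : ((T i).map (fun B => (∑ u, c u * ind u B) ^ 2)).sum = 0 := by
      apply Multiset.sum_eq_zero
      intro y hy
      obtain ⟨B, hB, rfl⟩ := Multiset.mem_map.1 hy
      rw [← hval ⟨B, hUi i B hB⟩, hwi ⟨B, hUi i B hB⟩ hB]
      ring
    funext B
    obtain ⟨j, -, hj⟩ := mem_biUnion.1 B.2
    have hj' := Multiset.mem_toFinset.1 hj
    have h0 : ((T j).map (fun B => (∑ u, c u * ind u B) ^ 2)).sum = 0 := (hq j).trans hqi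
    have h1 : (∑ u, c u * ind u B.1) ^ 2
        ≤ ((T j).map (fun B => (∑ u, c u * ind u B) ^ 2)).sum := by
      apply Multiset.single_le_sum
      · intro y hy
        obtain ⟨C, -, rfl⟩ := Multiset.mem_map.1 hy
        positivity
      · exact Multiset.mem_map.2 ⟨B.1, hj', rfl⟩
    rw [h0] at h1
    have h2 : ∑ u, c u * ind u B.1 = 0 := by
      have := le_antisymm h1 (sq_nonneg _)
      exact pow_eq_zero_iff (two_ne_zero) |>.1 this
    rw [hval B, h2]
    rfl
  set ρ := Module.finrank ℝ W with hρ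
  -- each leg has at least `ρ` different blocks
  have hleg : ∀ i, ρ ≤ ((T i).toFinset).card := by
    intro i
    let R : (U → ℝ) →ₗ[ℝ] ((T i).toFinset → ℝ) :=
      LinearMap.funLeft ℝ ℝ (fun B : (T i).toFinset =>
        (⟨B.1, hUi i B.1 (Multiset.mem_toFinset.1 B.2)⟩ : U))
    have hinj : Function.Injective (R ∘ₗ W.subtype) := by
      rw [← LinearMap.ker_eq_bot, LinearMap.ker_eq_bot']
      intro w hw
      apply Subtype.ext
      apply hzero i w.1 w.2
      intro B hB
      have := congrFun hw (⟨B.1, Multiset.mem_toFinset.2 hB⟩ : (T i).toFinset)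
      exact this
    have := LinearMap.finrank_le_finrank_of_injective hinj
    rw [Module.finrank_fintype_fun_eq_card, Fintype.card_coe] at this
    exact this
  have hUρ : N * ρ ≤ U.card := by
    rw [hUcard]
    calc N * ρ = ∑ _i : Fin N, ρ := by simp
      _ ≤ _ := sum_le_sum (fun i _ => hleg i)
  have hUne : U.Nonempty := by
    obtain ⟨B, hB⟩ := Multiset.exists_mem_of_ne_zero (hT.1 ⟨0, by omega⟩)
    exact ⟨B, hUi _ B hB⟩
  -- the rank is large
  obtain ⟨D, -, hD2, hD3⟩ := exists_standard (univ : Finset X) U (fun B _ => subset_univ B)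
  have hlow : lowWeight U.card e ≤ ρ := by
    refine (hD2 e).trans ?_
    set De := D.filter (fun S => S.card ≤ e) with hDe
    let v : De → W := fun S => ⟨g ⟨S.1, (mem_filter.1 S.2).2⟩, Submodule.subset_span ⟨_, rfl⟩⟩
    have hv : LinearIndependent ℝ v := by
      rw [Fintype.linearIndependent_iff]
      intro c hc S
      have key := hD3 (fun S => if h : S ∈ De then c ⟨S, h⟩ else 0) (by
        intro B hB
        have h1 := congrArg (fun w : W => w.1 ⟨B, hB⟩) hc
        simp only [Submodule.coe_sum, Submodule.coe_smul, Finset.sum_apply, Pi.smul_apply,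
          smul_eq_mul, ZeroMemClass.coe_zero, Pi.zero_apply] at h1
        refine Eq.trans ?_ h1
        rw [← sum_subset (filter_subset (fun S : Finset X => S.card ≤ e) D), ← hDe,
          ← sum_coe_sort De]
        · apply sum_congr rfl
          intro S _
          have hS : (S : Finset X) ∈ De := S.2
          rw [dif_pos hS]
          by_cases hSB : (S : Finset X) ⊆ B
          · rw [if_pos hSB]
            simp [v, hg, ind, hSB]
          · rw [if_neg hSB]
            simp [v, hg, ind, hSB]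
        · intro S _ hS
          have hS' : S ∉ De := hS
          rw [dif_neg hS']
          simp) S.1 (mem_filter.1 S.2).1
      simpa using key
    have := hv.fintype_card_le_finrank
    rwa [Fintype.card_coe] at this
  refine ⟨ρ, ?_, (low_mono hUρ e).trans hlow, ?_⟩
  · refine le_trans ?_ hlow
    rw [← low_one e]
    exact low_mono (card_pos.2 hUne) e
  · have := hleg ⟨0, by omega⟩
    refine this.trans ?_
    rw [← hcard ⟨0, by omega⟩]
    exact Multiset.toFinset_card_le _

end rank

/-- the lower bound for all `t` -/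
lemma lower_bound (N : ℕ) (hN : 2 ≤ N) (e : ℕ) : ∀ (d k m : ℕ), d + 2 * e < k →
    m ∈ Volumes N (d + 2 * e) k →
    ∃ ρ, 1 ≤ ρ ∧ lowWeight (N * ρ) e ≤ ρ ∧ 2 ^ d * ρ ≤ m := by
  intro d
  induction d with
  | zero =>
    intro k m hk hm
    obtain ⟨ρ, h1, h2, h3⟩ := rank_bound (e := e) (by omega) (by omega) hk hm
    exact ⟨ρ, h1, h2, by simpa using h3⟩
  | succ d ih =>
    intro k m hk hm
    rw [show d + 1 + 2 * e = d + 2 * e + 1 by ring] at hm
    obtain ⟨m₁, m₂, hm1, hm2, hadd⟩ := split hN (by omega) hm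
    obtain ⟨ρ₁, a1, a2, a3⟩ := ih (k - 1) m₁ (by omega) hm1
    obtain ⟨ρ₂, b1, b2, b3⟩ := ih k m₂ (by omega) hm2
    rcases le_total ρ₁ ρ₂ with h | h
    · refine ⟨ρ₁, a1, a2, ?_⟩
      have : 2 ^ d * ρ₁ ≤ 2 ^ d * ρ₂ := Nat.mul_le_mul_left _ h
      rw [pow_succ]; nlinarith
    · refine ⟨ρ₂, b1, b2, ?_⟩
      have : 2 ^ d * ρ₂ ≤ 2 ^ d * ρ₁ := Nat.mul_le_mul_left _ h
      rw [pow_succ]; nlinarith

lemma zmod_two (z : ZMod 2) : z = 0 ∨ z = 1 := by
  revert z
  decide

section construction

variable {I : Type} [Fintype I] [DecidableEq I]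

/-- the block attached to `z` -/
def block (r : ℕ) (z : I → ZMod 2) : Finset ((I × ZMod 2) ⊕ Fin r) :=
  ((univ : Finset I).image (fun x => (x, z x))).disjSum univ

lemma inl_mem_block (r : ℕ) (z : I → ZMod 2) (p : I × ZMod 2) :
    (Sum.inl p : (I × ZMod 2) ⊕ Fin r) ∈ block r z ↔ z p.1 = p.2 := by
  unfold block
  rw [inl_mem_disjSum, mem_image]
  constructor
  · rintro ⟨x, -, rfl⟩; rfl
  · intro hp
    exact ⟨p.1, mem_univ _, by rw [hp]⟩

lemma inr_mem_block (r : ℕ) (z : I → ZMod 2) (p : Fin r) :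
    (Sum.inr p : (I × ZMod 2) ⊕ Fin r) ∈ block r z := by
  unfold block
  rw [inr_mem_disjSum]
  exact mem_univ _

lemma card_block (r : ℕ) (z : I → ZMod 2) : (block r z).card = Fintype.card I + r := by
  unfold block
  rw [card_disjSum, card_image_of_injective, card_univ, card_univ, Fintype.card_fin]
  intro x y hxy
  exact congrArg Prod.fst hxy

lemma block_injective (r : ℕ) {z z' : I → ZMod 2} (hz : block r z = block r z') : z = z' := by
  funext x
  have h1 : (Sum.inl (x, z x) : (I × ZMod 2) ⊕ Fin r) ∈ block r z := by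
    rw [inl_mem_block]
  rw [hz, inl_mem_block] at h1
  exact h1.symm

lemma block_congr (r : ℕ) {z z' : I → ZMod 2} (S : Finset ((I × ZMod 2) ⊕ Fin r))
    (hS : ∀ p : I × ZMod 2, Sum.inl p ∈ S → z p.1 = z' p.1) :
    S ⊆ block r z ↔ S ⊆ block r z' := by
  constructor
  · intro hs q hq
    rcases q with p | i
    · rw [inl_mem_block, ← hS p hq, ← inl_mem_block (r := r)]
      exact hs hq
    · exact inr_mem_block _ _ _
  · intro hs q hq
    rcases q with p | i
    · rw [inl_mem_block, hS p hq, ← inl_mem_block (r := r)]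
      exact hs hq
    · exact inr_mem_block _ _ _

lemma construct_aux {A : Type} [Fintype A] [AddCommGroup A] (c : A →+ (I → ZMod 2))
    (t N r : ℕ)
    (hsolve : ∀ K : Finset I, K.card ≤ t → ∀ u : I → ZMod 2, ∃ a, ∀ x ∈ K, c a x = u x)
    (y : Fin N → I → ZMod 2) (hsep : ∀ i j a a', y i + c a = y j + c a' → i = j) :
    Fintype.card A ∈ Volumes N t (Fintype.card I + r) := by
  classical
  refine ⟨(I × ZMod 2) ⊕ Fin r, inferInstance, inferInstance,
    fun i => (univ : Finset A).val.map (fun a => block r (y i + c a)), ⟨?_, ?_, ?_, ?_⟩, ?_⟩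
  · intro i h0
    have h1 := congrArg Multiset.card h0
    simp at h1
  · intro i B hB
    obtain ⟨a, -, rfl⟩ := Multiset.mem_map.1 hB
    exact card_block _ _
  · intro i j hij B hB hB'
    obtain ⟨a, -, rfl⟩ := Multiset.mem_map.1 hB
    obtain ⟨a', -, he⟩ := Multiset.mem_map.1 hB'
    exact hij (hsep i j a a' (block_injective r he).symm)
  · intro i j S hS
    obtain ⟨a₀, ha₀⟩ := hsolve (S.toLeft.image Prod.fst)
      (card_image_le.trans ((card_toLeft_le).trans hS.le)) (fun x => y j x - y i x)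
    have key : ∀ i, ((univ : Finset A).val.map (fun a => block r (y i + c a))).countP
        (fun B => S ⊆ B) = ((univ : Finset A).filter (fun a => S ⊆ block r (y i + c a))).card := by
      intro i
      rw [Multiset.countP_map]
      rfl
    rw [key, key]
    symm
    apply card_bijective (fun a => a + a₀) (Equiv.addRight a₀).bijective
    intro a
    rw [mem_filter, mem_filter]
    simp only [mem_univ, true_and]
    apply block_congr
    intro p hp
    have hpK : p.1 ∈ S.toLeft.image Prod.fst :=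
      mem_image_of_mem _ (mem_toLeft.2 hp)
    have := ha₀ p.1 hpK
    simp only [Pi.add_apply, map_add, this]
    ring
  · intro i
    simp

omit [DecidableEq I] in
lemma reps {A : Type} [Fintype A] [AddCommGroup A] (c : A →+ (I → ZMod 2)) (N : ℕ)
    (hN : N * Fintype.card A ≤ 2 ^ Fintype.card I) :
    ∃ y : Fin N → I → ZMod 2, ∀ i j a a', y i + c a = y j + c a' → i = j := by
  classical
  set H := c.range with hH
  have h1 : Nat.card (I → ZMod 2) = Nat.card ((I → ZMod 2) ⧸ H) * Nat.card H :=
    AddSubgroup.card_eq_card_quotient_mul_card_addSubgroup H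
  have h2 : Nat.card H ≤ Nat.card A :=
    Nat.card_le_card_of_surjective c.rangeRestrict c.rangeRestrict_surjective
  have h3 : Nat.card (I → ZMod 2) = 2 ^ Fintype.card I := by
    rw [Nat.card_eq_fintype_card, Fintype.card_fun, ZMod.card]
  rw [Nat.card_eq_fintype_card (α := A)] at h2
  have hApos : 0 < Fintype.card A := Fintype.card_pos
  have h4 : N ≤ Nat.card ((I → ZMod 2) ⧸ H) := by
    by_contra hcon
    push Not at hcon
    have : Nat.card ((I → ZMod 2) ⧸ H) * Nat.card H < N * Fintype.card A := by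
      calc Nat.card ((I → ZMod 2) ⧸ H) * Nat.card H
          ≤ Nat.card ((I → ZMod 2) ⧸ H) * Fintype.card A := Nat.mul_le_mul_left _ h2
        _ < N * Fintype.card A := Nat.mul_lt_mul_of_pos_right hcon hApos
    omega
  let eQ := Finite.equivFin ((I → ZMod 2) ⧸ H)
  let q : Fin N → ((I → ZMod 2) ⧸ H) := fun i => eQ.symm (Fin.castLE h4 i)
  have hq : Function.Injective q := by
    intro i j hij
    exact Fin.castLE_injective h4 (eQ.symm.injective hij)
  refine ⟨fun i => (q i).out, ?_⟩
  intro i j a a' h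
  apply hq
  rw [← QuotientAddGroup.out_eq' (q i), ← QuotientAddGroup.out_eq' (q j), QuotientAddGroup.eq]
  refine ⟨a - a', ?_⟩
  rw [map_sub]
  have h' : (q i).out + c a = (q j).out + c a' := h
  have : (q j).out = (q i).out + c a - c a' := by rw [h']; abel
  rw [this]
  abel

lemma construct {V : Type} [Fintype V] [AddCommGroup V] [Module (ZMod 2) V] (h : I → V)
    (t N k : ℕ) (hind : ∀ K : Finset I, K.card ≤ t → K.Nonempty → ∑ x ∈ K, h x ≠ 0)
    (hN : N * Fintype.card V ≤ 2 ^ Fintype.card I) (hk : Fintype.card I ≤ k) :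
    Fintype.card V ∈ Volumes N t k := by
  classical
  have : Fact (Nat.Prime 2) := ⟨Nat.prime_two⟩
  have : Finite (Module.Dual (ZMod 2) V) := Module.finite_of_finite (ZMod 2)
  let _ : Fintype (Module.Dual (ZMod 2) V) := Fintype.ofFinite _
  have hcard : Fintype.card (Module.Dual (ZMod 2) V) = Fintype.card V := by
    rw [Module.card_eq_pow_finrank (K := ZMod 2) (V := V),
      Module.card_eq_pow_finrank (K := ZMod 2) (V := Module.Dual (ZMod 2) V),
      Subspace.dual_finrank_eq]
  let c : Module.Dual (ZMod 2) V →+ (I → ZMod 2) :=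
    { toFun := fun φ x => φ (h x)
      map_zero' := by funext x; simp
      map_add' := by intro φ ψ; funext x; simp }
  have hsolve : ∀ K : Finset I, K.card ≤ t → ∀ u : I → ZMod 2, ∃ a, ∀ x ∈ K, c a x = u x := by
    intro K hK u
    have hli : LinearIndependent (ZMod 2) (fun x : K => h x) := by
      rw [Fintype.linearIndependent_iff]
      intro g hg
      by_contra hcon
      push Not at hcon
      obtain ⟨x₀, hx₀⟩ := hcon
      set K' : Finset I := (univ.filter (fun x : K => g x = 1)).map
        (Function.Embedding.subtype _) with hK'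
      apply hind K'
      · refine le_trans ?_ hK
        rw [hK', card_map]
        exact (card_filter_le _ _).trans (by rw [card_univ, Fintype.card_coe])
      · refine ⟨x₀, ?_⟩
        rw [hK', mem_map]
        refine ⟨x₀, mem_filter.2 ⟨mem_univ _, ?_⟩, rfl⟩
        rcases zmod_two (g x₀) with h | h
        · exact absurd h hx₀
        · exact h
      · rw [hK', sum_map, sum_filter]
        refine Eq.trans ?_ hg
        apply sum_congr rfl
        intro x _
        rcases zmod_two (g x) with h' | h'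
        · rw [h', if_neg zero_ne_one, zero_smul]
        · rw [h', if_pos rfl, one_smul]
          rfl
    obtain ⟨φ, hφ⟩ : ∃ φ : Module.Dual (ZMod 2) V, ∀ x : K, φ (h x) = u x := by
      let b := Module.Basis.span hli
      obtain ⟨φ, hφ⟩ := (b.constr (ZMod 2) (fun x : K => u x)).exists_extend
      refine ⟨φ, fun x => ?_⟩
      have h1 := LinearMap.congr_fun hφ (b x)
      rw [LinearMap.comp_apply, Module.Basis.constr_basis, Submodule.subtype_apply,
        Module.Basis.span_apply] at h1
      exact h1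
    exact ⟨φ, fun x hx => hφ ⟨x, hx⟩⟩
  have hN' : N * Fintype.card (Module.Dual (ZMod 2) V) ≤ 2 ^ Fintype.card I := by
    rw [hcard]; exact hN
  obtain ⟨y, hy⟩ := reps c N hN'
  have := construct_aux c t N (k - Fintype.card I) hsolve y hy
  rw [hcard, Nat.add_sub_cancel' hk] at this
  exact this

end construction

section bch

variable {F : Type} [Field F] [CharP F 2]

lemma power_sums (K : Finset F) (e : ℕ) (h : ∀ j, j < e → ∑ x ∈ K, x ^ (2 * j + 1) = 0) :
    ∀ i, 1 ≤ i → i ≤ 2 * e → ∑ x ∈ K, x ^ i = 0 := by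
  intro i
  induction i using Nat.strong_induction_on with
  | _ i ih =>
    intro h1 h2
    rcases Nat.even_or_odd' i with ⟨j, rfl | rfl⟩
    · have := ih j (by omega) (by omega) (by omega)
      have h3 : (∑ x ∈ K, x ^ j) ^ 2 = ∑ x ∈ K, (x ^ j) ^ 2 := CharTwo.sum_sq _ _
      rw [this] at h3
      calc ∑ x ∈ K, x ^ (2 * j) = ∑ x ∈ K, (x ^ j) ^ 2 := by
            apply sum_congr rfl; intro x _; ring
        _ = 0 := by rw [← h3]; ring
    · exact h j (by omega)

omit [CharP F 2] in
/-- a polynomial of degree `|K| - 1` vanishing on all points of `K` but `x₀` -/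
lemma separate (K : Finset F) [DecidableEq F] (x₀ : F) (hx₀ : x₀ ∈ K) :
    ∃ p : Polynomial F, p.natDegree = K.card - 1 ∧ p.eval x₀ ≠ 0 ∧
      ∀ x ∈ K, x ≠ x₀ → p.eval x = 0 := by
  refine ⟨∏ y ∈ K.erase x₀, (Polynomial.X - Polynomial.C y), ?_, ?_, ?_⟩
  · rw [Polynomial.natDegree_finsetProd_X_sub_C_eq_card, card_erase_of_mem hx₀]
  · rw [Polynomial.eval_prod, prod_ne_zero_iff]
    intro y hy
    rw [Polynomial.eval_sub, Polynomial.eval_X, Polynomial.eval_C, sub_ne_zero]
    exact (mem_erase.1 hy).1.symm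
  · intro x hx hne
    rw [Polynomial.eval_prod]
    apply prod_eq_zero (mem_erase.2 ⟨hne, hx⟩)
    simp

lemma bch_even (K : Finset F) (e : ℕ) (h0 : ∀ x ∈ K, x ≠ 0) (hK : K.card ≤ 2 * e)
    (hne : K.Nonempty) : ∃ j, j < e ∧ ∑ x ∈ K, x ^ (2 * j + 1) ≠ 0 := by
  classical
  by_contra hcon
  push Not at hcon
  have hp := power_sums K e hcon
  obtain ⟨x₀, hx₀⟩ := hne
  obtain ⟨p, hdeg, hp0, hpx⟩ := separate K x₀ hx₀
  have h1 : ∑ x ∈ K, x * p.eval x = x₀ * p.eval x₀ := by
    apply sum_eq_single_of_mem x₀ hx₀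
    intro x hx hxne
    rw [hpx x hx hxne, mul_zero]
  have h2 : ∑ x ∈ K, x * p.eval x = 0 := by
    calc ∑ x ∈ K, x * p.eval x
        = ∑ x ∈ K, ∑ i ∈ range (p.natDegree + 1), p.coeff i * x ^ (i + 1) := by
          apply sum_congr rfl
          intro x _
          rw [Polynomial.eval_eq_sum_range, mul_sum]
          apply sum_congr rfl
          intro i _
          ring
      _ = ∑ i ∈ range (p.natDegree + 1), p.coeff i * ∑ x ∈ K, x ^ (i + 1) := by
          rw [sum_comm]
          apply sum_congr rfl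
          intro i _
          rw [mul_sum]
      _ = 0 := by
          apply sum_eq_zero
          intro i hi
          have hi' := mem_range.1 hi
          have hKpos : 0 < K.card := card_pos.2 ⟨x₀, hx₀⟩
          rw [hp (i + 1) (by omega) (by omega), mul_zero]
  rw [h1] at h2
  exact (mul_ne_zero (h0 x₀ hx₀) hp0) h2

lemma bch_odd (K : Finset F) (e : ℕ) (hK : K.card ≤ 2 * e + 1) (hne : K.Nonempty)
    (hev : (K.card : ZMod 2) = 0) : ∃ j, j < e ∧ ∑ x ∈ K, x ^ (2 * j + 1) ≠ 0 := by
  classical
  by_contra hcon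
  push Not at hcon
  have hp := power_sums K e hcon
  have hev' : 2 ∣ K.card := (ZMod.natCast_eq_zero_iff _ _).1 hev
  have hK0 : (K.card : F) = 0 := (CharP.cast_eq_zero_iff F 2 _).2 hev'
  obtain ⟨x₀, hx₀⟩ := hne
  obtain ⟨p, hdeg, hp0, hpx⟩ := separate K x₀ hx₀
  have h1 : ∑ x ∈ K, p.eval x = p.eval x₀ := by
    apply sum_eq_single_of_mem x₀ hx₀
    intro x hx hxne
    rw [hpx x hx hxne]
  have h2 : ∑ x ∈ K, p.eval x = 0 := by
    calc ∑ x ∈ K, p.eval x
        = ∑ x ∈ K, ∑ i ∈ range (p.natDegree + 1), p.coeff i * x ^ i := by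
          apply sum_congr rfl
          intro x _
          rw [Polynomial.eval_eq_sum_range]
      _ = ∑ i ∈ range (p.natDegree + 1), p.coeff i * ∑ x ∈ K, x ^ i := by
          rw [sum_comm]
          apply sum_congr rfl
          intro i _
          rw [mul_sum]
      _ = 0 := by
          apply sum_eq_zero
          intro i hi
          have hi' := mem_range.1 hi
          have hKpos : 0 < K.card := card_pos.2 ⟨x₀, hx₀⟩
          rcases Nat.eq_zero_or_pos i with rfl | hipos
          · simp [hK0]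
          · rw [hp i hipos (by omega), mul_zero]
  rw [h1] at h2
  exact hp0 h2

end bch

lemma upper_even (e s N k : ℕ) (hs : 1 ≤ s) (hN : N * 2 ^ (s * e) ≤ 2 ^ (2 ^ s - 1))
    (hk : 2 ^ s - 1 ≤ k) : 2 ^ (s * e) ∈ Volumes N (2 * e) k := by
  classical
  have : Fact (Nat.Prime 2) := ⟨Nat.prime_two⟩
  let F := GaloisField 2 s
  let _ : Fintype F := Fintype.ofFinite _
  have hF : Fintype.card F = 2 ^ s := by
    rw [← Nat.card_eq_fintype_card]
    exact GaloisField.card 2 s (by omega)
  let _ : Module (ZMod 2) F := Algebra.toModule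
  have hI : Fintype.card {x : F // x ≠ 0} = 2 ^ s - 1 := by
    rw [Fintype.card_subtype_compl, Fintype.card_subtype_eq, hF]
  have hV : Fintype.card (Fin e → F) = 2 ^ (s * e) := by
    rw [Fintype.card_fun, Fintype.card_fin, hF, ← pow_mul]
  have := construct (I := {x : F // x ≠ 0}) (V := Fin e → F)
    (fun x j => x.1 ^ (2 * (j : ℕ) + 1)) (2 * e) N k ?_ (by rw [hI, hV]; exact hN)
    (by rw [hI]; exact hk)
  · rw [hV] at this
    exact this
  · intro K hK hne h0
    obtain ⟨j, hj, hsum⟩ := bch_even (K.map (Function.Embedding.subtype _)) e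
      (by
        intro x hx
        obtain ⟨y, -, rfl⟩ := mem_map.1 hx
        exact y.2) (by rw [card_map]; exact hK) (hne.map)
    apply hsum
    rw [sum_map]
    have := congrFun h0 ⟨j, hj⟩
    rw [Finset.sum_apply] at this
    exact this

lemma upper_odd (e s N k : ℕ) (hs : 1 ≤ s) (hN : N * 2 ^ (s * e) ≤ 2 ^ (2 ^ s - 1))
    (hk : 2 ^ s ≤ k) : 2 ^ (s * e + 1) ∈ Volumes N (2 * e + 1) k := by
  classical
  have : Fact (Nat.Prime 2) := ⟨Nat.prime_two⟩
  let F := GaloisField 2 s
  let _ : Fintype F := Fintype.ofFinite _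
  have hF : Fintype.card F = 2 ^ s := by
    rw [← Nat.card_eq_fintype_card]
    exact GaloisField.card 2 s (by omega)
  let _ : Module (ZMod 2) F := Algebra.toModule
  have hV : Fintype.card (ZMod 2 × (Fin e → F)) = 2 ^ (s * e + 1) := by
    rw [Fintype.card_prod, ZMod.card, Fintype.card_fun, Fintype.card_fin, hF, ← pow_mul, pow_succ']
  have := construct (I := F) (V := ZMod 2 × (Fin e → F))
    (fun x => (1, fun j => x ^ (2 * (j : ℕ) + 1))) (2 * e + 1) N k ?_
    (by
      rw [hF, hV]
      have h1 := Nat.one_le_two_pow (n := s)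
      calc N * 2 ^ (s * e + 1) = N * 2 ^ (s * e) * 2 := by rw [pow_succ]; ring
        _ ≤ 2 ^ (2 ^ s - 1) * 2 := Nat.mul_le_mul_right _ hN
        _ = 2 ^ (2 ^ s) := by rw [← pow_succ]; congr 1; omega)
    (by rw [hF]; exact hk)
  · rw [hV] at this
    exact this
  · intro K hK hne h0
    have h1 := congrArg Prod.fst h0
    have h2 := congrArg Prod.snd h0
    rw [Prod.fst_sum] at h1
    rw [Prod.snd_sum] at h2
    obtain ⟨j, hj, hsum⟩ := bch_odd K e hK hne (by simpa using h1)
    apply hsum
    have := congrFun h2 ⟨j, hj⟩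
    rw [Finset.sum_apply] at this
    exact this

section design

variable {X : Type} [Fintype X] [DecidableEq X]

lemma degrees {N t k : ℕ} (ht : 1 ≤ t) (htk : t < k) {T : Fin N → Multiset (Finset X)}
    (hT : IsTrade N t k T) (i j : Fin N) (x : X) :
    (T i).countP (fun B => x ∈ B) = (T j).countP (fun B => x ∈ B) := by
  have := balanced htk hT i j {x} (by rw [card_singleton]; exact ht)
  simpa only [singleton_subset_iff] using this

/-- foundation of a leg -/
def found (M : Multiset (Finset X)) : Finset X :=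
  univ.filter (fun x => 0 < M.countP (fun B => x ∈ B))

lemma found_bound {N t k : ℕ} (ht : 1 ≤ t) (htk : t < k) {T : Fin N → Multiset (Finset X)}
    (hT : IsTrade N t k T) (i₀ : Fin N) :
    N ≤ ((found (T i₀)).card - t).choose (k - t) := by
  classical
  obtain ⟨B₀, hB₀⟩ := Multiset.exists_mem_of_ne_zero (hT.1 i₀)
  obtain ⟨S, hSB, hS⟩ := exists_subset_card_eq (s := B₀) (n := t)
    (by rw [hT.2.1 i₀ B₀ hB₀]; exact htk.le)
  have hex : ∀ i, ∃ B ∈ T i, S ⊆ B := by
    intro i
    apply Multiset.countP_pos.1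
    rw [hT.2.2.2 i i₀ S hS]
    exact Multiset.countP_pos.2 ⟨B₀, hB₀, hSB⟩
  choose B hBT hSB' using hex
  have hBf : ∀ i, B i ⊆ found (T i₀) := by
    intro i x hx
    refine mem_filter.2 ⟨mem_univ _, ?_⟩
    rw [degrees ht htk hT i₀ i x]
    exact Multiset.countP_pos.2 ⟨B i, hBT i, hx⟩
  have hSf : S ⊆ found (T i₀) := (hSB' i₀).trans (hBf i₀)
  have hinj : Function.Injective (fun i => B i \ S) := by
    intro i j hij
    have hij' : B i \ S = B j \ S := hij
    have : B i = B j := by
      rw [← sdiff_union_of_subset (hSB' i), ← sdiff_union_of_subset (hSB' j), hij']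
    by_contra hne
    exact hT.2.2.1 i j hne (B i) (hBT i) (by rw [this]; exact hBT j)
  calc N = (univ.image (fun i => B i \ S)).card := by
        rw [card_image_of_injective _ hinj, card_univ, Fintype.card_fin]
    _ ≤ (powersetCard (k - t) (found (T i₀) \ S)).card := by
        apply card_le_card
        intro Q hQ
        obtain ⟨i, -, rfl⟩ := mem_image.1 hQ
        rw [mem_powersetCard]
        refine ⟨sdiff_subset_sdiff (hBf i) le_rfl, ?_⟩
        rw [card_sdiff_of_subset (hSB' i), hT.2.1 i (B i) (hBT i), hS]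
    _ = _ := by rw [card_powersetCard, card_sdiff_of_subset hSf, hS]

lemma sum_deg (M : Multiset (Finset X)) (k : ℕ) (hM : ∀ B ∈ M, B.card = k) :
    ∑ x, M.countP (fun B => x ∈ B) = k * Multiset.card M := by
  induction M using Multiset.induction with
  | empty => simp
  | cons B M ih =>
    simp only [Multiset.countP_cons, sum_add_distrib, Multiset.card_cons]
    rw [ih (fun B' hB' => hM B' (Multiset.mem_cons_of_mem hB'))]
    have : ∑ x : X, (if x ∈ B then 1 else 0) = k := by
      rw [← hM B (Multiset.mem_cons_self _ _)]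
      simp
    rw [this]; ring

lemma found_le (M : Multiset (Finset X)) (k : ℕ) (hM : ∀ B ∈ M, B.card = k) :
    (found M).card ≤ k * Multiset.card M := by
  rw [← sum_deg M k hM, card_eq_sum_ones]
  refine (sum_le_sum (g := fun x => M.countP (fun B => x ∈ B)) ?_).trans
    (sum_le_sum_of_subset (subset_univ _))
  intro x hx
  exact (mem_filter.1 hx).2

end design

/-- The design-type lower bound. -/
lemma design_bound {N : ℕ} (hN : 1 ≤ N) (s : ℕ) : ∀ (k m : ℕ), s + 1 < k →
    m ∈ Volumes N (s + 1) k → ∀ f : ℕ, (f - (s + 1)).choose (k - (s + 1)) < N →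
    (f + 1).choose (s + 1) ≤ k.choose (s + 1) * m := by
  induction s with
  | zero =>
    intro k m hk hm f hf
    obtain ⟨X, i1, i2, T, hT, hcard⟩ := hm
    set i₀ : Fin N := ⟨0, hN⟩ with hi₀
    have h1 := found_bound (by norm_num) hk hT i₀
    have h2 := found_le (T i₀) k (hT.2.1 i₀)
    rw [hcard] at h2
    simp only [zero_add, Nat.choose_one_right] at *
    refine le_trans ?_ h2
    by_contra hcon
    push Not at hcon
    have h4 : ((found (T i₀)).card - 1).choose (k - 1) ≤ (f - 1).choose (k - 1) :=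
      Nat.choose_le_choose _ (by omega)
    omega
  | succ s ih =>
    intro k m hk hm f hf
    rcases Nat.eq_zero_or_pos f with rfl | hfpos
    · rw [Nat.choose_eq_zero_of_lt (show 0 + 1 < s + 1 + 1 by omega)]
      exact Nat.zero_le _
    obtain ⟨X, i1, i2, T, hT, hcard⟩ := hm
    set i₀ : Fin N := ⟨0, hN⟩ with hi₀
    have hdeg : ∀ x ∈ found (T i₀),
        f.choose (s + 1) ≤ (k - 1).choose (s + 1) * (T i₀).countP (fun B => x ∈ B) := by
      intro x hx
      have hpos : 0 < (T i₀).countP (fun B => x ∈ B) := (mem_filter.1 hx).2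
      have hD : IsTrade N (s + 1) (k - 1) (derived x T) :=
        derived_isTrade (by omega) hT x
          (fun i => by rw [degrees (by omega) (by omega) hT i i₀ x]; exact hpos)
      have hcardD : ∀ i, Multiset.card (derived x T i) = (T i₀).countP (fun B => x ∈ B) := by
        intro i
        rw [derived, Multiset.card_map, ← Multiset.countP_eq_card_filter,
          degrees (by omega) (by omega) hT i i₀ x]
      have h1 := ih (k - 1) _ (by omega) ⟨X, i1, i2, derived x T, hD, hcardD⟩ (f - 1) (by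
        rw [show f - 1 - (s + 1) = f - (s + 1 + 1) by omega,
          show k - 1 - (s + 1) = k - (s + 1 + 1) by omega]
        exact hf)
      rw [show f - 1 + 1 = f by omega] at h1
      exact h1
    have hfound : f + 1 ≤ (found (T i₀)).card := by
      have h1 := found_bound (by omega) (by omega) hT i₀
      by_contra hcon
      push Not at hcon
      have h4 : ((found (T i₀)).card - (s + 1 + 1)).choose (k - (s + 1 + 1))
          ≤ (f - (s + 1 + 1)).choose (k - (s + 1 + 1)) := Nat.choose_le_choose _ (by omega)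
      omega
    have hsum := sum_deg (T i₀) k (hT.2.1 i₀)
    rw [hcard] at hsum
    have hmain : (f + 1) * f.choose (s + 1) ≤ (k - 1).choose (s + 1) * (k * m) := by
      calc (f + 1) * f.choose (s + 1) ≤ (found (T i₀)).card * f.choose (s + 1) :=
            Nat.mul_le_mul_right _ hfound
        _ = ∑ _x ∈ found (T i₀), f.choose (s + 1) := by rw [sum_const, smul_eq_mul]
        _ ≤ ∑ x ∈ found (T i₀), (k - 1).choose (s + 1) * (T i₀).countP (fun B => x ∈ B) :=
            sum_le_sum hdeg
        _ ≤ ∑ x, (k - 1).choose (s + 1) * (T i₀).countP (fun B => x ∈ B) :=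
            sum_le_sum_of_subset (subset_univ _)
        _ = (k - 1).choose (s + 1) * (k * m) := by rw [← mul_sum, hsum]
    have e1 := Nat.add_one_mul_choose_eq f (s + 1)
    have e2 := Nat.add_one_mul_choose_eq (k - 1) (s + 1)
    rw [show k - 1 + 1 = k by omega] at e2
    have hfin : (s + 1 + 1) * (f + 1).choose (s + 1 + 1)
        ≤ (s + 1 + 1) * (k.choose (s + 1 + 1) * m) := by
      calc (s + 1 + 1) * (f + 1).choose (s + 1 + 1) = (f + 1) * f.choose (s + 1) := by
            rw [e1]; ring
        _ ≤ (k - 1).choose (s + 1) * (k * m) := hmain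
        _ = (k * (k - 1).choose (s + 1)) * m := by ring
        _ = (k.choose (s + 1 + 1) * (s + 1 + 1)) * m := by rw [e2]
        _ = _ := by ring
    exact Nat.le_of_mul_le_mul_left hfin (by omega)

/-- the design-type lower bound in closed form: `N ^ t ≤ ((3 (t + 1)) ^ t m) ^ (k - t)` -/
lemma design_bound' {N t k m : ℕ} (hN : 1 ≤ N) (htk : t < k) (hm : m ∈ Volumes N t k) :
    N ^ t ≤ ((3 * (t + 1)) ^ t * m) ^ (k - t) := by
  have hm1 : 1 ≤ m := by
    obtain ⟨X, i1, i2, T, hT, hcard⟩ := hm
    rw [← hcard ⟨0, hN⟩]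
    exact Multiset.card_pos.2 (hT.1 _)
  cases t with
  | zero =>
    simp only [pow_zero, one_mul]
    exact Nat.one_le_pow _ _ hm1
  | succ s =>
    obtain ⟨j, hj⟩ : ∃ j, k = s + 1 + j := ⟨k - (s + 1), by omega⟩
    have hj1 : 1 ≤ j := by omega
    have hkj : k - (s + 1) = j := by omega
    rw [hkj]
    -- `R` is the least number with `R ^ t > k ^ t * m`
    have hex : ∃ R : ℕ, k ^ (s + 1) * m < R ^ (s + 1) := by
      refine ⟨k ^ (s + 1) * m + 1, ?_⟩
      calc k ^ (s + 1) * m < k ^ (s + 1) * m + 1 := Nat.lt_succ_self _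
        _ ≤ (k ^ (s + 1) * m + 1) ^ (s + 1) := Nat.le_self_pow (by omega) _
    classical
    set R := Nat.find hex with hR
    have hspec : k ^ (s + 1) * m < R ^ (s + 1) := Nat.find_spec hex
    have hRpos : 0 < R := by
      rcases Nat.eq_zero_or_pos R with h | h
      · rw [h] at hspec; simp at hspec
      · exact h
    have hmin : (R - 1) ^ (s + 1) ≤ k ^ (s + 1) * m := by
      have := Nat.find_min hex (m := R - 1) (by omega)
      push Not at this
      exact this
    have hR2 : 2 ≤ R := by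
      by_contra hcon
      have h1 : R = 1 := by omega
      rw [h1, one_pow] at hspec
      have : 0 < k ^ (s + 1) * m := Nat.mul_pos (Nat.pow_pos (by omega)) (by omega)
      omega
    -- the foundation bound with `f = R + s - 1`
    have h3 : N ≤ (R + s - 1 - (s + 1)).choose j := by
      by_contra hcon
      push Not at hcon
      have h4 := design_bound hN s k m htk hm (R + s - 1) (by rw [hkj]; exact hcon)
      have h5 : R ^ (s + 1) ≤ (s + 1).factorial * (R + s - 1 + 1).choose (s + 1) := by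
        have := Nat.pow_sub_le_descFactorial (R + s - 1 + 1) (s + 1)
        rw [Nat.descFactorial_eq_factorial_mul_choose] at this
        rw [show R + s - 1 + 1 + 1 - (s + 1) = R by omega] at this
        exact this
      have h6 : (s + 1).factorial * k.choose (s + 1) ≤ k ^ (s + 1) := by
        rw [← Nat.descFactorial_eq_factorial_mul_choose]
        exact Nat.descFactorial_le_pow k (s + 1)
      have h7 : R ^ (s + 1) ≤ k ^ (s + 1) * m := by
        calc R ^ (s + 1) ≤ (s + 1).factorial * (R + s - 1 + 1).choose (s + 1) := h5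
          _ ≤ (s + 1).factorial * (k.choose (s + 1) * m) := Nat.mul_le_mul_left _ h4
          _ = ((s + 1).factorial * k.choose (s + 1)) * m := by ring
          _ ≤ k ^ (s + 1) * m := Nat.mul_le_mul_right _ h6
      omega
    set n := R + s - 1 - (s + 1) with hn
    have hnR : n ≤ R - 1 := by omega
    have h4 : n ^ (s + 1) ≤ k ^ (s + 1) * m := (Nat.pow_le_pow_left hnR _).trans hmin
    have h5 : j ^ j * N ≤ (3 * n) ^ j :=
      (Nat.mul_le_mul_left _ h3).trans (TradeTools.choose_bound n j)
    have h6 : k ≤ (s + 1 + 1) * j := by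
      rw [hj]; nlinarith
    have h7 : (j ^ j) ^ (s + 1) * N ^ (s + 1)
        ≤ (j ^ j) ^ (s + 1) * ((3 * (s + 1 + 1)) ^ (s + 1) * m) ^ j := by
      calc (j ^ j) ^ (s + 1) * N ^ (s + 1) = (j ^ j * N) ^ (s + 1) := by rw [mul_pow]
        _ ≤ ((3 * n) ^ j) ^ (s + 1) := Nat.pow_le_pow_left h5 _
        _ = (3 ^ (s + 1) * n ^ (s + 1)) ^ j := by
            rw [← pow_mul, mul_comm j (s + 1), pow_mul, mul_pow]
        _ ≤ (3 ^ (s + 1) * (k ^ (s + 1) * m)) ^ j :=
            Nat.pow_le_pow_left (Nat.mul_le_mul_left _ h4) _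
        _ ≤ (3 ^ (s + 1) * (((s + 1 + 1) * j) ^ (s + 1) * m)) ^ j := by
            apply Nat.pow_le_pow_left
            apply Nat.mul_le_mul_left
            apply Nat.mul_le_mul_right
            exact Nat.pow_le_pow_left h6 _
        _ = (j ^ (s + 1) * ((3 * (s + 1 + 1)) ^ (s + 1) * m)) ^ j := by
            congr 1
            rw [mul_pow, mul_pow]; ring
        _ = (j ^ j) ^ (s + 1) * ((3 * (s + 1 + 1)) ^ (s + 1) * m) ^ j := by
            rw [mul_pow, ← pow_mul, ← pow_mul, mul_comm (s + 1) j]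
    exact Nat.le_of_mul_le_mul_left h7 (by positivity)

/-- the general construction -/
lemma upper_all (N t k : ℕ) (hN : 2 ≤ N) (htk : t < k) :
    ∃ q v : ℕ, v ∈ Volumes N t k ∧ v ≤ q * max q (2 * k) ^ (t - 1) ∧ (t = 0 → v = 1) ∧
      q ^ (k - t) ≤ (2 * (4 * (t + 1)) ^ t) ^ (k - t) * N := by
  cases t with
  | zero =>
    have h1 : N ≤ 2 ^ (N * k) := by
      have h1 : N ≤ 2 ^ N := Nat.lt_two_pow_self.le
      refine h1.trans (Nat.pow_le_pow_right (by norm_num) ?_)
      nlinarith
    obtain ⟨T, hT, hc⟩ := TradeTools.upper_zero N k N h1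
    refine ⟨1, 1, ⟨_, inferInstance, inferInstance, T, hT, hc⟩, by simp, fun _ => rfl, ?_⟩
    rw [one_pow]
    exact Nat.mul_pos (by positivity) (by omega)
  | succ s =>
    obtain ⟨a, b, hb, hab, hkb, hle, hq, hb2⟩ := TradeTools.choose_levels s k N htk (by omega)
    obtain ⟨T, hT, hc⟩ := TradeTools.upper_gen s a b k k N hb hab hkb le_rfl hle
    refine ⟨2 ^ a, 2 ^ (a + b * s), ⟨_, inferInstance, inferInstance, T, hT, hc⟩, ?_, by omega, ?_⟩
    · rw [pow_add, pow_mul, Nat.add_sub_cancel]
      exact Nat.mul_le_mul_left _ (Nat.pow_le_pow_left hb2 s)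
    · refine hq.trans ?_
      apply Nat.mul_le_mul_right
      apply Nat.pow_le_pow_left
      apply Nat.mul_le_mul_left
      exact Nat.pow_le_pow_right (by omega) (by omega)

section arithmetic

lemma step_up {N ρ σ : ℕ} (h1 : 1 ≤ ρ) (h : N * ρ ≤ 2 ^ (ρ - 1)) (hle : ρ ≤ σ) :
    N * σ ≤ 2 ^ (σ - 1) := by
  induction σ, hle using Nat.le_induction with
  | base => exact h
  | succ σ hσ ih =>
    obtain ⟨τ, rfl⟩ : ∃ τ, σ = τ + 1 := ⟨σ - 1, by omega⟩
    simp only [Nat.add_sub_cancel] at ih ⊢
    rw [pow_succ]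
    nlinarith

lemma pow_le_sum (e : ℕ) :
    ∃ C : ℕ, ∀ L : ℕ, L ^ e ≤ C * ∑ i ∈ range (e + 1), L.choose i := by
  refine ⟨2 ^ e * e.factorial + (2 * e) ^ e, fun L => ?_⟩
  rcases le_or_gt (2 * e) L with h | h
  · have h1 : L ^ e ≤ 2 ^ e * (L + 1 - e) ^ e := by
      rw [← mul_pow]
      exact Nat.pow_le_pow_left (by omega) e
    have h2 : (L + 1 - e) ^ e ≤ e.factorial * L.choose e := by
      have h3 := Nat.pow_sub_le_descFactorial L e
      rw [Nat.descFactorial_eq_factorial_mul_choose] at h3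
      exact h3
    have h3 : L.choose e ≤ ∑ i ∈ range (e + 1), L.choose i :=
      single_le_sum (f := fun i => L.choose i) (fun _ _ => Nat.zero_le _)
        (mem_range.2 (by omega))
    calc L ^ e ≤ 2 ^ e * (L + 1 - e) ^ e := h1
      _ ≤ 2 ^ e * (e.factorial * L.choose e) := Nat.mul_le_mul_left _ h2
      _ ≤ 2 ^ e * (e.factorial * ∑ i ∈ range (e + 1), L.choose i) :=
          Nat.mul_le_mul_left _ (Nat.mul_le_mul_left _ h3)
      _ ≤ _ := by rw [add_mul, mul_assoc]; exact Nat.le_add_right _ _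
  · have h1 : L ^ e ≤ (2 * e) ^ e := Nat.pow_le_pow_left h.le e
    have h3 : 1 ≤ ∑ i ∈ range (e + 1), L.choose i := by
      calc 1 = L.choose 0 := by simp
        _ ≤ _ := single_le_sum (f := fun i => L.choose i) (fun _ _ => Nat.zero_le _)
          (mem_range.2 (by omega))
    calc L ^ e ≤ (2 * e) ^ e := h1
      _ ≤ (2 * e) ^ e * ∑ i ∈ range (e + 1), L.choose i := Nat.le_mul_of_pos_right _ h3
      _ ≤ _ := by rw [add_mul]; exact Nat.le_add_left _ _

/-- choice of the field for the construction -/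
lemma choose_s (e L : ℕ) (hL : 1 ≤ L) :
    ∃ s, 1 ≤ s ∧ L + 1 + s * e ≤ 2 ^ s - 1 ∧ 2 ^ s ≤ 2 ^ (2 * e + 2) * (6 * L) := by
  set j := Nat.log 2 (L + 2) + 1 with hj
  set c := 2 * e + 2 with hc
  have h1 : L + 2 < 2 ^ j := Nat.lt_pow_succ_log_self (by norm_num) _
  have h2 : 2 ^ j ≤ 2 * (L + 2) := by
    rw [hj, pow_succ]
    have := Nat.pow_log_le_self 2 (x := L + 2) (by omega)
    omega
  have h3 : j + 1 ≤ 2 ^ j := Nat.lt_two_pow_self
  have h4 : (c + 1) * e + 1 ≤ 2 ^ c := by
    have h5 : e + 1 ≤ 2 ^ e := Nat.lt_two_pow_self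
    have h6 : 2 ^ c = 4 * (2 ^ e * 2 ^ e) := by
      rw [hc, pow_add, two_mul, pow_add]; ring
    rw [h6, hc]
    nlinarith [Nat.mul_le_mul h5 h5]
  refine ⟨j + c, by omega, ?_, ?_⟩
  · have h7 : L + 2 + (j + c) * e ≤ 2 ^ (j + c) := by
      rw [pow_add]
      have h8 : (j + c) * e ≤ (c + 1) * e * (j + 1) := by
        calc (j + c) * e ≤ ((c + 1) * (j + 1)) * e := by
              apply Nat.mul_le_mul_right
              nlinarith [Nat.zero_le (c * j)]
          _ = _ := by ring
      have h9 : ((c + 1) * e + 1) * 2 ^ j ≤ 2 ^ j * 2 ^ c := by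
        rw [mul_comm (2 ^ j)]; exact Nat.mul_le_mul_right _ h4
      have h10 : (c + 1) * e * (j + 1) ≤ (c + 1) * e * 2 ^ j := Nat.mul_le_mul_left _ h3
      calc L + 2 + (j + c) * e ≤ 2 ^ j + (c + 1) * e * 2 ^ j := by omega
        _ = ((c + 1) * e + 1) * 2 ^ j := by ring
        _ ≤ _ := h9
    omega
  · rw [pow_add, mul_comm]
    apply Nat.mul_le_mul_left
    omega

end arithmetic

lemma P1 (N t k m e : ℕ) (hN : 2 ≤ N) (htk : t < k) (he : 2 * e ≤ t) (hm : m ∈ Volumes N t k) :
    ∃ ρ, 1 ≤ ρ ∧ lowWeight (N * ρ) e ≤ ρ ∧ 2 ^ (t - 2 * e) * ρ ≤ m := by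
  have ht : t = (t - 2 * e) + 2 * e := by omega
  rw [ht] at hm htk
  exact lower_bound N hN e (t - 2 * e) k m htk hm

lemma P2 (N t k m e d : ℕ) (hN : 2 ≤ N) (htk : t < k) (he : 2 * e ≤ t) (hd : 2 ^ d ≤ N)
    (hm : m ∈ Volumes N t k) : 2 ^ (t - 2 * e) * ∑ i ∈ range (e + 1), d.choose i ≤ m := by
  obtain ⟨ρ, h1, h2, h3⟩ := P1 N t k m e hN htk he hm
  refine le_trans (Nat.mul_le_mul_left _ ?_) h3
  rw [← low_pow]
  refine (low_mono ?_ e).trans h2
  nlinarith

lemma P3 (N t k s : ℕ) (hs : 1 ≤ s) (hN : N * 2 ^ (s * (t / 2)) ≤ 2 ^ (2 ^ s - 1))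
    (hk : 2 ^ s + t % 2 ≤ k + 1) : 2 ^ (s * (t / 2) + t % 2) ∈ Volumes N t k := by
  rcases Nat.mod_two_eq_zero_or_one t with h | h
  · have ht : t = 2 * (t / 2) := by omega
    rw [h] at hk ⊢
    have := upper_even (t / 2) s N k hs hN (by omega)
    rw [← ht] at this
    exact this
  · have ht : t = 2 * (t / 2) + 1 := by omega
    rw [h] at hk ⊢
    have := upper_odd (t / 2) s N k hs hN (by omega)
    rw [← ht] at this
    exact this

/-- large `k`: upper bound -/
lemma P4 (t : ℕ) : ∃ C : ℕ, 0 < C ∧ ∀ N k : ℕ, 2 ≤ N → C * Nat.log 2 N ≤ k →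
    ∃ v ∈ Volumes N t k, v ≤ C * Nat.log 2 N ^ (t / 2) := by
  set e := t / 2 with he
  set A := 6 * 2 ^ (2 * e + 2) with hA
  have hA1 : 1 ≤ A := by
    have := Nat.one_le_two_pow (n := 2 * e + 2)
    omega
  have hApow : 1 ≤ A ^ (e + 1) := Nat.one_le_pow _ _ (by omega)
  refine ⟨2 * A ^ (e + 1), by omega, ?_⟩
  intro N k hN hk
  set L := Nat.log 2 N with hL
  have hL1 : 1 ≤ L := Nat.log_pos (by norm_num) hN
  have hNlt : N < 2 ^ (L + 1) := Nat.lt_pow_succ_log_self (by norm_num) _
  obtain ⟨s, hs1, hs2, hs3⟩ := choose_s e L hL1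
  have hAL : 2 ^ s ≤ A * L := by
    calc 2 ^ s ≤ 2 ^ (2 * e + 2) * (6 * L) := hs3
      _ = A * L := by rw [hA]; ring
  refine ⟨2 ^ (s * e + t % 2), ?_, ?_⟩
  · apply P3 N t k s hs1
    · calc N * 2 ^ (s * e) ≤ 2 ^ (L + 1) * 2 ^ (s * e) := Nat.mul_le_mul_right _ hNlt.le
        _ = 2 ^ (L + 1 + s * e) := by rw [← pow_add]
        _ ≤ 2 ^ (2 ^ s - 1) := Nat.pow_le_pow_right (by norm_num) hs2
    · have h1 : A * L ≤ A ^ (e + 1) * L := by
        apply Nat.mul_le_mul_right
        calc A = A ^ 1 := (pow_one A).symm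
          _ ≤ A ^ (e + 1) := Nat.pow_le_pow_right hA1 (by omega)
      have h2 : t % 2 ≤ 1 := by omega
      have h3 : 2 * A ^ (e + 1) * L = 2 * (A ^ (e + 1) * L) := by ring
      omega
  · calc 2 ^ (s * e + t % 2) ≤ 2 ^ (s * e + 1) :=
          Nat.pow_le_pow_right (by norm_num) (by omega)
      _ = 2 * (2 ^ s) ^ e := by rw [pow_succ, pow_mul]; ring
      _ ≤ 2 * (A * L) ^ e := Nat.mul_le_mul_left _ (Nat.pow_le_pow_left hAL e)
      _ = 2 * A ^ e * L ^ e := by rw [mul_pow]; ring
      _ ≤ 2 * A ^ (e + 1) * L ^ e := by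
          apply Nat.mul_le_mul_right
          apply Nat.mul_le_mul_left
          exact Nat.pow_le_pow_right hA1 (by omega)

/-- exact values -/
lemma P5 (N t k s : ℕ) (hs : 2 ≤ s) (ht : t = 2 ∨ t = 3) (hk : 2 ^ s + t ≤ k + 3)
    (hN1 : 2 ^ (2 ^ s - 2) < (2 ^ s - 1) * N) (hN2 : N ≤ 2 ^ (2 ^ s - 1 - s)) :
    IsLeast (Volumes N t k) (2 ^ (s + t - 2)) := by
  have hs2 : s + 1 ≤ 2 ^ s := Nat.lt_two_pow_self
  have h4 : 4 ≤ 2 ^ s := by
    calc 4 = 2 ^ 2 := by norm_num
      _ ≤ 2 ^ s := Nat.pow_le_pow_right (by norm_num) hs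
  have ht2 : t / 2 = 1 := by omega
  have htm : t % 2 = t - 2 := by omega
  have hN0 : 2 ≤ N := by
    by_contra hcon
    have hN3 : N ≤ 1 := by omega
    have h5 : (2 ^ s - 1) * N ≤ 2 ^ s - 1 := by
      calc (2 ^ s - 1) * N ≤ (2 ^ s - 1) * 1 := Nat.mul_le_mul_left _ hN3
        _ = _ := by ring
    have h6 : 2 ^ s ≤ 2 ^ (2 ^ s - 2) := by
      apply Nat.pow_le_pow_right (by norm_num)
      rcases Nat.lt_or_ge s 3 with h | h
      · have : s = 2 := by omega
        subst this; norm_num
      · obtain ⟨r, rfl⟩ : ∃ r, s = r + 3 := ⟨s - 3, by omega⟩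
        have : r + 1 ≤ 2 ^ r := Nat.lt_two_pow_self
        rw [pow_add]
        omega
    omega
  constructor
  · have := P3 N t k s (by omega) (by
      rw [ht2, mul_one]
      calc N * 2 ^ s ≤ 2 ^ (2 ^ s - 1 - s) * 2 ^ s := Nat.mul_le_mul_right _ hN2
        _ = 2 ^ (2 ^ s - 1) := by rw [← pow_add]; congr 1; omega) (by omega)
    rw [ht2, htm, mul_one] at this
    have he : s + t - 2 = s + (t - 2) := by omega
    rw [he]
    exact this
  · intro m hm
    obtain ⟨ρ, h1, h2, h3⟩ := P1 N t k m 1 hN0 (by omega) (by omega) hm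
    have h5 := low_one_right (N * ρ) (by nlinarith)
    have h6 : N * ρ ≤ 2 ^ (ρ - 1) :=
      h5.1.trans (Nat.pow_le_pow_right (by norm_num) (by omega))
    have h7 : 2 ^ s ≤ ρ := by
      by_contra hcon
      push Not at hcon
      have := step_up h1 h6 (show ρ ≤ 2 ^ s - 1 by omega)
      rw [show 2 ^ s - 1 - 1 = 2 ^ s - 2 by omega, mul_comm] at this
      omega
    have he : s + t - 2 = (t - 2 * 1) + s := by omega
    rw [he, pow_add]
    exact (Nat.mul_le_mul_left _ h7).trans h3

/-- adding a common point to all blocks -/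
lemma lift {N t k m : ℕ} (htk : t < k) (hm : m ∈ Volumes N t k) : m ∈ Volumes N t (k + 1) := by
  classical
  obtain ⟨X, i1, i2, T, hT, hcard⟩ := hm
  refine ⟨Option X, inferInstance, inferInstance,
    fun i => (T i).map (fun B => insertNone B), ⟨?_, ?_, ?_, ?_⟩, fun i => by
      rw [Multiset.card_map]; exact hcard i⟩
  · intro i h
    obtain ⟨B, hB⟩ := Multiset.exists_mem_of_ne_zero (hT.1 i)
    have h' : (T i).map (fun B => insertNone B) = 0 := h
    have : insertNone B ∈ (T i).map (fun B => insertNone B) :=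
      Multiset.mem_map_of_mem (fun B => insertNone B) hB
    rw [h'] at this
    simp at this
  · intro i C hC
    obtain ⟨B, hB, rfl⟩ := Multiset.mem_map.1 hC
    rw [card_insertNone, hT.2.1 i B hB]
  · intro i j hij C hC hC'
    obtain ⟨B, hB, rfl⟩ := Multiset.mem_map.1 hC
    obtain ⟨B', hB', he⟩ := Multiset.mem_map.1 hC'
    have : B' = B := by
      have h1 := congrArg eraseNone he
      simpa using h1
    subst this
    exact hT.2.2.1 i j hij _ hB hB'
  · intro i j S hS
    have key : ∀ i, ((T i).map (fun B => insertNone B)).countP (fun C => S ⊆ C)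
        = (T i).countP (fun B => eraseNone S ⊆ B) := by
      intro i
      rw [Multiset.countP_map, Multiset.countP_eq_card_filter]
      congr 1
      apply Multiset.filter_congr
      intro B _
      constructor
      · intro h x hx
        have := h (mem_eraseNone.1 hx)
        exact some_mem_insertNone.1 this
      · intro h y hy
        cases y with
        | none => exact none_mem_insertNone
        | some x => exact some_mem_insertNone.2 (h (mem_eraseNone.2 hy))
    rw [key, key]
    apply balanced htk hT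
    have h1 : (eraseNone S).card = ((eraseNone S).map Function.Embedding.some).card :=
      (card_map _).symm
    rw [h1, map_some_eraseNone, ← hS]
    exact card_le_card (erase_subset _ _)

lemma lift_le {N t k k' m : ℕ} (htk : t < k) (hkk : k ≤ k') (hm : m ∈ Volumes N t k) :
    m ∈ Volumes N t k' := by
  induction k', hkk using Nat.le_induction with
  | base => exact hm
  | succ k' hk' ih => exact lift (by omega) ih

/-- the packing condition -/
lemma pack_ineq {δ : ℝ} {N n : ℕ} (hδ0 : 0 < δ) (hδ1 : δ ≤ 1 / 3) (hNpos : (0 : ℝ) < N)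
    (hL4 : 4 ≤ Real.logb 2 N) (hLδ : 256 / δ ^ 2 ≤ Real.logb 2 N) (hnpos : 0 < n)
    (hn1 : (1 + δ) * Real.logb 2 N ≤ n) : N * (4 * n ^ 3) ≤ 2 ^ n := by
  set L := Real.logb 2 N with hL
  have hnR : (0 : ℝ) < n := by exact_mod_cast hnpos
  set s := Real.sqrt n with hs
  have hs0 : 0 < s := Real.sqrt_pos.2 hnR
  have hss : s * s = n := Real.mul_self_sqrt hnR.le
  have hLn : L ≤ n := by nlinarith
  have hsL : 16 / δ ≤ s := by
    rw [hs]
    apply Real.le_sqrt_of_sq_le
    rw [div_pow]
    norm_num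
    linarith
  have hlogs : Real.logb 2 s ≤ s := Density.logb_le_self s hs0
  have hlogn : Real.logb 2 n ≤ 2 * s := by
    have h1 : Real.logb 2 (n : ℝ) = Real.logb 2 s + Real.logb 2 s := by
      rw [← Real.logb_mul hs0.ne' hs0.ne', hss]
    linarith
  have hδs : 16 ≤ δ * s := by
    rw [div_le_iff₀ hδ0] at hsL
    linarith
  have hs1 : 1 ≤ s := by nlinarith
  have h1 : L ≤ (1 - δ / 2) * n := by
    have h2 : (1 - δ / 2) * ((1 + δ) * L) ≤ (1 - δ / 2) * n :=
      mul_le_mul_of_nonneg_left hn1 (by linarith)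
    have h3 : L ≤ (1 - δ / 2) * ((1 + δ) * L) := by
      have h4 : 1 ≤ (1 - δ / 2) * (1 + δ) := by nlinarith
      calc L = 1 * L := (one_mul L).symm
        _ ≤ ((1 - δ / 2) * (1 + δ)) * L := mul_le_mul_of_nonneg_right h4 (by linarith)
        _ = _ := by ring
    linarith
  have h4 : 2 + 6 * s ≤ δ / 2 * n := by
    rw [← hss]
    have : 16 * s ≤ δ * s * s := mul_le_mul_of_nonneg_right hδs hs0.le
    nlinarith
  have hmain : L + (2 + 3 * Real.logb 2 n) ≤ n := by linarith
  have e0 : (N : ℝ) = (2 : ℝ) ^ L := by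
    rw [hL, Real.rpow_logb (by norm_num) (by norm_num) hNpos]
  have e1 : (n : ℝ) = (2 : ℝ) ^ Real.logb 2 n := by
    rw [Real.rpow_logb (by norm_num) (by norm_num) hnR]
  have e2 : (N : ℝ) * (4 * (n : ℝ) ^ 3) = (2 : ℝ) ^ (L + (2 + 3 * Real.logb 2 n)) := by
    have e4 : (2 : ℝ) ^ (L + (2 + 3 * Real.logb 2 n))
        = (2 : ℝ) ^ L * (4 * ((2 : ℝ) ^ Real.logb 2 n * ((2 : ℝ) ^ Real.logb 2 n
          * (2 : ℝ) ^ Real.logb 2 n))) := by
      rw [show 3 * Real.logb 2 (n : ℝ) = Real.logb 2 n + (Real.logb 2 n + Real.logb 2 n) by ring,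
        Real.rpow_add (by norm_num), Real.rpow_add (by norm_num), Real.rpow_add (by norm_num),
        Real.rpow_add (by norm_num)]
      norm_num
    rw [e4, ← e0, ← e1]
    ring
  have e3 : (N : ℝ) * (4 * (n : ℝ) ^ 3) ≤ (2 : ℝ) ^ n := by
    rw [e2, ← Real.rpow_natCast 2 n]
    exact Real.rpow_le_rpow_of_exponent_le (by norm_num) hmain
  exact_mod_cast e3

/-- the asymptotic value for `t = 2, 3` -/
lemma asymptotic (ε : ℝ) (hε : 0 < ε) : ∃ N₀ : ℕ, ∀ N t k : ℕ, N₀ ≤ N → (t = 2 ∨ t = 3) →
    (1 / 2 + ε) * Real.logb 2 N ≤ k → ∃ m : ℕ, IsLeast (Volumes N t k) m ∧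
      2 ^ (t - 2) * Real.logb 2 N ≤ m ∧ (m : ℝ) ≤ (1 + ε) * (2 ^ (t - 2) * Real.logb 2 N) := by
  set δ : ℝ := min ε 1 / 3 with hδ
  have hmin0 : 0 < min ε 1 := lt_min hε one_pos
  have hδ0 : 0 < δ := by positivity
  have hδ1 : δ ≤ 1 / 3 := by
    have : min ε 1 ≤ 1 := min_le_right _ _
    rw [hδ]; linarith
  have hδε : (1 + δ) * (1 + δ) ≤ 1 + ε := by
    have : min ε 1 ≤ ε := min_le_left _ _
    have h3 : 3 * δ ≤ ε := by rw [hδ]; linarith
    nlinarith
  obtain ⟨X, hX0, hX⟩ := Density.had_near δ hδ0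
  set L₀ : ℝ := max (max X (256 / δ ^ 2)) 16 with hL₀
  refine ⟨⌈(2 : ℝ) ^ L₀⌉₊, fun N t k hN ht hk => ?_⟩
  have hN1 : (2 : ℝ) ^ L₀ ≤ N := (Nat.le_ceil _).trans (by exact_mod_cast hN)
  have hNpos : (0 : ℝ) < N := lt_of_lt_of_le (by positivity) hN1
  set L := Real.logb 2 N with hL
  have hLL : L₀ ≤ L := by
    rw [hL, Real.le_logb_iff_rpow_le (by norm_num) hNpos]; exact hN1
  have hLX : X ≤ L := ((le_max_left _ _).trans (le_max_left _ _)).trans hLL
  have hLδ : 256 / δ ^ 2 ≤ L := ((le_max_right _ _).trans (le_max_left _ _)).trans hLL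
  have hL16 : 16 ≤ L := (le_max_right _ _).trans hLL
  have hL4 : 4 ≤ L := by linarith
  have hN2 : 2 ≤ N := by
    have h1 : (2 : ℝ) ^ (1 : ℝ) ≤ 2 ^ L₀ :=
      Real.rpow_le_rpow_of_exponent_le (by norm_num) (by linarith [le_max_right (max X (256 / δ ^ 2)) 16])
    rw [Real.rpow_one] at h1
    have h2 : (2 : ℝ) ≤ N := h1.trans hN1
    exact_mod_cast h2
  obtain ⟨n, hn, hnpos, hn1, hn2⟩ := hX ((1 + δ) * L) (by nlinarith)
  have hnε : (n : ℝ) ≤ (1 + ε) * L := by
    calc (n : ℝ) ≤ (1 + δ) * ((1 + δ) * L) := hn2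
      _ = ((1 + δ) * (1 + δ)) * L := by ring
      _ ≤ (1 + ε) * L := mul_le_mul_of_nonneg_right hδε (by linarith)
  have hnR : (0 : ℝ) < n := by exact_mod_cast hnpos
  have hpack : N * (4 * n ^ 3) ≤ 2 ^ n :=
    pack_ineq hδ0 hδ1 hNpos hL4 hLδ hnpos hn1
  have hn16 : (16 : ℝ) ≤ n := by nlinarith
  have hn16' : 16 ≤ n := by exact_mod_cast hn16
  -- volumes
  obtain ⟨w, hw, T, hT, hc⟩ := Hadamard.had_trade hn (by omega) N hpack
  have hwk : w ≤ k := by
    have h1 : (2 : ℝ) * w = n := by exact_mod_cast hw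
    have h2 : (w : ℝ) ≤ k := by nlinarith
    exact_mod_cast h2
  have hvol3 : 2 * (n - 1) ∈ Volumes N 3 k :=
    lift_le (by omega) hwk ⟨_, inferInstance, inferInstance, T, hT, hc⟩
  have hk4 : 4 < k := by omega
  have hlow : ∀ m ∈ Volumes N t k, 2 ^ (t - 2) * L ≤ m := by
    intro m hm
    obtain ⟨ρ, h1, h2, h3⟩ := P1 N t k m 1 hN2 (by omega) (by omega) hm
    have h5 := low_one_right (N * ρ) (by nlinarith)
    have h6 : N * ρ ≤ 2 ^ (ρ - 1) :=
      h5.1.trans (Nat.pow_le_pow_right (by norm_num) (by omega))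
    have h7 : N ≤ 2 ^ ρ := by
      calc N ≤ N * ρ := Nat.le_mul_of_pos_right _ h1
        _ ≤ 2 ^ (ρ - 1) := h6
        _ ≤ 2 ^ ρ := Nat.pow_le_pow_right (by norm_num) (by omega)
    have h8 : L ≤ ρ := by
      rw [hL, Real.logb_le_iff_le_rpow (by norm_num) hNpos, Real.rpow_natCast]
      exact_mod_cast h7
    have h9 : ((2 ^ (t - 2 * 1) * ρ : ℕ) : ℝ) ≤ m := by exact_mod_cast h3
    push_cast at h9
    rw [show t - 2 * 1 = t - 2 by omega] at h9
    refine le_trans ?_ h9
    exact mul_le_mul_of_nonneg_left h8 (by positivity)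
  have hup : ∃ v ∈ Volumes N t k, v ≤ 2 ^ (t - 2) * n := by
    rcases ht with rfl | rfl
    · obtain ⟨m₁, m₂, h1, h2, h3⟩ := split hN2 (by omega) hvol3
      rcases le_total m₂ m₁ with h | h
      · exact ⟨m₂, h2, by simp only [Nat.sub_self, pow_zero, one_mul]; omega⟩
      · refine ⟨m₁, ?_, by simp only [Nat.sub_self, pow_zero, one_mul]; omega⟩
        have := lift (by omega) h1
        rwa [show k - 1 + 1 = k by omega] at this
    · exact ⟨2 * (n - 1), hvol3, by norm_num⟩
  obtain ⟨v, hv, hvle⟩ := hup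
  refine ⟨sInf (Volumes N t k), ⟨Nat.sInf_mem ⟨v, hv⟩, fun x hx => Nat.sInf_le hx⟩,
    hlow _ (Nat.sInf_mem ⟨v, hv⟩), ?_⟩
  have h1 : ((sInf (Volumes N t k) : ℕ) : ℝ) ≤ v := by exact_mod_cast Nat.sInf_le hv
  have h2 : (v : ℝ) ≤ 2 ^ (t - 2) * n := by exact_mod_cast hvle
  calc ((sInf (Volumes N t k) : ℕ) : ℝ) ≤ 2 ^ (t - 2) * n := h1.trans h2
    _ ≤ 2 ^ (t - 2) * ((1 + ε) * L) := mul_le_mul_of_nonneg_left hnε (by positivity)
    _ = (1 + ε) * (2 ^ (t - 2) * L) := by ring

/-- The Rao-type lower bound for `t = 2`, using that the blocks have `k` points. -/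
lemma rank_bound_unif {N k m : ℕ} (hN : 1 ≤ N) (hk : 2 < k) (hm : m ∈ Volumes N 2 k) :
    ∃ ρ, 1 ≤ ρ ∧ N * ρ ≤ ∑ i ∈ range (k + 1), ρ.choose i ∧ ρ ≤ m := by
  classical
  obtain ⟨X, i1, i2, T, hT, hcard⟩ := hm
  -- all blocks
  set U : Finset (Finset X) := univ.biUnion (fun i => (T i).toFinset) with hU
  have hUi : ∀ i, ∀ B ∈ T i, B ∈ U := fun i B hB =>
    mem_biUnion.2 ⟨i, mem_univ i, Multiset.mem_toFinset.2 hB⟩
  have hUk : ∀ B ∈ U, B.card = k := by
    intro B hB
    obtain ⟨i, -, hi⟩ := mem_biUnion.1 hB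
    exact hT.2.1 i B (Multiset.mem_toFinset.1 hi)
  have hUcard : U.card = ∑ i, ((T i).toFinset).card := by
    rw [hU]
    apply card_biUnion
    intro i _ j _ hij
    change Disjoint (T i).toFinset (T j).toFinset
    rw [disjoint_left]
    intro B hB hB'
    exact hT.2.2.1 i j hij B (Multiset.mem_toFinset.1 hB) (Multiset.mem_toFinset.1 hB')
  -- the functions
  set g : X → (U → ℝ) := fun u B => if u ∈ B.1 then 1 else 0 with hg
  set W : Submodule ℝ (U → ℝ) := Submodule.span ℝ (Set.range g) with hW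
  have hsq : ∀ (c : X → ℝ) (M : Multiset (Finset X)),
      (M.map (fun B => (∑ u, c u * (if u ∈ B then 1 else 0)) ^ 2)).sum
        = ∑ u, ∑ v, c u * c v * (M.countP (fun B => u ∈ B ∧ v ∈ B) : ℝ) := by
    intro c M
    induction M using Multiset.induction with
    | empty => simp
    | cons B M ih =>
      rw [Multiset.map_cons, Multiset.sum_cons, ih]
      simp only [Multiset.countP_cons, Nat.cast_add, mul_add, sum_add_distrib]
      rw [add_comm]
      congr 1
      rw [sq, sum_mul_sum]
      apply sum_congr rfl; intro u _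
      apply sum_congr rfl; intro v _
      by_cases h1 : u ∈ B <;> by_cases h2 : v ∈ B <;> simp [h1, h2]
  have hpair : ∀ (u v : X) j, (T j).countP (fun B => u ∈ B ∧ v ∈ B)
      = (T j).countP (fun B => ({u} ∪ {v} : Finset X) ⊆ B) := by
    intro u v j
    apply Multiset.countP_congr rfl
    intro B _
    rw [union_subset_iff, singleton_subset_iff, singleton_subset_iff]
  have hzero : ∀ (i : Fin N) (w : U → ℝ), w ∈ W → (∀ B : U, B.1 ∈ T i → w B = 0) → w = 0 := by
    intro i w hw hwi
    obtain ⟨c, hc⟩ := (Submodule.mem_span_range_iff_exists_fun ℝ).1 hw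
    have hval : ∀ B : U, w B = ∑ u, c u * (if u ∈ B.1 then 1 else 0) := by
      intro B
      rw [← hc]
      simp only [hg, Finset.sum_apply, Pi.smul_apply, smul_eq_mul]
    have hq : ∀ j, ((T j).map (fun B => (∑ u, c u * (if u ∈ B then (1 : ℝ) else 0)) ^ 2)).sum
        = ((T i).map (fun B => (∑ u, c u * (if u ∈ B then (1 : ℝ) else 0)) ^ 2)).sum := by
      intro j
      rw [hsq, hsq]
      apply sum_congr rfl; intro u _
      apply sum_congr rfl; intro v _
      have hcd : (({u} : Finset X) ∪ {v}).card ≤ 2 := (card_union_le _ _).trans (by simp)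
      rw [hpair, hpair, balanced hk hT j i _ hcd]
    have hqi : ((T i).map (fun B => (∑ u, c u * (if u ∈ B then (1 : ℝ) else 0)) ^ 2)).sum = 0 := by
      apply Multiset.sum_eq_zero
      intro y hy
      obtain ⟨B, hB, rfl⟩ := Multiset.mem_map.1 hy
      have h0 := hval ⟨B, hUi i B hB⟩
      rw [hwi ⟨B, hUi i B hB⟩ hB] at h0
      change (∑ u, c u * (if u ∈ B then (1 : ℝ) else 0)) ^ 2 = 0
      rw [← h0]
      ring
    funext B
    obtain ⟨j, -, hj⟩ := mem_biUnion.1 B.2
    have hj' := Multiset.mem_toFinset.1 hj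
    have h0 := (hq j).trans hqi
    have h1 : (∑ u, c u * (if u ∈ B.1 then (1 : ℝ) else 0)) ^ 2
        ≤ ((T j).map (fun B => (∑ u, c u * (if u ∈ B then (1 : ℝ) else 0)) ^ 2)).sum := by
      apply Multiset.single_le_sum
      · intro y hy
        obtain ⟨C, -, rfl⟩ := Multiset.mem_map.1 hy
        exact sq_nonneg _
      · exact Multiset.mem_map.2 ⟨B.1, hj', rfl⟩
    rw [h0] at h1
    have h2 : ∑ u, c u * (if u ∈ B.1 then (1 : ℝ) else 0) = 0 := by
      have := le_antisymm h1 (sq_nonneg _)
      exact pow_eq_zero_iff (two_ne_zero) |>.1 this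
    rw [hval B, h2]
    rfl
  set ρ := Module.finrank ℝ W with hρ
  -- each leg has at least `ρ` different blocks
  have hleg : ∀ i, ρ ≤ ((T i).toFinset).card := by
    intro i
    let R : (U → ℝ) →ₗ[ℝ] ((T i).toFinset → ℝ) :=
      LinearMap.funLeft ℝ ℝ (fun B : (T i).toFinset =>
        (⟨B.1, hUi i B.1 (Multiset.mem_toFinset.1 B.2)⟩ : U))
    have hinj : Function.Injective (R ∘ₗ W.subtype) := by
      rw [← LinearMap.ker_eq_bot, LinearMap.ker_eq_bot']
      intro w hw
      apply Subtype.ext
      apply hzero i w.1 w.2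
      intro B hB
      have := congrFun hw (⟨B.1, Multiset.mem_toFinset.2 hB⟩ : (T i).toFinset)
      exact this
    have := LinearMap.finrank_le_finrank_of_injective hinj
    rw [Module.finrank_fintype_fun_eq_card, Fintype.card_coe] at this
    exact this
  have hUρ : N * ρ ≤ U.card := by
    rw [hUcard]
    calc N * ρ = ∑ _i : Fin N, ρ := by simp
      _ ≤ _ := sum_le_sum (fun i _ => hleg i)
  have hUne : U.Nonempty := by
    obtain ⟨B, hB⟩ := Multiset.exists_mem_of_ne_zero (hT.1 ⟨0, by omega⟩)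
    exact ⟨B, hUi _ B hB⟩
  -- basis points
  obtain ⟨κ, a, ha, hspan, hli⟩ := exists_linearIndependent' ℝ g
  have : Fintype κ := Fintype.ofInjective a ha
  set P : Finset X := univ.image a with hP
  have hPcard : P.card = ρ := by
    rw [hP, card_image_of_injective _ ha, card_univ, hρ, hW, ← hspan]
    exact (finrank_span_eq_card hli).symm
  have hUle : U.card ≤ ∑ i ∈ range (k + 1), ρ.choose i := by
    calc U.card = (U.image (fun B => B ∩ P)).card := by
          rw [card_image_of_injOn]
          intro B hB B' hB' hBB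
          have hBB' : B ∩ P = B' ∩ P := hBB
          have hagree : ∀ w ∈ Submodule.span ℝ (Set.range (g ∘ a)),
              w ⟨B, hB⟩ = w ⟨B', hB'⟩ := by
            intro w hw
            induction hw using Submodule.span_induction with
            | mem w hw =>
              obtain ⟨z, rfl⟩ := hw
              have h1 : a z ∈ B ↔ a z ∈ B' := by
                have h2 := Finset.ext_iff.1 hBB' (a z)
                rw [mem_inter, mem_inter] at h2
                have h3 : a z ∈ P := mem_image_of_mem _ (mem_univ _)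
                simpa [h3] using h2
              simp only [Function.comp, hg, h1]
            | zero => rfl
            | add v w _ _ hv hw => simp [hv, hw]
            | smul a w _ hw => simp [hw]
          ext p
          have := hagree (g p) (by
            rw [hspan]; exact Submodule.subset_span ⟨p, rfl⟩)
          simp only [hg] at this
          by_cases h1 : p ∈ B <;> by_cases h2 : p ∈ B' <;> simp [h1, h2] at this ⊢
      _ ≤ ((range (k + 1)).biUnion (fun i => powersetCard i P)).card := by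
          apply card_le_card
          intro Q hQ
          obtain ⟨B, hB, rfl⟩ := mem_image.1 hQ
          rw [mem_biUnion]
          refine ⟨(B ∩ P).card, ?_, mem_powersetCard.2 ⟨inter_subset_right, rfl⟩⟩
          rw [mem_range]
          have := card_le_card (inter_subset_left (s₁ := B) (s₂ := P))
          rw [hUk B hB] at this
          omega
      _ ≤ ∑ i ∈ range (k + 1), (powersetCard i P).card := card_biUnion_le
      _ = _ := by simp only [card_powersetCard, hPcard]
  refine ⟨ρ, ?_, hUρ.trans hUle, ?_⟩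
  · obtain ⟨B, hB⟩ := hUne
    obtain ⟨x, hx⟩ : B.Nonempty := card_pos.1 (by rw [hUk B hB]; omega)
    have hne : g x ≠ 0 := by
      intro h
      have := congrFun h ⟨B, hB⟩
      simp [hg, hx] at this
    rw [hρ]
    have : Nontrivial W := ⟨⟨g x, Submodule.subset_span ⟨x, rfl⟩⟩, 0, fun h =>
      hne (congrArg Subtype.val h)⟩
    exact Module.finrank_pos
  · have := hleg ⟨0, by omega⟩
    refine this.trans ?_
    rw [← hcard ⟨0, by omega⟩]
    exact Multiset.toFinset_card_le _


lemma chernoff (ε : ℝ) (hε : 0 < ε) (hε2 : ε < 1 / 2) (r k : ℕ) (hk : (k : ℝ) ≤ (1 / 2 - ε) * r) :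
    ((∑ i ∈ range (k + 1), r.choose i : ℕ) : ℝ) ≤ 2 ^ r * Real.exp (-(r * ε ^ 2 / 2)) := by
  have hr0 : (0 : ℝ) ≤ r := by positivity
  have hkr : k ≤ r := by
    have : (k : ℝ) ≤ r := by nlinarith
    exact_mod_cast this
  set x : ℝ := 1 - ε with hx
  have hx0 : 0 < x := by linarith
  have hx1 : x ≤ 1 := by linarith
  have h1 : ((∑ i ∈ range (k + 1), r.choose i : ℕ) : ℝ) * x ^ k ≤ (1 + x) ^ r := by
    rw [Nat.cast_sum, sum_mul]
    calc ∑ i ∈ range (k + 1), (r.choose i : ℝ) * x ^ k
        ≤ ∑ i ∈ range (k + 1), (r.choose i : ℝ) * x ^ i := by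
          apply sum_le_sum
          intro i hi
          apply mul_le_mul_of_nonneg_left _ (by positivity)
          exact pow_le_pow_of_le_one hx0.le hx1 (by have := mem_range.1 hi; omega)
      _ ≤ ∑ i ∈ range (r + 1), (r.choose i : ℝ) * x ^ i := by
          apply sum_le_sum_of_subset_of_nonneg
          · exact range_subset_range.2 (by omega)
          · intro i _ _; positivity
      _ = (1 + x) ^ r := by
          rw [add_comm 1 x, add_pow]
          apply sum_congr rfl
          intro i _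
          rw [one_pow]; ring
  have h2 : (1 + x) ^ r ≤ 2 ^ r * Real.exp (-(r * (ε / 2))) := by
    have h3 : 1 + x ≤ 2 * Real.exp (-(ε / 2)) := by
      have := Real.add_one_le_exp (-(ε / 2))
      rw [hx]; linarith
    calc (1 + x) ^ r ≤ (2 * Real.exp (-(ε / 2))) ^ r := pow_le_pow_left₀ (by linarith) h3 r
      _ = 2 ^ r * Real.exp (-(r * (ε / 2))) := by
          rw [mul_pow, ← Real.exp_nat_mul]
          congr 2
          ring
  have h4 : Real.exp (-(k * (ε / x))) ≤ x ^ k := by
    have h5 : Real.exp (-(ε / x)) ≤ x := by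
      rw [Real.exp_neg, inv_le_comm₀ (Real.exp_pos _) hx0]
      have h6 := Real.add_one_le_exp (ε / x)
      have h7 : x⁻¹ = ε / x + 1 := by
        field_simp
        rw [hx]; ring
      rw [h7]; exact h6
    calc Real.exp (-(k * (ε / x))) = (Real.exp (-(ε / x))) ^ k := by
          rw [← Real.exp_nat_mul]; congr 1; ring
      _ ≤ x ^ k := pow_le_pow_left₀ (Real.exp_pos _).le h5 k
  set Sg : ℝ := ((∑ i ∈ range (k + 1), r.choose i : ℕ) : ℝ) with hSg
  have hSg0 : 0 ≤ Sg := by positivity
  have h8 : Sg * Real.exp (-(k * (ε / x))) ≤ 2 ^ r * Real.exp (-(r * (ε / 2))) :=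
    (mul_le_mul_of_nonneg_left h4 hSg0).trans (h1.trans h2)
  have h9 : Sg ≤ 2 ^ r * Real.exp (-(r * (ε / 2))) * Real.exp (k * (ε / x)) := by
    calc Sg = Sg * Real.exp (-(k * (ε / x))) * Real.exp (k * (ε / x)) := by
          rw [mul_assoc, ← Real.exp_add]; simp
      _ ≤ _ := mul_le_mul_of_nonneg_right h8 (Real.exp_pos _).le
  refine h9.trans ?_
  rw [mul_assoc, ← Real.exp_add]
  apply mul_le_mul_of_nonneg_left _ (by positivity)
  apply Real.exp_le_exp.2
  have h10 : (k : ℝ) * (ε / x) ≤ r * (ε * (1 / 2 - ε / 2)) := by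
    have h11 : (1 / 2 - ε) ≤ (1 / 2 - ε / 2) * x := by rw [hx]; nlinarith
    calc (k : ℝ) * (ε / x) ≤ ((1 / 2 - ε) * r) * (ε / x) :=
          mul_le_mul_of_nonneg_right hk (by positivity)
      _ ≤ (((1 / 2 - ε / 2) * x) * r) * (ε / x) := by
          apply mul_le_mul_of_nonneg_right _ (by positivity)
          exact mul_le_mul_of_nonneg_right h11 hr0
      _ = r * (ε * (1 / 2 - ε / 2)) := by field_simp
  nlinarith

/-- below `k = log₂ N / 2` the minimum volume is larger, `t = 2` -/
lemma below_two (ε : ℝ) (hε : 0 < ε) (hε2 : ε < 1 / 2) {N k m : ℕ} (hN : 2 ≤ N) (hk : 2 < k)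
    (hkL : (k : ℝ) ≤ (1 / 2 - ε) * Real.logb 2 N) (hm : m ∈ Volumes N 2 k) :
    (1 + ε ^ 2 / 2) * Real.logb 2 N ≤ m := by
  obtain ⟨ρ, h1, h2, h3⟩ := rank_bound_unif (by omega) hk hm
  set L := Real.logb 2 N with hL
  have hNpos : (0 : ℝ) < N := by positivity
  have hL1 : 1 ≤ L := by
    rw [hL, Real.le_logb_iff_rpow_le (by norm_num) hNpos, Real.rpow_one]
    exact_mod_cast hN
  have hsum2 : ∑ i ∈ range (k + 1), ρ.choose i ≤ 2 ^ ρ := by
    rw [← Nat.sum_range_choose ρ]
    rcases le_total k ρ with h | h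
    · exact sum_le_sum_of_subset (range_subset_range.2 (by omega))
    · have hsub : range (ρ + 1) ⊆ range (k + 1) := range_subset_range.2 (by omega)
      rw [← sum_subset hsub]
      intro i _ hi
      rw [mem_range] at hi
      exact Nat.choose_eq_zero_of_lt (by omega)
  have hNρ : N ≤ N * ρ := Nat.le_mul_of_pos_right _ h1
  have hLρ : L ≤ ρ := by
    rw [hL, Real.logb_le_iff_le_rpow (by norm_num) hNpos, Real.rpow_natCast]
    exact_mod_cast hNρ.trans (h2.trans hsum2)
  have hkρ : (k : ℝ) ≤ (1 / 2 - ε) * ρ :=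
    hkL.trans (mul_le_mul_of_nonneg_left hLρ (by linarith))
  have h4 := chernoff ε hε hε2 ρ k hkρ
  have h5 : (N : ℝ) ≤ 2 ^ ρ * Real.exp (-(ρ * ε ^ 2 / 2)) := by
    refine le_trans ?_ h4
    exact_mod_cast hNρ.trans h2
  have hlog2 : 0 < Real.log 2 := Real.log_pos (by norm_num)
  have hlog2' : Real.log 2 ≤ 1 := by
    have := Real.log_two_lt_d9
    linarith
  have h6 : L ≤ ρ - ρ * ε ^ 2 / 2 := by
    have h7 : Real.log N ≤ ρ * Real.log 2 + -(ρ * ε ^ 2 / 2) := by
      calc Real.log N ≤ Real.log (2 ^ ρ * Real.exp (-(ρ * ε ^ 2 / 2))) :=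
            Real.log_le_log hNpos h5
        _ = ρ * Real.log 2 + -(ρ * ε ^ 2 / 2) := by
            rw [Real.log_mul (by positivity) (Real.exp_pos _).ne', Real.log_pow, Real.log_exp]
    have h8 : L * Real.log 2 = Real.log N := by
      rw [hL, Real.logb]; field_simp
    have h9 : 0 ≤ (ρ : ℝ) * ε ^ 2 / 2 := by positivity
    have h10 : L * Real.log 2 ≤ (ρ - ρ * ε ^ 2 / 2) * Real.log 2 := by
      rw [h8]
      nlinarith
    exact le_of_mul_le_mul_right h10 hlog2
  have h11 : (ρ : ℝ) ≤ m := by exact_mod_cast h3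
  have h12 : (0 : ℝ) ≤ ρ := by positivity
  have h13 : 0 ≤ ε ^ 2 / 2 := by positivity
  calc (1 + ε ^ 2 / 2) * L ≤ (1 + ε ^ 2 / 2) * (ρ - ρ * ε ^ 2 / 2) :=
        mul_le_mul_of_nonneg_left h6 (by linarith)
    _ ≤ ρ := by nlinarith [mul_nonneg h12 (mul_nonneg h13 h13)]
    _ ≤ m := h11

lemma below (ε : ℝ) (hε : 0 < ε) (hε2 : ε < 1 / 2) (N t k m : ℕ) (hN : 2 ≤ N)
    (ht : t = 2 ∨ t = 3) (htk : t < k) (hkL : (k : ℝ) ≤ (1 / 2 - ε) * Real.logb 2 N)
    (hm : m ∈ Volumes N t k) :
    (1 + ε ^ 2 / 2) * (2 ^ (t - 2) * Real.logb 2 N) ≤ m := by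
  rcases ht with rfl | rfl
  · simpa using below_two ε hε hε2 hN htk hkL hm
  · obtain ⟨m₁, m₂, h1, h2, h3⟩ := split hN (by omega) hm
    have hk1 : ((k - 1 : ℕ) : ℝ) ≤ (1 / 2 - ε) * Real.logb 2 N := by
      refine le_trans ?_ hkL
      exact_mod_cast Nat.sub_le k 1
    have e1 := below_two ε hε hε2 hN (by omega) hk1 h1
    have e2 := below_two ε hε hε2 hN (by omega) hkL h2
    have e3 : (m : ℝ) = m₁ + m₂ := by exact_mod_cast h3.symm
    rw [e3]
    norm_num
    linarith

/-- **Main theorem.**
(1) Lower bounds for all `N ≥ 2`, `t < k`, also in terms of binomial coefficients.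
(2) The order of magnitude: for every `t` there is `C` such that for all `N ≥ 2`, `k > t` the
minimum volume `m` satisfies, with `q = N ^ (1 / (k - t))` and `L = log₂ N`,
`max (q ^ t) (L ^ ⌊t/2⌋) ≤ C m`, `m ≤ C q max(q,k) ^ (t-1)`, and `m ≤ C L ^ ⌊t/2⌋` if `k ≥ C L`.
(3) The exact minimum volume for `t = 2, 3`, infinitely many ranges of `N`, and large `k`.
(4) The asymptotic value `2 ^ (t - 2) * log₂ N` for `t = 2, 3` and `k ≥ (1 / 2 + ε) log₂ N`.
(5) The minimum is larger by a factor `1 + ε ^ 2 / 2` if `t = 2, 3` and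
`k ≤ (1 / 2 - ε) log₂ N`. -/
theorem main :
    (∀ N t k m e : ℕ, 2 ≤ N → t < k → 2 * e ≤ t → m ∈ Volumes N t k →
      (∃ ρ, 1 ≤ ρ ∧ lowWeight (N * ρ) e ≤ ρ ∧ 2 ^ (t - 2 * e) * ρ ≤ m) ∧
      2 ^ (t - 2 * e) * ∑ i ∈ range (e + 1), (Nat.log 2 N).choose i ≤ m) ∧
    (∀ t : ℕ, ∃ C : ℝ, 0 < C ∧ ∀ N k : ℕ, 2 ≤ N → t < k →
      ∃ m : ℕ, IsLeast (Volumes N t k) m ∧
        max (((N : ℝ) ^ (1 / ((k : ℝ) - t))) ^ t) (Real.logb 2 N ^ (t / 2)) ≤ C * m ∧
        (1 ≤ t → (m : ℝ) ≤ C * ((N : ℝ) ^ (1 / ((k : ℝ) - t)) *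
          max ((N : ℝ) ^ (1 / ((k : ℝ) - t))) k ^ (t - 1))) ∧
        (C * Real.logb 2 N ≤ k → (m : ℝ) ≤ C * Real.logb 2 N ^ (t / 2))) ∧
    (∀ N t k s : ℕ, 2 ≤ s → (t = 2 ∨ t = 3) → 2 ^ s + t ≤ k + 3 →
      2 ^ (2 ^ s - 2) < (2 ^ s - 1) * N → N ≤ 2 ^ (2 ^ s - 1 - s) →
      IsLeast (Volumes N t k) (2 ^ (s + t - 2))) ∧
    (∀ ε : ℝ, 0 < ε → ∃ N₀ : ℕ, ∀ N t k : ℕ, N₀ ≤ N → (t = 2 ∨ t = 3) →
      (1 / 2 + ε) * Real.logb 2 N ≤ k → ∃ m : ℕ, IsLeast (Volumes N t k) m ∧
        2 ^ (t - 2) * Real.logb 2 N ≤ m ∧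
        (m : ℝ) ≤ (1 + ε) * (2 ^ (t - 2) * Real.logb 2 N)) ∧
    (∀ ε : ℝ, 0 < ε → ε < 1 / 2 → ∀ N t k m : ℕ, 2 ≤ N → (t = 2 ∨ t = 3) → t < k →
      (k : ℝ) ≤ (1 / 2 - ε) * Real.logb 2 N → m ∈ Volumes N t k →
      (1 + ε ^ 2 / 2) * (2 ^ (t - 2) * Real.logb 2 N) ≤ m) := by
  refine ⟨?_, ?_, P5, asymptotic, below⟩
  · intro N t k m e hN htk he hm
    exact ⟨P1 N t k m e hN htk he hm,
      P2 N t k m e _ hN htk he (Nat.pow_log_le_self 2 (by omega)) hm⟩
  · intro t
    obtain ⟨C₁, hC₁⟩ := pow_le_sum (t / 2)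
    obtain ⟨C₂, hC₂pos, hC₂⟩ := P4 t
    set D : ℝ := 2 * (4 * ((t : ℝ) + 1)) ^ t with hD
    have hD1 : 1 ≤ D := by
      have h1 : (1 : ℝ) ≤ (4 * ((t : ℝ) + 1)) ^ t := by
        apply one_le_pow₀
        have : (0 : ℝ) ≤ t := by positivity
        linarith
      linarith
    set A : ℝ := (3 * ((t : ℝ) + 1)) ^ t with hA
    have hA1 : 0 ≤ A := by positivity
    have hDt : 1 ≤ (2 * D) ^ t := one_le_pow₀ (by linarith)
    refine ⟨A + 2 ^ (t / 2) * C₁ + C₂ + (2 * D) ^ t + t + 1, by positivity, ?_⟩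
    intro N k hN htk
    set C : ℝ := A + 2 ^ (t / 2) * C₁ + C₂ + (2 * D) ^ t + t + 1 with hC
    have hlog1 : (1 : ℝ) ≤ Real.logb 2 N := by
      rw [Real.le_logb_iff_rpow_le (by norm_num) (by positivity), Real.rpow_one]
      exact_mod_cast hN
    set L := Nat.log 2 N with hL
    have hL1 : 1 ≤ L := Nat.log_pos (by norm_num) hN
    have hNlt : N < 2 ^ (L + 1) := Nat.lt_pow_succ_log_self (by norm_num) _
    have hNge : 2 ^ L ≤ N := Nat.pow_log_le_self 2 (by omega)
    have hLlog : (L : ℝ) ≤ Real.logb 2 N := by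
      rw [Real.le_logb_iff_rpow_le (by norm_num) (by positivity), Real.rpow_natCast]
      exact_mod_cast hNge
    have hlogL : Real.logb 2 N ≤ 2 * L := by
      have h1 : Real.logb 2 N ≤ ((L + 1 : ℕ) : ℝ) := by
        rw [Real.logb_le_iff_le_rpow (by norm_num) (by positivity), Real.rpow_natCast]
        exact_mod_cast hNlt.le
      have h2 : (1 : ℝ) ≤ L := by exact_mod_cast hL1
      push_cast at h1
      linarith
    have hj0 : k - t ≠ 0 := by omega
    have hcast : ((k - t : ℕ) : ℝ) = (k : ℝ) - t := by rw [Nat.cast_sub htk.le]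
    obtain ⟨q, v, hv, hvle, hv0, hq⟩ := upper_all N t k hN htk
    have hne : (Volumes N t k).Nonempty := ⟨v, hv⟩
    set m := sInf (Volumes N t k) with hm
    have hmem : m ∈ Volumes N t k := Nat.sInf_mem hne
    have hm1 : 1 ≤ m := by
      obtain ⟨X, i1, i2, T, hT, hcard⟩ := hmem
      rw [← hcard ⟨0, by omega⟩]
      exact Multiset.card_pos.2 (hT.1 _)
    have hmR : (0 : ℝ) ≤ m := by positivity
    set r := (N : ℝ) ^ (1 / ((k - t : ℕ) : ℝ)) with hr
    have hr1 : 1 ≤ r := Real.one_le_rpow (by exact_mod_cast (by omega : 1 ≤ N)) (by positivity)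
    refine ⟨m, ⟨hmem, fun x hx => Nat.sInf_le hx⟩, ?_, ?_, ?_⟩
    · rw [← hcast, ← hr]
      apply max_le
      · have h1 := design_bound' (by omega) htk hmem
        have h2 : 1 * (((N : ℝ) ^ t) ^ (1 / ((k - t : ℕ) : ℝ))) ≤ A * m := by
          apply TradeTools.root_ge (by norm_num) (by positivity) hj0 _ (by positivity)
          rw [one_pow, mul_one, hA]
          exact_mod_cast h1
        have h3 : r ^ t = ((N : ℝ) ^ t) ^ (1 / ((k - t : ℕ) : ℝ)) := by
          rw [hr, ← Real.rpow_natCast, ← Real.rpow_mul (by positivity),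
            ← Real.rpow_natCast (N : ℝ) t, ← Real.rpow_mul (by positivity), mul_comm]
        rw [h3]
        rw [one_mul] at h2
        refine h2.trans (mul_le_mul_of_nonneg_right ?_ hmR)
        have : 0 ≤ 2 ^ (t / 2) * (C₁ : ℝ) := by positivity
        have : (0 : ℝ) ≤ C₂ := by positivity
        have : (0 : ℝ) ≤ t := by positivity
        linarith
      · have h1 : ((L ^ (t / 2) : ℕ) : ℝ) ≤ C₁ * m := by
          have h2 := hC₁ L
          have h3 := P2 N t k m (t / 2) L hN htk (by omega) hNge hmem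
          have h4 : ∑ i ∈ range (t / 2 + 1), L.choose i ≤ m := by
            refine le_trans ?_ h3
            exact Nat.le_mul_of_pos_left _ (by positivity)
          have h5 : L ^ (t / 2) ≤ C₁ * m := h2.trans (Nat.mul_le_mul_left _ h4)
          exact_mod_cast h5
        push_cast at h1
        calc Real.logb 2 N ^ (t / 2) ≤ (2 * (L : ℝ)) ^ (t / 2) :=
              pow_le_pow_left₀ (by linarith) hlogL _
          _ = 2 ^ (t / 2) * (L : ℝ) ^ (t / 2) := by rw [mul_pow]
          _ ≤ 2 ^ (t / 2) * (C₁ * m) := mul_le_mul_of_nonneg_left h1 (by positivity)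
          _ = (2 ^ (t / 2) * C₁) * m := by ring
          _ ≤ _ := by
              apply mul_le_mul_of_nonneg_right _ hmR
              have : (0 : ℝ) ≤ C₂ := by positivity
              have : (0 : ℝ) ≤ t := by positivity
              linarith
    · intro ht
      rw [← hcast, ← hr]
      have h1 : (m : ℝ) ≤ v := by exact_mod_cast Nat.sInf_le hv
      have h2 : (v : ℝ) ≤ q * max (q : ℝ) (2 * k) ^ (t - 1) := by exact_mod_cast hvle
      have h3 : (q : ℝ) ≤ D * r := by
        apply TradeTools.root_le (by positivity) (by positivity) hj0 _ (by positivity)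
        rw [hD]
        exact_mod_cast hq
      have hk0 : (0 : ℝ) ≤ k := by positivity
      have h4 : max (q : ℝ) (2 * k) ≤ (2 * D) * max r k := by
        apply max_le
        · calc (q : ℝ) ≤ D * r := h3
            _ ≤ (2 * D) * max r k := by
                apply mul_le_mul (by linarith) (le_max_left _ _) (by linarith) (by linarith)
        · calc (2 * (k : ℝ)) ≤ (2 * D) * k := by nlinarith
            _ ≤ (2 * D) * max r k := mul_le_mul_of_nonneg_left (le_max_right _ _) (by linarith)
      have hmax0 : 0 ≤ max r (k : ℝ) := le_max_of_le_left (by linarith)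
      calc (m : ℝ) ≤ q * max (q : ℝ) (2 * k) ^ (t - 1) := h1.trans h2
        _ ≤ (D * r) * ((2 * D) * max r k) ^ (t - 1) := by
            apply mul_le_mul h3 _ (by positivity) (by positivity)
            exact pow_le_pow_left₀ (by positivity) h4 _
        _ = (D * (2 * D) ^ (t - 1)) * (r * max r k ^ (t - 1)) := by rw [mul_pow]; ring
        _ ≤ ((2 * D) * (2 * D) ^ (t - 1)) * (r * max r k ^ (t - 1)) := by
            apply mul_le_mul_of_nonneg_right _ (by positivity)
            apply mul_le_mul_of_nonneg_right _ (by positivity)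
            linarith
        _ = (2 * D) ^ t * (r * max r k ^ (t - 1)) := by
            rw [← pow_succ', show t - 1 + 1 = t by omega]
        _ ≤ _ := by
            apply mul_le_mul_of_nonneg_right _ (by positivity)
            have : 0 ≤ 2 ^ (t / 2) * (C₁ : ℝ) := by positivity
            have : (0 : ℝ) ≤ C₂ := by positivity
            have : (0 : ℝ) ≤ t := by positivity
            linarith
    · intro hk
      have hk' : C₂ * L ≤ k := by
        have h1 : (C₂ : ℝ) * L ≤ k := by
          refine le_trans ?_ hk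
          apply mul_le_mul _ hLlog (by positivity) (by positivity)
          have : 0 ≤ 2 ^ (t / 2) * (C₁ : ℝ) := by positivity
          have : (0 : ℝ) ≤ t := by positivity
          linarith
        exact_mod_cast h1
      obtain ⟨w, hw, hwle⟩ := hC₂ N k hN hk'
      have h1 : (m : ℝ) ≤ w := by exact_mod_cast Nat.sInf_le hw
      have h2 : (w : ℝ) ≤ C₂ * (L : ℝ) ^ (t / 2) := by exact_mod_cast hwle
      calc (m : ℝ) ≤ C₂ * (L : ℝ) ^ (t / 2) := h1.trans h2
        _ ≤ C₂ * Real.logb 2 N ^ (t / 2) :=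
            mul_le_mul_of_nonneg_left (pow_le_pow_left₀ (by positivity) hLlog _) (by positivity)
        _ ≤ _ := by
            apply mul_le_mul_of_nonneg_right _ (by positivity)
            have : 0 ≤ 2 ^ (t / 2) * (C₁ : ℝ) := by positivity
            have : (0 : ℝ) ≤ t := by positivity
            linarith

end Pool.Agent.H73.VolumeGrowthAux
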