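import Mathlib
import Pool.Agent.H73.VolumeGrowthAux

/-!
# MP_832176_co, Q1 for `t = 2`: the minimum volume up to an absolute constant factor

For all `N ≥ 2` and `k ≥ 3` the minimum volume of an `N`-legged `(2,k)` trade is between
`scale N k / 81` and `400 * scale N k`, where `scale N k` is the maximum of `N ^ (2 / (k - 2))`
and of `k * N ^ (1 / k)` (if `2 ^ k ≤ N`) or `log₂ N` (if `N < 2 ^ k`).
-/

set_option autoImplicit false

namespace Pool.Agent.H73.VolumeStrengthTwoAux

open Finset

/-- `T = (T 0, …, T (N-1))` is an `N`-legged `(t,k)` trade on the finite set `X`: each leg is a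
nonempty finite multiset of `k`-subsets of `X`, two different legs have no block in common, and
every `t`-subset of `X` lies in the same number of blocks (with multiplicity) of each leg. -/
def IsTrade (N t k : ℕ) {X : Type} [DecidableEq X] (T : Fin N → Multiset (Finset X)) : Prop :=
  (∀ i, T i ≠ 0) ∧
  (∀ i, ∀ B ∈ T i, B.card = k) ∧
  (∀ i j, i ≠ j → ∀ B ∈ T i, B ∉ T j) ∧
  (∀ i j, ∀ S : Finset X, S.card = t →
    (T i).countP (fun B => S ⊆ B) = (T j).countP (fun B => S ⊆ B))

/-- The volumes of all `N`-legged `(t,k)` trades on all finite sets: the numbers `m` such that in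
some such trade every leg has exactly `m` blocks (with multiplicity). -/
def Volumes (N t k : ℕ) : Set ℕ :=
  {m | ∃ (X : Type) (_ : Fintype X) (_ : DecidableEq X) (T : Fin N → Multiset (Finset X)),
    IsTrade N t k T ∧ ∀ i, Multiset.card (T i) = m}

section lower

variable {X : Type} [Fintype X] [DecidableEq X]

lemma balanced {N t k : ℕ} (htk : t < k) {T : Fin N → Multiset (Finset X)}
    (hT : IsTrade N t k T) (i j : Fin N) (S : Finset X) (hS : S.card ≤ t) :
    (T i).countP (fun B => S ⊆ B) = (T j).countP (fun B => S ⊆ B) :=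
  VolumeGrowthAux.balanced htk hT i j S hS

lemma degrees {N t k : ℕ} (ht : 1 ≤ t) (htk : t < k) {T : Fin N → Multiset (Finset X)}
    (hT : IsTrade N t k T) (i j : Fin N) (x : X) :
    (T i).countP (fun B => x ∈ B) = (T j).countP (fun B => x ∈ B) := by
  have := balanced htk hT i j {x} (by rw [card_singleton]; exact ht)
  simpa only [singleton_subset_iff] using this

/-- foundation -/
def found (M : Multiset (Finset X)) : Finset X :=
  univ.filter (fun x => 0 < M.countP (fun B => x ∈ B))

lemma found_bound {N t k : ℕ} (ht : 1 ≤ t) (htk : t < k) {T : Fin N → Multiset (Finset X)}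
    (hT : IsTrade N t k T) (i₀ : Fin N) :
    N ≤ ((found (T i₀)).card - t).choose (k - t) := by
  classical
  obtain ⟨B₀, hB₀⟩ := Multiset.exists_mem_of_ne_zero (hT.1 i₀)
  obtain ⟨S, hSB, hS⟩ := exists_subset_card_eq (s := B₀) (n := t)
    (by rw [hT.2.1 i₀ B₀ hB₀]; exact htk.le)
  have hex : ∀ i, ∃ B ∈ T i, S ⊆ B := by
    intro i
    apply Multiset.countP_pos.1
    rw [hT.2.2.2 i i₀ S hS]
    exact Multiset.countP_pos.2 ⟨B₀, hB₀, hSB⟩
  choose B hBT hSB' using hex
  have hBf : ∀ i, B i ⊆ found (T i₀) := by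
    intro i x hx
    refine mem_filter.2 ⟨mem_univ _, ?_⟩
    rw [degrees ht htk hT i₀ i x]
    exact Multiset.countP_pos.2 ⟨B i, hBT i, hx⟩
  have hSf : S ⊆ found (T i₀) := (hSB' i₀).trans (hBf i₀)
  have hinj : Function.Injective (fun i => B i \ S) := by
    intro i j hij
    have hij' : B i \ S = B j \ S := hij
    have : B i = B j := by
      rw [← sdiff_union_of_subset (hSB' i), ← sdiff_union_of_subset (hSB' j), hij']
    by_contra hne
    exact hT.2.2.1 i j hne (B i) (hBT i) (by rw [this]; exact hBT j)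
  calc N = (univ.image (fun i => B i \ S)).card := by
        rw [card_image_of_injective _ hinj, card_univ, Fintype.card_fin]
    _ ≤ (powersetCard (k - t) (found (T i₀) \ S)).card := by
        apply card_le_card
        intro Q hQ
        obtain ⟨i, -, rfl⟩ := mem_image.1 hQ
        rw [mem_powersetCard]
        refine ⟨sdiff_subset_sdiff (hBf i) le_rfl, ?_⟩
        rw [card_sdiff_of_subset (hSB' i), hT.2.1 i (B i) (hBT i), hS]
    _ = _ := by rw [card_powersetCard, card_sdiff_of_subset hSf, hS]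

lemma sum_deg (M : Multiset (Finset X)) (k : ℕ) (hM : ∀ B ∈ M, B.card = k) :
    ∑ x, M.countP (fun B => x ∈ B) = k * Multiset.card M := by
  induction M using Multiset.induction with
  | empty => simp
  | cons B M ih =>
    simp only [Multiset.countP_cons, sum_add_distrib, Multiset.card_cons]
    rw [ih (fun B' hB' => hM B' (Multiset.mem_cons_of_mem hB'))]
    have : ∑ x : X, (if x ∈ B then 1 else 0) = k := by
      rw [← hM B (Multiset.mem_cons_self _ _)]
      simp
    rw [this]; ring

lemma found_le (M : Multiset (Finset X)) (k : ℕ) (hM : ∀ B ∈ M, B.card = k) :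
    (found M).card ≤ k * Multiset.card M := by
  rw [← sum_deg M k hM, card_eq_sum_ones]
  refine (sum_le_sum (g := fun x => M.countP (fun B => x ∈ B)) ?_).trans
    (sum_le_sum_of_subset (subset_univ _))
  intro x hx
  exact (mem_filter.1 hx).2

/-- The design-type lower bound for `t = 2`. -/
lemma design_bound {N k m : ℕ} (hN : 1 ≤ N) (hk : 3 ≤ k) (hm : m ∈ Volumes N 2 k) (f : ℕ)
    (hf : (f - 2).choose (k - 2) < N) : (f + 1) * f ≤ k * (k - 1) * m := by
  obtain ⟨X, i1, i2, T, hT, hcard⟩ := hm
  set i₀ : Fin N := ⟨0, hN⟩ with hi₀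
  have hdeg : ∀ x ∈ found (T i₀), f ≤ (k - 1) * (T i₀).countP (fun B => x ∈ B) := by
    intro x hx
    have hpos : 0 < (T i₀).countP (fun B => x ∈ B) := (mem_filter.1 hx).2
    have hD : IsTrade N 1 (k - 1) (VolumeGrowthAux.derived x T) :=
      VolumeGrowthAux.derived_isTrade (by omega) hT x
        (fun i => by rw [degrees (by norm_num) (by omega) hT i i₀ x]; exact hpos)
    have h1 := found_bound le_rfl (by omega) hD i₀
    have h2 := found_le (VolumeGrowthAux.derived x T i₀) (k - 1) (hD.2.1 i₀)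
    have h3 : Multiset.card (VolumeGrowthAux.derived x T i₀)
        = (T i₀).countP (fun B => x ∈ B) := by
      rw [VolumeGrowthAux.derived, Multiset.card_map, ← Multiset.countP_eq_card_filter]
    rw [h3] at h2
    refine le_trans ?_ h2
    by_contra hcon
    push Not at hcon
    have h4 : ((found (VolumeGrowthAux.derived x T i₀)).card - 1).choose (k - 1 - 1)
        ≤ (f - 2).choose (k - 1 - 1) := Nat.choose_le_choose _ (by omega)
    rw [show k - 1 - 1 = k - 2 by omega] at h4 h1
    omega
  have hfound : f + 1 ≤ (found (T i₀)).card := by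
    have h1 := found_bound (by norm_num) (by omega) hT i₀
    by_contra hcon
    push Not at hcon
    have h4 : ((found (T i₀)).card - 2).choose (k - 2) ≤ (f - 2).choose (k - 2) :=
      Nat.choose_le_choose _ (by omega)
    omega
  have hsum := sum_deg (T i₀) k (hT.2.1 i₀)
  rw [hcard] at hsum
  calc (f + 1) * f ≤ (found (T i₀)).card * f := Nat.mul_le_mul_right _ hfound
    _ = ∑ _x ∈ found (T i₀), f := by rw [sum_const, smul_eq_mul]
    _ ≤ ∑ x ∈ found (T i₀), (k - 1) * (T i₀).countP (fun B => x ∈ B) := sum_le_sum hdeg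
    _ ≤ ∑ x, (k - 1) * (T i₀).countP (fun B => x ∈ B) :=
        sum_le_sum_of_subset (subset_univ _)
    _ = (k - 1) * (k * m) := by rw [← mul_sum, hsum]
    _ = k * (k - 1) * m := by ring

/-- The Rao-type lower bound for `t = 2`, using that the blocks have `k` points. -/
lemma rank_bound {N k m : ℕ} (hN : 1 ≤ N) (hk : 2 < k) (hm : m ∈ Volumes N 2 k) :
    ∃ ρ, 1 ≤ ρ ∧ N * ρ ≤ ∑ i ∈ range (k + 1), ρ.choose i ∧ ρ ≤ m := by
  classical
  obtain ⟨X, i1, i2, T, hT, hcard⟩ := hm
  -- all blocks
  set U : Finset (Finset X) := univ.biUnion (fun i => (T i).toFinset) with hU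
  have hUi : ∀ i, ∀ B ∈ T i, B ∈ U := fun i B hB =>
    mem_biUnion.2 ⟨i, mem_univ i, Multiset.mem_toFinset.2 hB⟩
  have hUk : ∀ B ∈ U, B.card = k := by
    intro B hB
    obtain ⟨i, -, hi⟩ := mem_biUnion.1 hB
    exact hT.2.1 i B (Multiset.mem_toFinset.1 hi)
  have hUcard : U.card = ∑ i, ((T i).toFinset).card := by
    rw [hU]
    apply card_biUnion
    intro i _ j _ hij
    change Disjoint (T i).toFinset (T j).toFinset
    rw [disjoint_left]
    intro B hB hB'
    exact hT.2.2.1 i j hij B (Multiset.mem_toFinset.1 hB) (Multiset.mem_toFinset.1 hB')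
  -- the functions
  set g : X → (U → ℝ) := fun u B => if u ∈ B.1 then 1 else 0 with hg
  set W : Submodule ℝ (U → ℝ) := Submodule.span ℝ (Set.range g) with hW
  have hsq : ∀ (c : X → ℝ) (M : Multiset (Finset X)),
      (M.map (fun B => (∑ u, c u * (if u ∈ B then 1 else 0)) ^ 2)).sum
        = ∑ u, ∑ v, c u * c v * (M.countP (fun B => u ∈ B ∧ v ∈ B) : ℝ) := by
    intro c M
    induction M using Multiset.induction with
    | empty => simp
    | cons B M ih =>
      rw [Multiset.map_cons, Multiset.sum_cons, ih]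
      simp only [Multiset.countP_cons, Nat.cast_add, mul_add, sum_add_distrib]
      rw [add_comm]
      congr 1
      rw [sq, sum_mul_sum]
      apply sum_congr rfl; intro u _
      apply sum_congr rfl; intro v _
      by_cases h1 : u ∈ B <;> by_cases h2 : v ∈ B <;> simp [h1, h2]
  have hpair : ∀ (u v : X) j, (T j).countP (fun B => u ∈ B ∧ v ∈ B)
      = (T j).countP (fun B => ({u} ∪ {v} : Finset X) ⊆ B) := by
    intro u v j
    apply Multiset.countP_congr rfl
    intro B _
    rw [union_subset_iff, singleton_subset_iff, singleton_subset_iff]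
  have hzero : ∀ (i : Fin N) (w : U → ℝ), w ∈ W → (∀ B : U, B.1 ∈ T i → w B = 0) → w = 0 := by
    intro i w hw hwi
    obtain ⟨c, hc⟩ := (Submodule.mem_span_range_iff_exists_fun ℝ).1 hw
    have hval : ∀ B : U, w B = ∑ u, c u * (if u ∈ B.1 then 1 else 0) := by
      intro B
      rw [← hc]
      simp only [hg, Finset.sum_apply, Pi.smul_apply, smul_eq_mul]
    have hq : ∀ j, ((T j).map (fun B => (∑ u, c u * (if u ∈ B then (1 : ℝ) else 0)) ^ 2)).sum
        = ((T i).map (fun B => (∑ u, c u * (if u ∈ B then (1 : ℝ) else 0)) ^ 2)).sum := by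
      intro j
      rw [hsq, hsq]
      apply sum_congr rfl; intro u _
      apply sum_congr rfl; intro v _
      have hcd : (({u} : Finset X) ∪ {v}).card ≤ 2 := (card_union_le _ _).trans (by simp)
      rw [hpair, hpair, balanced hk hT j i _ hcd]
    have hqi : ((T i).map (fun B => (∑ u, c u * (if u ∈ B then (1 : ℝ) else 0)) ^ 2)).sum = 0 := by
      apply Multiset.sum_eq_zero
      intro y hy
      obtain ⟨B, hB, rfl⟩ := Multiset.mem_map.1 hy
      have h0 := hval ⟨B, hUi i B hB⟩
      rw [hwi ⟨B, hUi i B hB⟩ hB] at h0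
      change (∑ u, c u * (if u ∈ B then (1 : ℝ) else 0)) ^ 2 = 0
      rw [← h0]
      ring
    funext B
    obtain ⟨j, -, hj⟩ := mem_biUnion.1 B.2
    have hj' := Multiset.mem_toFinset.1 hj
    have h0 := (hq j).trans hqi
    have h1 : (∑ u, c u * (if u ∈ B.1 then (1 : ℝ) else 0)) ^ 2
        ≤ ((T j).map (fun B => (∑ u, c u * (if u ∈ B then (1 : ℝ) else 0)) ^ 2)).sum := by
      apply Multiset.single_le_sum
      · intro y hy
        obtain ⟨C, -, rfl⟩ := Multiset.mem_map.1 hy
        exact sq_nonneg _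
      · exact Multiset.mem_map.2 ⟨B.1, hj', rfl⟩
    rw [h0] at h1
    have h2 : ∑ u, c u * (if u ∈ B.1 then (1 : ℝ) else 0) = 0 := by
      have := le_antisymm h1 (sq_nonneg _)
      exact pow_eq_zero_iff (two_ne_zero) |>.1 this
    rw [hval B, h2]
    rfl
  set ρ := Module.finrank ℝ W with hρ
  -- each leg has at least `ρ` different blocks
  have hleg : ∀ i, ρ ≤ ((T i).toFinset).card := by
    intro i
    let R : (U → ℝ) →ₗ[ℝ] ((T i).toFinset → ℝ) :=
      LinearMap.funLeft ℝ ℝ (fun B : (T i).toFinset =>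
        (⟨B.1, hUi i B.1 (Multiset.mem_toFinset.1 B.2)⟩ : U))
    have hinj : Function.Injective (R ∘ₗ W.subtype) := by
      rw [← LinearMap.ker_eq_bot, LinearMap.ker_eq_bot']
      intro w hw
      apply Subtype.ext
      apply hzero i w.1 w.2
      intro B hB
      have := congrFun hw (⟨B.1, Multiset.mem_toFinset.2 hB⟩ : (T i).toFinset)
      exact this
    have := LinearMap.finrank_le_finrank_of_injective hinj
    rw [Module.finrank_fintype_fun_eq_card, Fintype.card_coe] at this
    exact this
  have hUρ : N * ρ ≤ U.card := by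
    rw [hUcard]
    calc N * ρ = ∑ _i : Fin N, ρ := by simp
      _ ≤ _ := sum_le_sum (fun i _ => hleg i)
  have hUne : U.Nonempty := by
    obtain ⟨B, hB⟩ := Multiset.exists_mem_of_ne_zero (hT.1 ⟨0, by omega⟩)
    exact ⟨B, hUi _ B hB⟩
  -- basis points
  obtain ⟨κ, a, ha, hspan, hli⟩ := exists_linearIndependent' ℝ g
  have : Fintype κ := Fintype.ofInjective a ha
  set P : Finset X := univ.image a with hP
  have hPcard : P.card = ρ := by
    rw [hP, card_image_of_injective _ ha, card_univ, hρ, hW, ← hspan]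
    exact (finrank_span_eq_card hli).symm
  have hUle : U.card ≤ ∑ i ∈ range (k + 1), ρ.choose i := by
    calc U.card = (U.image (fun B => B ∩ P)).card := by
          rw [card_image_of_injOn]
          intro B hB B' hB' hBB
          have hBB' : B ∩ P = B' ∩ P := hBB
          have hagree : ∀ w ∈ Submodule.span ℝ (Set.range (g ∘ a)),
              w ⟨B, hB⟩ = w ⟨B', hB'⟩ := by
            intro w hw
            induction hw using Submodule.span_induction with
            | mem w hw =>
              obtain ⟨z, rfl⟩ := hw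
              have h1 : a z ∈ B ↔ a z ∈ B' := by
                have h2 := Finset.ext_iff.1 hBB' (a z)
                rw [mem_inter, mem_inter] at h2
                have h3 : a z ∈ P := mem_image_of_mem _ (mem_univ _)
                simpa [h3] using h2
              simp only [Function.comp, hg, h1]
            | zero => rfl
            | add v w _ _ hv hw => simp [hv, hw]
            | smul a w _ hw => simp [hw]
          ext p
          have := hagree (g p) (by
            rw [hspan]; exact Submodule.subset_span ⟨p, rfl⟩)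
          simp only [hg] at this
          by_cases h1 : p ∈ B <;> by_cases h2 : p ∈ B' <;> simp [h1, h2] at this ⊢
      _ ≤ ((range (k + 1)).biUnion (fun i => powersetCard i P)).card := by
          apply card_le_card
          intro Q hQ
          obtain ⟨B, hB, rfl⟩ := mem_image.1 hQ
          rw [mem_biUnion]
          refine ⟨(B ∩ P).card, ?_, mem_powersetCard.2 ⟨inter_subset_right, rfl⟩⟩
          rw [mem_range]
          have := card_le_card (inter_subset_left (s₁ := B) (s₂ := P))
          rw [hUk B hB] at this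
          omega
      _ ≤ ∑ i ∈ range (k + 1), (powersetCard i P).card := card_biUnion_le
      _ = _ := by simp only [card_powersetCard, hPcard]
  refine ⟨ρ, ?_, hUρ.trans hUle, ?_⟩
  · obtain ⟨B, hB⟩ := hUne
    obtain ⟨x, hx⟩ : B.Nonempty := card_pos.1 (by rw [hUk B hB]; omega)
    have hne : g x ≠ 0 := by
      intro h
      have := congrFun h ⟨B, hB⟩
      simp [hg, hx] at this
    rw [hρ]
    have : Nontrivial W := ⟨⟨g x, Submodule.subset_span ⟨x, rfl⟩⟩, 0, fun h =>
      hne (congrArg Subtype.val h)⟩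
    exact Module.finrank_pos
  · have := hleg ⟨0, by omega⟩
    refine this.trans ?_
    rw [← hcard ⟨0, by omega⟩]
    exact Multiset.toFinset_card_le _

end lower

section construction

variable {I G : Type} [Fintype I] [DecidableEq I] [Fintype G] [DecidableEq G] [AddCommGroup G]

/-- the block attached to `z` -/
def block (r : ℕ) (z : I → G) : Finset ((I × G) ⊕ Fin r) :=
  ((univ : Finset I).image (fun x => (x, z x))).disjSum univ

omit [Fintype G] [AddCommGroup G] in
lemma inl_mem_block (r : ℕ) (z : I → G) (p : I × G) :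
    (Sum.inl p : (I × G) ⊕ Fin r) ∈ block r z ↔ z p.1 = p.2 := by
  unfold block
  rw [inl_mem_disjSum, mem_image]
  constructor
  · rintro ⟨x, -, rfl⟩; rfl
  · intro hp
    exact ⟨p.1, mem_univ _, by rw [hp]⟩

omit [Fintype G] [AddCommGroup G] in
lemma inr_mem_block (r : ℕ) (z : I → G) (p : Fin r) :
    (Sum.inr p : (I × G) ⊕ Fin r) ∈ block r z := by
  unfold block
  rw [inr_mem_disjSum]
  exact mem_univ _

omit [Fintype G] [AddCommGroup G] in
lemma card_block (r : ℕ) (z : I → G) : (block r z).card = Fintype.card I + r := by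
  unfold block
  rw [card_disjSum, card_image_of_injective, card_univ, card_univ, Fintype.card_fin]
  intro x y hxy
  exact congrArg Prod.fst hxy

omit [Fintype G] [AddCommGroup G] in
lemma block_injective (r : ℕ) {z z' : I → G} (hz : block r z = block r z') : z = z' := by
  funext x
  have h1 : (Sum.inl (x, z x) : (I × G) ⊕ Fin r) ∈ block r z := by
    rw [inl_mem_block]
  rw [hz, inl_mem_block] at h1
  exact h1.symm

omit [Fintype G] [AddCommGroup G] in
lemma block_congr (r : ℕ) {z z' : I → G} (S : Finset ((I × G) ⊕ Fin r))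
    (hS : ∀ p : I × G, Sum.inl p ∈ S → z p.1 = z' p.1) :
    S ⊆ block r z ↔ S ⊆ block r z' := by
  constructor
  · intro hs q hq
    rcases q with p | i
    · rw [inl_mem_block, ← hS p hq, ← inl_mem_block (r := r)]
      exact hs hq
    · exact inr_mem_block _ _ _
  · intro hs q hq
    rcases q with p | i
    · rw [inl_mem_block, hS p hq, ← inl_mem_block (r := r)]
      exact hs hq
    · exact inr_mem_block _ _ _

lemma construct_aux {A : Type} [Fintype A] [AddCommGroup A] (c : A →+ (I → G))
    (t N r : ℕ)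
    (hsolve : ∀ K : Finset I, K.card ≤ t → ∀ u : I → G, ∃ a, ∀ x ∈ K, c a x = u x)
    (y : Fin N → I → G) (hsep : ∀ i j a a', y i + c a = y j + c a' → i = j) :
    Fintype.card A ∈ Volumes N t (Fintype.card I + r) := by
  classical
  refine ⟨(I × G) ⊕ Fin r, inferInstance, inferInstance,
    fun i => (univ : Finset A).val.map (fun a => block r (y i + c a)), ⟨?_, ?_, ?_, ?_⟩, ?_⟩
  · intro i h0
    have h1 := congrArg Multiset.card h0
    simp at h1
  · intro i B hB
    obtain ⟨a, -, rfl⟩ := Multiset.mem_map.1 hB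
    exact card_block _ _
  · intro i j hij B hB hB'
    obtain ⟨a, -, rfl⟩ := Multiset.mem_map.1 hB
    obtain ⟨a', -, he⟩ := Multiset.mem_map.1 hB'
    exact hij (hsep i j a a' (block_injective r he).symm)
  · intro i j S hS
    obtain ⟨a₀, ha₀⟩ := hsolve (S.toLeft.image Prod.fst)
      (card_image_le.trans ((card_toLeft_le).trans hS.le)) (fun x => y j x - y i x)
    have key : ∀ i, ((univ : Finset A).val.map (fun a => block r (y i + c a))).countP
        (fun B => S ⊆ B) = ((univ : Finset A).filter (fun a => S ⊆ block r (y i + c a))).card := by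
      intro i
      rw [Multiset.countP_map]
      rfl
    rw [key, key]
    symm
    apply card_bijective (fun a => a + a₀) (Equiv.addRight a₀).bijective
    intro a
    rw [mem_filter, mem_filter]
    simp only [mem_univ, true_and]
    apply block_congr
    intro p hp
    have hpK : p.1 ∈ S.toLeft.image Prod.fst :=
      mem_image_of_mem _ (mem_toLeft.2 hp)
    have := ha₀ p.1 hpK
    simp only [Pi.add_apply, map_add, this]
    abel
  · intro i
    simp

omit [DecidableEq I] [DecidableEq G] in
lemma reps {A : Type} [Fintype A] [AddCommGroup A] (c : A →+ (I → G)) (N : ℕ)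
    (hN : N * Fintype.card A ≤ Fintype.card G ^ Fintype.card I) :
    ∃ y : Fin N → I → G, ∀ i j a a', y i + c a = y j + c a' → i = j := by
  classical
  set H := c.range with hH
  have h1 : Nat.card (I → G) = Nat.card ((I → G) ⧸ H) * Nat.card H :=
    AddSubgroup.card_eq_card_quotient_mul_card_addSubgroup H
  have h2 : Nat.card H ≤ Nat.card A :=
    Nat.card_le_card_of_surjective c.rangeRestrict c.rangeRestrict_surjective
  have h3 : Nat.card (I → G) = Fintype.card G ^ Fintype.card I := by
    rw [Nat.card_eq_fintype_card, Fintype.card_fun]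
  rw [Nat.card_eq_fintype_card (α := A)] at h2
  have hApos : 0 < Fintype.card A := Fintype.card_pos
  have h4 : N ≤ Nat.card ((I → G) ⧸ H) := by
    by_contra hcon
    push Not at hcon
    have : Nat.card ((I → G) ⧸ H) * Nat.card H < N * Fintype.card A := by
      calc Nat.card ((I → G) ⧸ H) * Nat.card H
          ≤ Nat.card ((I → G) ⧸ H) * Fintype.card A := Nat.mul_le_mul_left _ h2
        _ < N * Fintype.card A := Nat.mul_lt_mul_of_pos_right hcon hApos
    omega
  let eQ := Finite.equivFin ((I → G) ⧸ H)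
  let q : Fin N → ((I → G) ⧸ H) := fun i => eQ.symm (Fin.castLE h4 i)
  have hq : Function.Injective q := by
    intro i j hij
    exact Fin.castLE_injective h4 (eQ.symm.injective hij)
  refine ⟨fun i => (q i).out, ?_⟩
  intro i j a a' h
  apply hq
  rw [← QuotientAddGroup.out_eq' (q i), ← QuotientAddGroup.out_eq' (q j), QuotientAddGroup.eq]
  refine ⟨a - a', ?_⟩
  rw [map_sub]
  have h' : (q i).out + c a = (q j).out + c a' := h
  have : (q j).out = (q i).out + c a - c a' := by rw [h']; abel
  rw [this]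
  abel

end construction

/-- strength two orthogonal arrays with `2 ^ (a + b)` rows, `2 ^ b` columns and `2 ^ a` levels -/
lemma upper_two (a b n k N : ℕ) (hb : 1 ≤ b) (hab : a ≤ b) (hn : n ≤ 2 ^ b) (hk : n ≤ k)
    (hN : N * 2 ^ (a + b) ≤ 2 ^ (a * n)) : 2 ^ (a + b) ∈ Volumes N 2 k := by
  classical
  have : Fact (Nat.Prime 2) := ⟨Nat.prime_two⟩
  let K := GaloisField 2 b
  let _ : Fintype K := Fintype.ofFinite _
  have hK : Fintype.card K = 2 ^ b := by
    rw [← Nat.card_eq_fintype_card]
    exact GaloisField.card 2 b (by omega)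
  let G := Fin a → ZMod 2
  have hG : Fintype.card G = 2 ^ a := by
    rw [Fintype.card_fun, Fintype.card_fin, ZMod.card]
  -- a surjective homomorphism
  have hfr : Module.finrank (ZMod 2) K = Module.finrank (ZMod 2) (Fin b → ZMod 2) := by
    rw [GaloisField.finrank 2 (by omega), Module.finrank_fintype_fun_eq_card, Fintype.card_fin]
  let e : K ≃ₗ[ZMod 2] (Fin b → ZMod 2) := LinearEquiv.ofFinrankEq _ _ hfr
  let π : K →ₗ[ZMod 2] G := (LinearMap.funLeft (ZMod 2) (ZMod 2) (Fin.castLE hab)) ∘ₗ e.toLinearMap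
  have hπ : Function.Surjective π :=
    (LinearMap.funLeft_surjective_of_injective (ZMod 2) (ZMod 2) _
      (Fin.castLE_injective hab)).comp e.surjective
  -- the columns
  let col : Fin n → K := fun i => (Fintype.equivFin K).symm (Fin.castLE (by rw [hK]; exact hn) i)
  have hcol : Function.Injective col := by
    intro i j hij
    exact Fin.castLE_injective _ ((Fintype.equivFin K).symm.injective hij)
  let c : (G × K) →+ (Fin n → G) :=
    { toFun := fun p x => p.1 + π (col x * p.2)
      map_zero' := by funext x; simp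
      map_add' := by
        intro p q; funext x
        simp only [Prod.fst_add, Prod.snd_add, mul_add, map_add, Pi.add_apply]
        abel }
  have hsolve : ∀ S : Finset (Fin n), S.card ≤ 2 → ∀ u : Fin n → G,
      ∃ p, ∀ x ∈ S, c p x = u x := by
    intro S hS u
    have hone : ∀ x₀, ∃ p, c p x₀ = u x₀ := fun x₀ => ⟨(u x₀, 0), by simp [c]⟩
    rcases Nat.lt_or_ge S.card 2 with h | h
    · rcases S.eq_empty_or_nonempty with rfl | ⟨x₀, hx₀⟩
      · exact ⟨0, by simp⟩
      · obtain ⟨p, hp⟩ := hone x₀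
        refine ⟨p, fun x hx => ?_⟩
        have := card_le_one.1 (Nat.lt_succ_iff.1 h) x hx x₀ hx₀
        rw [this]; exact hp
    · obtain ⟨x, y, hxy, rfl⟩ := card_eq_two.1 (le_antisymm hS h)
      have hne : col x - col y ≠ 0 := sub_ne_zero.2 (fun h => hxy (hcol h))
      obtain ⟨w, hw⟩ := hπ (u x - u y)
      refine ⟨(u y - π (col y * (w / (col x - col y))), w / (col x - col y)), ?_⟩
      intro z hz
      rw [mem_insert, mem_singleton] at hz
      rcases hz with rfl | rfl
      · change u y - π (col y * (w / (col z - col y))) + π (col z * (w / (col z - col y))) = u z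
        have h1 : π (col z * (w / (col z - col y))) - π (col y * (w / (col z - col y)))
            = u z - u y := by
          rw [← map_sub, ← sub_mul, mul_div_cancel₀ _ hne, hw]
        rw [sub_add_eq_add_sub, add_sub_assoc, h1]
        abel
      · change u z - π (col z * (w / (col x - col z))) + π (col z * (w / (col x - col z))) = u z
        abel
  have hA : Fintype.card (G × K) = 2 ^ (a + b) := by
    rw [Fintype.card_prod, hG, hK, pow_add]
  obtain ⟨y, hy⟩ := reps c N (by
    rw [hA, hG, Fintype.card_fin, ← pow_mul]; exact hN)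
  have := construct_aux c 2 N (k - n) hsolve y hy
  rw [hA, Fintype.card_fin, Nat.add_sub_cancel' hk] at this
  exact this

/-- upper bound in terms of the number `n` of columns used -/
lemma upper_cols (N n k : ℕ) (hN : 1 ≤ N) (hn : 3 ≤ n) (hk : n ≤ k) :
    ∃ v ∈ Volumes N 2 k, v ^ (n - 2) ≤ 4 ^ (n - 2) * N ^ 2 ∨ v ^ n ≤ (16 * n) ^ n * N := by
  set b₀ := Nat.clog 2 n with hb₀
  have hb1 : n ≤ 2 ^ b₀ := Nat.le_pow_clog (by norm_num) n
  have hb2 : 2 ^ b₀ < 2 * n := by
    have := Nat.pow_pred_clog_lt_self (b := 2) (by norm_num) (x := n) (by omega)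
    have hpos : 0 < b₀ := Nat.clog_pos (by norm_num) (by omega)
    obtain ⟨c, hc⟩ : ∃ c, b₀ = c + 1 := ⟨b₀ - 1, by omega⟩
    rw [← hb₀, hc] at this
    rw [hc, pow_succ]
    simp only [Nat.pred_eq_sub_one, Nat.add_sub_cancel] at this
    omega
  have hb3 : 2 ≤ b₀ := by
    by_contra hcon
    have : 2 ^ b₀ ≤ 2 ^ 1 := Nat.pow_le_pow_right (by norm_num) (by omega)
    omega
  have hex : ∃ a, N * 2 ^ (a + 1 + max (a + 1) b₀) ≤ 2 ^ ((a + 1) * n) := by
    refine ⟨N + b₀, ?_⟩
    rw [max_eq_left (by omega)]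
    have h1 : N ≤ 2 ^ N := Nat.lt_two_pow_self.le
    calc N * 2 ^ (N + b₀ + 1 + (N + b₀ + 1))
        ≤ 2 ^ N * 2 ^ (N + b₀ + 1 + (N + b₀ + 1)) := Nat.mul_le_mul_right _ h1
      _ = 2 ^ (N + (N + b₀ + 1 + (N + b₀ + 1))) := by rw [← pow_add]
      _ ≤ 2 ^ ((N + b₀ + 1) * n) := by
          apply Nat.pow_le_pow_right (by norm_num)
          nlinarith
  classical
  set a := Nat.find hex with ha
  have hspec := Nat.find_spec hex
  rw [← ha] at hspec
  have hmem : 2 ^ (a + 1 + max (a + 1) b₀) ∈ Volumes N 2 k :=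
    upper_two (a + 1) (max (a + 1) b₀) n k N (by omega) (le_max_left _ _)
      (hb1.trans (Nat.pow_le_pow_right (by norm_num) (le_max_right _ _))) hk hspec
  refine ⟨_, hmem, ?_⟩
  have hn2 : n < 2 ^ n := Nat.lt_two_pow_self
  rcases Nat.eq_zero_or_pos a with ha0 | hapos
  · right
    rw [ha0, max_eq_right (by omega)]
    have h1 : 2 ^ (0 + 1 + b₀) ≤ 16 * n := by
      rw [pow_add]; omega
    calc (2 ^ (0 + 1 + b₀)) ^ n ≤ (16 * n) ^ n := Nat.pow_le_pow_left h1 n
      _ ≤ (16 * n) ^ n * N := Nat.le_mul_of_pos_right _ hN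
  · obtain ⟨a', ha'⟩ : ∃ a', a = a' + 1 := ⟨a - 1, by omega⟩
    have hmin := Nat.find_min hex (m := a') (by omega)
    push Not at hmin
    rw [ha']
    rcases Nat.lt_or_ge (a' + 1) b₀ with h | h
    · -- few levels
      right
      rw [max_eq_right h.le] at hmin
      rw [max_eq_right (by omega)]
      -- `q = 2 ^ (a' + 1)`
      set q := 2 ^ (a' + 1) with hq
      have hqn : q < 2 * n := by
        calc q ≤ 2 ^ b₀ := Nat.pow_le_pow_right (by norm_num) (by omega)
          _ < 2 * n := hb2
      have hqpos : 0 < q := by positivity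
      have h1 : q ^ n < N * (q * 2 ^ b₀) := by
        rw [hq, ← pow_mul, ← pow_add]; exact hmin
      have h2 : q * 2 ^ b₀ ≤ 4 ^ n := by
        have h3 : q * 2 ^ b₀ ≤ (2 * n) * (2 * n) := Nat.mul_le_mul hqn.le hb2.le
        have h4 : 2 * n ≤ 2 ^ n := by
          obtain ⟨j, rfl⟩ : ∃ j, n = j + 1 := ⟨n - 1, by omega⟩
          have : j + 1 ≤ 2 ^ j := Nat.lt_two_pow_self
          rw [pow_succ]; omega
        calc q * 2 ^ b₀ ≤ (2 * n) * (2 * n) := h3
          _ ≤ 2 ^ n * 2 ^ n := Nat.mul_le_mul h4 h4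
          _ = 4 ^ n := by rw [← mul_pow]; norm_num
      have h5 : 2 ^ (a' + 1 + 1 + b₀) ≤ 4 * n * q := by
        calc 2 ^ (a' + 1 + 1 + b₀) = 2 * q * 2 ^ b₀ := by rw [hq]; ring
          _ ≤ 2 * q * (2 * n) := Nat.mul_le_mul_left _ hb2.le
          _ = 4 * n * q := by ring
      calc (2 ^ (a' + 1 + 1 + b₀)) ^ n ≤ (4 * n * q) ^ n := Nat.pow_le_pow_left h5 n
        _ = (4 * n) ^ n * q ^ n := by rw [mul_pow]
        _ ≤ (4 * n) ^ n * (N * (q * 2 ^ b₀)) := Nat.mul_le_mul_left _ h1.le
        _ ≤ (4 * n) ^ n * (N * 4 ^ n) :=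
            Nat.mul_le_mul_left _ (Nat.mul_le_mul_left _ h2)
        _ = (16 * n) ^ n * N := by
            rw [show 16 * n = (4 * n) * 4 by ring, mul_pow (4 * n) 4]; ring
    · -- many levels
      left
      rw [max_eq_left h] at hmin
      rw [max_eq_left (by omega)]
      set q := 2 ^ (a' + 1) with hq
      have hqpos : 0 < q := by positivity
      have h1 : q ^ n < N * q ^ 2 := by
        rw [hq, ← pow_mul, ← pow_mul]
        rw [show (a' + 1) * 2 = a' + 1 + (a' + 1) by ring]; exact hmin
      obtain ⟨j, rfl⟩ : ∃ j, n = j + 2 := ⟨n - 2, by omega⟩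
      have h2 : q ^ j < N := by
        rw [pow_add] at h1
        exact lt_of_mul_lt_mul_right h1 (Nat.zero_le _)
      simp only [Nat.add_sub_cancel]
      calc (2 ^ (a' + 1 + 1 + (a' + 1 + 1))) ^ j = (4 * q ^ 2) ^ j := by
            congr 1
            rw [hq, ← pow_mul, show (4 : ℕ) = 2 ^ 2 by norm_num, ← pow_add]
            congr 1
            ring
        _ = 4 ^ j * (q ^ j) ^ 2 := by rw [mul_pow]; ring
        _ ≤ 4 ^ j * N ^ 2 := Nat.mul_le_mul_left _ (Nat.pow_le_pow_left h2.le 2)

section numeric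

lemma pow_self_le (j : ℕ) : (j : ℝ) ^ j ≤ 3 ^ j * j.factorial := by
  have h1 : (j : ℝ) ^ j / j.factorial ≤ Real.exp j := Real.pow_div_factorial_le_exp j (by positivity) j
  have h2 : Real.exp j ≤ 3 ^ j := by
    rw [show (j : ℝ) = j * 1 by ring, Real.exp_nat_mul]
    exact pow_le_pow_left₀ (Real.exp_pos 1).le Real.exp_one_lt_three.le j
  have h3 : (0 : ℝ) < j.factorial := by exact_mod_cast j.factorial_pos
  rw [div_le_iff₀ h3] at h1
  exact h1.trans (mul_le_mul_of_nonneg_right h2 h3.le)

lemma choose_bound (n j : ℕ) : j ^ j * n.choose j ≤ (3 * n) ^ j := by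
  have h1 : j ^ j ≤ 3 ^ j * j.factorial := by exact_mod_cast pow_self_le j
  have h2 : j.factorial * n.choose j ≤ n ^ j := by
    rw [← Nat.descFactorial_eq_factorial_mul_choose]
    exact Nat.descFactorial_le_pow n j
  calc j ^ j * n.choose j ≤ (3 ^ j * j.factorial) * n.choose j := Nat.mul_le_mul_right _ h1
    _ = 3 ^ j * (j.factorial * n.choose j) := by ring
    _ ≤ 3 ^ j * n ^ j := Nat.mul_le_mul_left _ h2
    _ = (3 * n) ^ j := by rw [mul_pow]

/-- lower bound (a) -/
lemma lower_a {N k m : ℕ} (hN : 1 ≤ N) (hk : 3 ≤ k) (hm : m ∈ Volumes N 2 k) :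
    N ^ 2 ≤ (81 * m) ^ (k - 2) := by
  obtain ⟨j, rfl⟩ : ∃ j, k = j + 2 := ⟨k - 2, by omega⟩
  have hj : 1 ≤ j := by omega
  simp only [Nat.add_sub_cancel]
  set R := Nat.sqrt ((j + 2) * (j + 2 - 1) * m) with hR
  have h1 : (j + 2) * (j + 2 - 1) * m < (R + 1) * (R + 1) := Nat.lt_succ_sqrt _
  have h2 : R * R ≤ (j + 2) * (j + 2 - 1) * m := Nat.sqrt_le _
  have h3 : N ≤ (R + 1 - 2).choose j := by
    by_contra hcon
    push Not at hcon
    have := design_bound hN hk hm (R + 1) hcon
    nlinarith
  set n := R + 1 - 2 with hn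
  have hnR : n ≤ R := by omega
  have h4 : n ^ 2 ≤ 9 * j ^ 2 * m := by
    calc n ^ 2 ≤ R * R := by rw [sq]; exact Nat.mul_le_mul hnR hnR
      _ ≤ (j + 2) * (j + 2 - 1) * m := h2
      _ ≤ ((3 * j) * (3 * j)) * m := by
          apply Nat.mul_le_mul_right
          exact Nat.mul_le_mul (by omega) (by omega)
      _ = 9 * j ^ 2 * m := by ring
  have h5 : j ^ j * N ≤ (3 * n) ^ j := (Nat.mul_le_mul_left _ h3).trans (choose_bound n j)
  have h6 : (j ^ j) ^ 2 * N ^ 2 ≤ (j ^ j) ^ 2 * (81 * m) ^ j := by
    calc (j ^ j) ^ 2 * N ^ 2 = (j ^ j * N) ^ 2 := by rw [mul_pow]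
      _ ≤ ((3 * n) ^ j) ^ 2 := Nat.pow_le_pow_left h5 2
      _ = (9 * n ^ 2) ^ j := by rw [← pow_mul, mul_comm j 2, pow_mul]; congr 1; ring
      _ ≤ (9 * (9 * j ^ 2 * m)) ^ j := Nat.pow_le_pow_left (Nat.mul_le_mul_left _ h4) j
      _ = (j ^ 2 * (81 * m)) ^ j := by congr 1; ring
      _ = (j ^ j) ^ 2 * (81 * m) ^ j := by rw [mul_pow, ← pow_mul, ← pow_mul, mul_comm 2 j]
  exact Nat.le_of_mul_le_mul_left h6 (by positivity)

lemma sum_choose_bound (k r : ℕ) (hk : 1 ≤ k) (hkr : k ≤ r) :
    ((∑ i ∈ range (k + 1), r.choose i : ℕ) : ℝ) * (k : ℝ) ^ k ≤ (3 * (r : ℝ)) ^ k := by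
  have hr : (0 : ℝ) < r := by exact_mod_cast (by omega : 0 < r)
  have hk0 : (0 : ℝ) < k := by exact_mod_cast hk
  set x : ℝ := (k : ℝ) / r with hx
  have hx0 : 0 < x := by positivity
  have hx1 : x ≤ 1 := by
    rw [hx, div_le_one hr]; exact_mod_cast hkr
  have h1 : ((∑ i ∈ range (k + 1), r.choose i : ℕ) : ℝ) * x ^ k ≤ (1 + x) ^ r := by
    rw [Nat.cast_sum, sum_mul]
    calc ∑ i ∈ range (k + 1), (r.choose i : ℝ) * x ^ k
        ≤ ∑ i ∈ range (k + 1), (r.choose i : ℝ) * x ^ i := by
          apply sum_le_sum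
          intro i hi
          apply mul_le_mul_of_nonneg_left _ (by positivity)
          exact pow_le_pow_of_le_one hx0.le hx1 (by have := mem_range.1 hi; omega)
      _ ≤ ∑ i ∈ range (r + 1), (r.choose i : ℝ) * x ^ i := by
          apply sum_le_sum_of_subset_of_nonneg
          · exact range_subset_range.2 (by omega)
          · intro i _ _; positivity
      _ = (1 + x) ^ r := by
          rw [add_comm 1 x, add_pow]
          apply sum_congr rfl
          intro i _
          rw [one_pow]; ring
  have h2 : (1 + x) ^ r ≤ 3 ^ k := by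
    calc (1 + x) ^ r ≤ (Real.exp x) ^ r := by
          apply pow_le_pow_left₀ (by positivity)
          rw [add_comm]; exact Real.add_one_le_exp x
      _ = Real.exp k := by
          rw [← Real.exp_nat_mul]
          congr 1
          rw [hx]; field_simp
      _ = (Real.exp 1) ^ k := by rw [← Real.exp_nat_mul]; congr 1; ring
      _ ≤ 3 ^ k := pow_le_pow_left₀ (Real.exp_pos 1).le Real.exp_one_lt_three.le k
  have h3 : ((∑ i ∈ range (k + 1), r.choose i : ℕ) : ℝ) * x ^ k ≤ 3 ^ k := h1.trans h2
  have h4 : (k : ℝ) ^ k = x ^ k * (r : ℝ) ^ k := by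
    rw [← mul_pow, hx]; congr 1; field_simp
  rw [h4, ← mul_assoc, mul_pow]
  exact mul_le_mul_of_nonneg_right h3 (by positivity)

/-- lower bound (b) -/
lemma lower_b {N k m : ℕ} (hN : 1 ≤ N) (hk : 3 ≤ k) (hm : m ∈ Volumes N 2 k)
    (hNk : 2 ^ k ≤ N) : (N : ℝ) * (k : ℝ) ^ k ≤ (3 * (m : ℝ)) ^ k := by
  obtain ⟨ρ, h1, h2, h3⟩ := rank_bound hN (by omega) hm
  have hρk : k ≤ ρ := by
    by_contra hcon
    push Not at hcon
    have h4 : ∑ i ∈ range (k + 1), ρ.choose i ≤ 2 ^ ρ := by
      have hsub : range (ρ + 1) ⊆ range (k + 1) := range_subset_range.2 (by omega)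
      rw [← sum_subset hsub, Nat.sum_range_choose]
      intro i _ hi
      rw [mem_range] at hi
      exact Nat.choose_eq_zero_of_lt (by omega)
    have h5 : 2 ^ ρ < 2 ^ k := Nat.pow_lt_pow_right (by norm_num) hcon
    nlinarith
  have h4 := sum_choose_bound k ρ (by omega) hρk
  have h5 : (N : ℝ) ≤ ((∑ i ∈ range (k + 1), ρ.choose i : ℕ) : ℝ) := by
    have : N ≤ ∑ i ∈ range (k + 1), ρ.choose i := le_trans (by nlinarith) h2
    exact_mod_cast this
  have h6 : (ρ : ℝ) ≤ m := by exact_mod_cast h3
  calc (N : ℝ) * (k : ℝ) ^ k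
      ≤ ((∑ i ∈ range (k + 1), ρ.choose i : ℕ) : ℝ) * (k : ℝ) ^ k :=
        mul_le_mul_of_nonneg_right h5 (by positivity)
    _ ≤ (3 * (ρ : ℝ)) ^ k := h4
    _ ≤ (3 * (m : ℝ)) ^ k := by
        apply pow_le_pow_left₀ (by positivity)
        linarith

/-- lower bound (c) -/
lemma lower_c {N k m : ℕ} (hN : 1 ≤ N) (hk : 3 ≤ k) (hm : m ∈ Volumes N 2 k) : N ≤ 2 ^ m := by
  obtain ⟨ρ, h1, h2, h3⟩ := rank_bound hN (by omega) hm
  have h4 : ∑ i ∈ range (k + 1), ρ.choose i ≤ 2 ^ ρ := by
    rw [← Nat.sum_range_choose ρ]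
    rcases le_total k ρ with h | h
    · exact sum_le_sum_of_subset (range_subset_range.2 (by omega))
    · have hsub : range (ρ + 1) ⊆ range (k + 1) := range_subset_range.2 (by omega)
      rw [← sum_subset hsub]
      intro i _ hi
      rw [mem_range] at hi
      exact Nat.choose_eq_zero_of_lt (by omega)
  calc N ≤ N * ρ := Nat.le_mul_of_pos_right _ h1
    _ ≤ 2 ^ ρ := h2.trans h4
    _ ≤ 2 ^ m := Nat.pow_le_pow_right (by norm_num) h3

lemma root_le {x c y : ℝ} {n : ℕ} (hc : 0 ≤ c) (hy : 0 ≤ y) (hn : n ≠ 0)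
    (h : x ^ n ≤ c ^ n * y) (hx : 0 ≤ x) : x ≤ c * y ^ (1 / (n : ℝ)) := by
  rw [← pow_le_pow_iff_left₀ hx (by positivity) hn, mul_pow, one_div,
    Real.rpow_inv_natCast_pow hy hn]
  exact h

lemma root_ge {x c y : ℝ} {n : ℕ} (hc : 0 ≤ c) (hy : 0 ≤ y) (hn : n ≠ 0)
    (h : y * c ^ n ≤ x ^ n) (hx : 0 ≤ x) : c * y ^ (1 / (n : ℝ)) ≤ x := by
  rw [← pow_le_pow_iff_left₀ (by positivity) hx hn, mul_pow, one_div,
    Real.rpow_inv_natCast_pow hy hn, mul_comm]
  exact h

end numeric

/-- The order of magnitude of the minimum volume: the maximum of `N ^ (2 / (k - 2))` and of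
`k * N ^ (1 / k)` if `2 ^ k ≤ N`, of `log₂ N` if `N < 2 ^ k`. -/
noncomputable def scale (N k : ℕ) : ℝ :=
  max ((N : ℝ) ^ ((2 : ℝ) / ((k : ℝ) - 2)))
    (if 2 ^ k ≤ N then (k : ℝ) * (N : ℝ) ^ (1 / (k : ℝ)) else Real.logb 2 N)

lemma rpow_two_div (N k : ℕ) (hk : 3 ≤ k) :
    (N : ℝ) ^ ((2 : ℝ) / ((k : ℝ) - 2)) = ((N : ℝ) ^ 2) ^ (1 / ((k - 2 : ℕ) : ℝ)) := by
  rw [Nat.cast_sub (by omega), ← Real.rpow_natCast (N : ℝ) 2, ← Real.rpow_mul (by positivity)]
  congr 1
  push_cast
  ring

/-- **Main theorem.** For `t = 2` the minimum volume of an `N`-legged `(2,k)` trade is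
determined up to an absolute constant factor, for all `N ≥ 2` and all `k ≥ 3`. -/
theorem main (N k : ℕ) (hN : 2 ≤ N) (hk : 3 ≤ k) :
    ∃ m : ℕ, IsLeast (Volumes N 2 k) m ∧ scale N k ≤ 81 * m ∧ (m : ℝ) ≤ 400 * scale N k := by
  have hlogpos : (1 : ℝ) ≤ Real.logb 2 N := by
    rw [Real.le_logb_iff_rpow_le (by norm_num) (by positivity)]
    rw [Real.rpow_one]; exact_mod_cast hN
  -- lower bound
  have hlow : ∀ m ∈ Volumes N 2 k, scale N k ≤ 81 * m := by
    intro m hm
    unfold scale
    apply max_le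
    · rw [rpow_two_div N k hk, ← one_mul (((N : ℝ) ^ 2) ^ (1 / ((k - 2 : ℕ) : ℝ)))]
      apply root_ge (by norm_num) (by positivity) (by omega) _ (by positivity)
      rw [one_pow, mul_one]
      exact_mod_cast lower_a (by omega) hk hm
    · split_ifs with h
      · refine (root_ge (x := 3 * (m : ℝ)) (by positivity) (by positivity) (by omega) ?_
          (by positivity)).trans ?_
        · exact lower_b (by omega) hk hm h
        · have : (0 : ℝ) ≤ m := by positivity
          linarith
      · have h1 := lower_c (by omega) hk hm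
        have h2 : Real.logb 2 N ≤ m := by
          rw [Real.logb_le_iff_le_rpow (by norm_num) (by positivity), Real.rpow_natCast]
          exact_mod_cast h1
        have : (0 : ℝ) ≤ m := by positivity
        linarith
  -- upper bound
  have hup : ∃ v ∈ Volumes N 2 k, (v : ℝ) ≤ 400 * scale N k := by
    by_cases hNk : 2 ^ k ≤ N
    · obtain ⟨v, hv, h⟩ := upper_cols N k k (by omega) hk le_rfl
      refine ⟨v, hv, ?_⟩
      rcases h with h | h
      · have h1 : (v : ℝ) ≤ 4 * ((N : ℝ) ^ 2) ^ (1 / ((k - 2 : ℕ) : ℝ)) := by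
          apply root_le (by norm_num) (by positivity) (by omega) _ (by positivity)
          exact_mod_cast h
        rw [← rpow_two_div N k hk] at h1
        have h2 : (N : ℝ) ^ ((2 : ℝ) / ((k : ℝ) - 2)) ≤ scale N k := le_max_left _ _
        have h3 : 0 ≤ (N : ℝ) ^ ((2 : ℝ) / ((k : ℝ) - 2)) := by positivity
        linarith
      · have h1 : (v : ℝ) ≤ (16 * k) * (N : ℝ) ^ (1 / (k : ℝ)) := by
          apply root_le (by positivity) (by positivity) (by omega) _ (by positivity)
          exact_mod_cast h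
        have h2 : (k : ℝ) * (N : ℝ) ^ (1 / (k : ℝ)) ≤ scale N k := by
          unfold scale
          rw [if_pos hNk]; exact le_max_right _ _
        have h3 : 0 ≤ (k : ℝ) * (N : ℝ) ^ (1 / (k : ℝ)) := by positivity
        linarith
    · push Not at hNk
      set L := Nat.log 2 N with hL
      have hL1 : 1 ≤ L := Nat.log_pos (by norm_num) hN
      have hNlt : N < 2 ^ (L + 1) := Nat.lt_pow_succ_log_self (by norm_num) _
      have hNge : 2 ^ L ≤ N := Nat.pow_log_le_self 2 (by omega)
      have hLk : L < k := (Nat.pow_lt_pow_iff_right (by norm_num)).1 (hNge.trans_lt hNk)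
      have hLlog : (L : ℝ) ≤ Real.logb 2 N := by
        rw [Real.le_logb_iff_rpow_le (by norm_num) (by positivity), Real.rpow_natCast]
        exact_mod_cast hNge
      have hscale : Real.logb 2 N ≤ scale N k := by
        unfold scale
        rw [if_neg (by omega)]; exact le_max_right _ _
      rcases Nat.lt_or_ge L 3 with h3 | h3
      · -- `N < 8`
        have hN8 : N < 8 := hNlt.trans_le (by
          calc 2 ^ (L + 1) ≤ 2 ^ 3 := Nat.pow_le_pow_right (by norm_num) (by omega)
            _ = 8 := by norm_num)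
        obtain ⟨v, hv, h⟩ := upper_cols N 3 k (by omega) le_rfl hk
        refine ⟨v, hv, ?_⟩
        have h4 : v ≤ 400 := by
          rcases h with h | h
          · norm_num at h
            nlinarith
          · by_contra hcon
            push Not at hcon
            have h5 : 400 ^ 3 ≤ v ^ 3 := Nat.pow_le_pow_left hcon.le 3
            norm_num at h h5
            omega
        have h5 : (v : ℝ) ≤ 400 := by exact_mod_cast h4
        linarith
      · obtain ⟨v, hv, h⟩ := upper_cols N L k (by omega) h3 hLk.le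
        refine ⟨v, hv, ?_⟩
        have h4 : v ≤ 400 * L := by
          rcases h with h | h
          · have h5 : v ^ (L - 2) ≤ 1024 ^ (L - 2) := by
              calc v ^ (L - 2) ≤ 4 ^ (L - 2) * N ^ 2 := h
                _ ≤ 4 ^ (L - 2) * (2 ^ (L + 1)) ^ 2 :=
                    Nat.mul_le_mul_left _ (Nat.pow_le_pow_left hNlt.le 2)
                _ ≤ 4 ^ (L - 2) * 256 ^ (L - 2) := by
                    apply Nat.mul_le_mul_left
                    rw [show (256 : ℕ) = 2 ^ 8 by norm_num, ← pow_mul, ← pow_mul]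
                    apply Nat.pow_le_pow_right (by norm_num)
                    omega
                _ = 1024 ^ (L - 2) := by rw [← mul_pow]; norm_num
            have h6 : v ≤ 1024 := (Nat.pow_le_pow_iff_left (by omega)).1 h5
            omega
          · have h5 : v ^ L ≤ (64 * L) ^ L := by
              calc v ^ L ≤ (16 * L) ^ L * N := h
                _ ≤ (16 * L) ^ L * 2 ^ (L + 1) := Nat.mul_le_mul_left _ hNlt.le
                _ ≤ (16 * L) ^ L * 4 ^ L := by
                    apply Nat.mul_le_mul_left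
                    rw [show (4 : ℕ) = 2 ^ 2 by norm_num, ← pow_mul]
                    apply Nat.pow_le_pow_right (by norm_num)
                    omega
                _ = (64 * L) ^ L := by rw [← mul_pow]; congr 1; ring
            have h6 : v ≤ 64 * L := (Nat.pow_le_pow_iff_left (by omega)).1 h5
            omega
        have h5 : (v : ℝ) ≤ 400 * L := by exact_mod_cast h4
        linarith
  obtain ⟨v, hv, hvle⟩ := hup
  refine ⟨sInf (Volumes N 2 k), ⟨Nat.sInf_mem ⟨v, hv⟩, fun m hm => Nat.sInf_le hm⟩,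
    hlow _ (Nat.sInf_mem ⟨v, hv⟩), ?_⟩
  have : ((sInf (Volumes N 2 k) : ℕ) : ℝ) ≤ v := by exact_mod_cast Nat.sInf_le hv
  exact this.trans hvle

end Pool.Agent.H73.VolumeStrengthTwoAux
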